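import Mathlib

set_option autoImplicit false

open MvPolynomial

namespace Pool.Agent.Lib.MP_73c785_ag

theorem aeval_smul_weighted {σ S : Type*} [CommRing S] [Algebra ℝ S] {w : σ → ℕ} {d : ℕ}
    {F : MvPolynomial σ ℝ} (hF : F.IsWeightedHomogeneous w d) (c : S) (y : σ → S) :
    aeval (fun i => c ^ w i * y i) F = c ^ d * aeval y F := by
  classical
  conv_lhs => rw [F.as_sum]
  conv_rhs => rw [F.as_sum]
  rw [map_sum, map_sum, Finset.mul_sum]
  refine Finset.sum_congr rfl fun m hm => ?_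
  have hd : Finsupp.weight w m = d := hF (mem_support_iff.1 hm)
  rw [aeval_monomial, aeval_monomial, ← hd, Finsupp.weight_apply, Finsupp.sum, Finsupp.prod,
    Finsupp.prod, ← Finset.prod_pow_eq_pow_sum, mul_left_comm, ← Finset.prod_mul_distrib]
  congr 1
  refine Finset.prod_congr rfl fun i _ => ?_
  rw [mul_pow, ← pow_mul, smul_eq_mul, mul_comm (w i)]

theorem natDegree_aeval_le {σ : Type*} {w : σ → ℕ} {d : ℕ}
    {F : MvPolynomial σ ℝ} (hF : F.IsWeightedHomogeneous w d) (p : σ → Polynomial ℂ)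
    (hp : ∀ i, (p i).natDegree ≤ 2 * w i) : (aeval p F).natDegree ≤ 2 * d := by
  classical
  rw [F.as_sum, map_sum]
  refine Polynomial.natDegree_sum_le_of_forall_le _ _ fun m hm => ?_
  have hd : Finsupp.weight w m = d := hF (mem_support_iff.1 hm)
  rw [aeval_monomial]
  refine Polynomial.natDegree_mul_le.trans ?_
  have h0 : (algebraMap ℝ (Polynomial ℂ) (coeff m F)).natDegree = 0 := by
    rw [Polynomial.algebraMap_apply, Polynomial.natDegree_C]
  rw [h0, zero_add, Finsupp.prod, ← hd, Finsupp.weight_apply, Finsupp.sum, Finset.mul_sum]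
  refine (Polynomial.natDegree_prod_le _ _).trans (Finset.sum_le_sum fun i _ => ?_)
  refine Polynomial.natDegree_pow_le.trans ?_
  rw [smul_eq_mul, mul_left_comm]
  exact Nat.mul_le_mul_left _ (hp i)

theorem contDiff_coeff_aeval {σ E : Type*} [NormedAddCommGroup E] [NormedSpace ℝ E]
    (p : E → σ → Polynomial ℂ) (hp : ∀ i n, ContDiff ℝ 1 fun z => (p z i).coeff n)
    (F : MvPolynomial σ ℝ) : ∀ n, ContDiff ℝ 1 fun z => (aeval (p z) F).coeff n := by
  induction F using MvPolynomial.induction_on with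
  | C a => intro n; simp only [aeval_C]; exact contDiff_const
  | add f g hf hg =>
    intro n
    simp only [map_add, Polynomial.coeff_add]
    exact (hf n).add (hg n)
  | mul_X f i hf =>
    intro n
    simp only [map_mul, aeval_X, Polynomial.coeff_mul]
    exact ContDiff.sum fun x _ => (hf _).mul (hp _ _)

theorem eval_aeval {σ : Type*} (p : σ → Polynomial ℂ) (F : MvPolynomial σ ℝ) (t : ℂ) :
    (aeval p F).eval t = aeval (fun i => (p i).eval t) F := by
  induction F using MvPolynomial.induction_on with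
  | C a => simp [Polynomial.algebraMap_apply]
  | add f g hf hg => simp [hf, hg]
  | mul_X f i hf => simp [hf]

theorem conj_aeval {σ : Type*} (y : σ → ℂ) (F : MvPolynomial σ ℝ) :
    (starRingEnd ℂ) (aeval y F) = aeval (fun i => (starRingEnd ℂ) (y i)) F := by
  induction F using MvPolynomial.induction_on with
  | C a => simp
  | add f g hf hg => simp [hf, hg]
  | mul_X f i hf => simp [hf]

theorem aeval_ofReal {σ : Type*} (y : σ → ℝ) (F : MvPolynomial σ ℝ) :
    aeval (fun i => (y i : ℂ)) F = ((eval y F : ℝ) : ℂ) := by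
  induction F using MvPolynomial.induction_on with
  | C a => simp
  | add f g hf hg => simp [hf, hg]
  | mul_X f i hf => simp [hf]

theorem poly_ext_ne_zero {P Q : Polynomial ℂ} (h : ∀ t : ℂ, t ≠ 0 → P.eval t = Q.eval t) :
    P = Q := by
  apply Polynomial.eq_of_infinite_eval_eq
  refine Set.Infinite.mono (s := {0}ᶜ) (fun t ht => h t ht) ?_
  exact (Set.finite_singleton (0 : ℂ)).infinite_compl

/-- symmetry of the coefficients -/
theorem coeff_symm {P : Polynomial ℂ} {d : ℕ} (hdeg : P.natDegree ≤ 2 * d)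
    (h : ∀ t : ℂ, t ≠ 0 →
      P.eval t = t ^ (2 * d) * (starRingEnd ℂ) (P.eval (-((starRingEnd ℂ) t)⁻¹))) (j : ℕ)
    (hj : j ≤ 2 * d) : P.coeff (2 * d - j) = (-1) ^ j * (starRingEnd ℂ) (P.coeff j) := by
  set R : Polynomial ℂ := ∑ i ∈ Finset.range (2 * d + 1),
    Polynomial.monomial (2 * d - i) ((-1) ^ i * (starRingEnd ℂ) (P.coeff i)) with hR
  have hPR : P = R := by
    apply poly_ext_ne_zero
    intro t ht
    rw [h t ht, Polynomial.eval_eq_sum_range' (Nat.lt_succ_of_le hdeg), map_sum, Finset.mul_sum,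
      hR, Polynomial.eval_finsetSum]
    refine Finset.sum_congr rfl fun i hi => ?_
    have hi' : i ≤ 2 * d := Nat.lt_succ_iff.1 (Finset.mem_range.1 hi)
    rw [Polynomial.eval_monomial]
    simp only [map_mul, map_pow, map_neg, map_inv₀, Complex.conj_conj]
    rw [pow_sub₀ _ ht hi', neg_pow (t⁻¹), inv_pow]
    ring
  conv_lhs => rw [hPR, hR]
  rw [Polynomial.finsetSum_coeff, Finset.sum_eq_single j]
  · simp
  · intro i hi hij
    have hi' : i ≤ 2 * d := Nat.lt_succ_iff.1 (Finset.mem_range.1 hi)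
    rw [Polynomial.coeff_monomial, if_neg (by omega)]
  · intro hj'
    exact absurd (Finset.mem_range.2 (Nat.lt_succ_of_le hj)) hj'

/-- real and imaginary parts of `(x + i y) ^ k` as real polynomials in the variables `1, 2`. -/
noncomputable def RI : ℕ → MvPolynomial (Fin 3) ℝ × MvPolynomial (Fin 3) ℝ
  | 0 => (1, 0)
  | k + 1 => (X 1 * (RI k).1 - X 2 * (RI k).2, X 1 * (RI k).2 + X 2 * (RI k).1)

theorem RI_hom (k : ℕ) : (RI k).1.IsHomogeneous k ∧ (RI k).2.IsHomogeneous k := by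
  induction k with
  | zero => exact ⟨isHomogeneous_one _ _, isHomogeneous_zero _ _ _⟩
  | succ k ih =>
    have h : ∀ (i : Fin 3) (p : MvPolynomial (Fin 3) ℝ), p.IsHomogeneous k →
        (X i * p).IsHomogeneous (k + 1) := fun i p hp => by
      rw [add_comm]; exact (isHomogeneous_X ℝ i).mul hp
    exact ⟨(h 1 _ ih.1).sub (h 2 _ ih.2), (h 1 _ ih.2).add (h 2 _ ih.1)⟩

theorem RI_aeval (p : Fin 3 → ℂ) (k : ℕ) :
    aeval p (RI k).1 + Complex.I * aeval p (RI k).2 = (p 1 + Complex.I * p 2) ^ k ∧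
    aeval p (RI k).1 - Complex.I * aeval p (RI k).2 = (p 1 - Complex.I * p 2) ^ k := by
  induction k with
  | zero => simp [RI]
  | succ k ih =>
    rw [pow_succ, pow_succ, ← ih.1, ← ih.2]
    simp only [RI, map_sub, map_add, map_mul, aeval_X]
    constructor
    · linear_combination (-(p 2) * aeval p (RI k).2) * Complex.I_sq
    · linear_combination (-(p 2) * aeval p (RI k).2) * Complex.I_sq

/-- `2 Re (ω (x + i y) ^ k)`. -/
noncomputable def reP (ω : ℂ) (k : ℕ) : MvPolynomial (Fin 3) ℝ :=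
  C (2 * ω.re) * (RI k).1 - C (2 * ω.im) * (RI k).2

theorem reP_hom (ω : ℂ) (k : ℕ) : (reP ω k).IsHomogeneous k :=
  ((RI_hom k).1.C_mul _).sub ((RI_hom k).2.C_mul _)

theorem reP_aeval (ω : ℂ) (k : ℕ) (p : Fin 3 → ℂ) :
    aeval p (reP ω k) = ω * (p 1 + Complex.I * p 2) ^ k +
      (starRingEnd ℂ) ω * (p 1 - Complex.I * p 2) ^ k := by
  rw [← (RI_aeval p k).1, ← (RI_aeval p k).2]
  simp only [reP, map_sub, map_mul, aeval_C, Complex.coe_algebraMap]
  have h1 : ω = ω.re + ω.im * Complex.I := (Complex.re_add_im ω).symm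
  have h2 : (starRingEnd ℂ) ω = ω.re - ω.im * Complex.I := by
    apply Complex.ext <;> simp
  rw [h2]
  conv_rhs => rw [h1]
  simp only [Complex.add_re, Complex.ofReal_re, Complex.mul_re, Complex.I_re, mul_zero,
    Complex.ofReal_im, Complex.I_im, mul_one, sub_self, add_zero, Complex.add_im, Complex.mul_im,
    zero_add]
  push_cast
  linear_combination (-2 * (ω.im : ℂ) * aeval p (RI k).2) * Complex.I_sq

theorem exists_div_conic (H : MvPolynomial (Fin 3) ℝ) :
    ∃ (Q : MvPolynomial (Fin 3) ℝ) (R₀ R₁ : MvPolynomial (Fin 2) ℝ),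
      H = Q * (X 0 ^ 2 + X 1 ^ 2 + X 2 ^ 2) + rename Fin.succ R₀ + X 0 * rename Fin.succ R₁ := by
  induction H using MvPolynomial.induction_on with
  | C a => exact ⟨0, C a, 0, by simp⟩
  | add f g hf hg =>
    obtain ⟨Q, R₀, R₁, rfl⟩ := hf
    obtain ⟨Q', R₀', R₁', rfl⟩ := hg
    exact ⟨Q + Q', R₀ + R₀', R₁ + R₁', by simp only [map_add]; ring⟩
  | mul_X f i hf =>
    obtain ⟨Q, R₀, R₁, rfl⟩ := hf
    refine Fin.cases ?_ (fun j => ?_) i
    · refine ⟨Q * X 0 + rename Fin.succ R₁, -(X 0 ^ 2 + X 1 ^ 2) * R₁, R₀, ?_⟩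
      simp only [map_mul, map_neg, map_add, map_pow, rename_X]
      have e1 : (Fin.succ (0 : Fin 2) : Fin 3) = 1 := rfl
      have e2 : (Fin.succ (1 : Fin 2) : Fin 3) = 2 := rfl
      rw [e1, e2]
      ring
    · refine ⟨Q * X j.succ, R₀ * X j, R₁ * X j, ?_⟩
      simp only [map_mul, rename_X]
      ring

theorem eq_zero_of_aeval {R : MvPolynomial (Fin 2) ℝ}
    (h : ∀ x : Fin 2 → ℂ, x 0 ^ 2 + x 1 ^ 2 ≠ 0 → aeval x R = 0) : R = 0 := by
  have h1 : (X 0 ^ 2 + X 1 ^ 2 : MvPolynomial (Fin 2) ℝ) * R = 0 := by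
    apply MvPolynomial.funext
    intro x
    have : ((eval x ((X 0 ^ 2 + X 1 ^ 2 : MvPolynomial (Fin 2) ℝ) * R) : ℝ) : ℂ) = 0 := by
      rw [← aeval_ofReal, map_mul]
      by_cases hx : (x 0 : ℂ) ^ 2 + (x 1 : ℂ) ^ 2 = 0
      · simp [hx]
      · rw [h _ hx, mul_zero]
    rw [map_zero]
    exact_mod_cast this
  rcases mul_eq_zero.1 h1 with h2 | h2
  · have := congrArg (eval (fun _ => (1 : ℝ))) h2
    norm_num at this
  · exact h2

theorem conic_dvd {H : MvPolynomial (Fin 3) ℝ}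
    (h : ∀ p : Fin 3 → ℂ, p 0 ≠ 0 → p 0 ^ 2 + p 1 ^ 2 + p 2 ^ 2 = 0 → aeval p H = 0) :
    (X 0 ^ 2 + X 1 ^ 2 + X 2 ^ 2 : MvPolynomial (Fin 3) ℝ) ∣ H := by
  obtain ⟨Q, R₀, R₁, hH⟩ := exists_div_conic H
  have key : ∀ x : Fin 2 → ℂ, x 0 ^ 2 + x 1 ^ 2 ≠ 0 → aeval x R₀ = 0 ∧ aeval x R₁ = 0 := by
    intro x hx
    obtain ⟨z, hz⟩ := IsAlgClosed.exists_pow_nat_eq (-(x 0 ^ 2 + x 1 ^ 2)) (n := 2) (by norm_num)
    have hz0 : z ≠ 0 := by
      rintro rfl
      apply hx
      rw [← neg_eq_zero, ← hz]; norm_num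
    have main : ∀ u : ℂ, u ≠ 0 → u ^ 2 = -(x 0 ^ 2 + x 1 ^ 2) →
        aeval x R₀ + u * aeval x R₁ = 0 := by
      intro u hu hu2
      have e0 : (Fin.cons u x : Fin 3 → ℂ) 0 = u := rfl
      have e1 : (Fin.cons u x : Fin 3 → ℂ) 1 = x 0 := rfl
      have e2 : (Fin.cons u x : Fin 3 → ℂ) 2 = x 1 := rfl
      have e3 : (Fin.cons u x : Fin 3 → ℂ) ∘ Fin.succ = x := by funext j; simp
      have := h (Fin.cons u x) (by rw [e0]; exact hu) (by rw [e0, e1, e2, hu2]; ring)
      rw [hH] at this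
      simp only [map_add, map_mul, map_pow, aeval_X, aeval_rename, e0, e1, e2, e3] at this
      rw [hu2] at this
      linear_combination this
    have m1 := main z hz0 hz
    have m2 := main (-z) (neg_ne_zero.2 hz0) (by rw [neg_sq, hz])
    refine ⟨by linear_combination (m1 + m2) / 2, ?_⟩
    have : z * aeval x R₁ = 0 := by linear_combination (m1 - m2) / 2
    exact (mul_eq_zero.1 this).resolve_left hz0
  rw [hH, eq_zero_of_aeval fun x hx => (key x hx).1, eq_zero_of_aeval fun x hx => (key x hx).2]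
  simp

end Pool.Agent.Lib.MP_73c785_ag
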