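import Mathlib

set_option autoImplicit false

open LaurentPolynomial
open scoped ComplexConjugate

noncomputable section

namespace Pool.Agent.Lib.MP_73c785_ag.H74

abbrev R : Type := LaurentPolynomial ℂ

/-- coefficient functional -/
def cf (n : ℤ) : R →ₗ[ℂ] ℂ where
  toFun f := f.coeff n
  map_add' _ _ := rfl
  map_smul' _ _ := rfl

theorem cf_T (n m : ℤ) : cf n (T m) = if m = n then 1 else 0 := T_apply n m

theorem cf_one (n : ℤ) : cf n 1 = if 0 = n then 1 else 0 := cf_T n 0

theorem ext_cf {f g : R} (h : ∀ n, cf n f = cf n g) : f = g := LaurentPolynomial.ext h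

theorem R_ind {P : R → Prop} (add : ∀ p q, P p → P q → P (p + q))
    (mono : ∀ (n : ℤ) (a : ℂ), P (a • T n)) (f : R) : P f :=
  f.induction_on' add fun n a => by rw [← smul_eq_C_mul]; exact mono n a

theorem cf_mul_T (n m : ℤ) (f : R) : cf n (f * T m) = cf (n - m) f := by
  induction f using R_ind with
  | add p q hp hq => rw [add_mul, map_add, map_add, hp, hq]
  | mono k a =>
    rw [smul_mul_assoc, ← T_add, map_smul, map_smul, cf_T, cf_T]
    congr 1
    exact if_congr (by omega) rfl rfl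

theorem finite_supp (f : R) : ∃ a b : ℤ, ∀ n, n < a ∨ b < n → cf n f = 0 := by
  obtain ⟨a, ha⟩ := f.coeff.support.bddBelow
  obtain ⟨b, hb⟩ := f.coeff.support.bddAbove
  refine ⟨a, b, fun n hn => ?_⟩
  by_contra h
  have hm : n ∈ (f.coeff.support : Set ℤ) := Finsupp.mem_support_iff.2 h
  have := ha hm
  have := hb hm
  omega

/-- Laurent polynomials supported in `[a, b]` -/
def B (a b : ℤ) : Submodule ℂ R where
  carrier := {f | ∀ n, n < a ∨ b < n → cf n f = 0}
  add_mem' hf hg n hn := by rw [map_add, hf n hn, hg n hn, add_zero]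
  zero_mem' n _ := map_zero _
  smul_mem' c f hf n hn := by rw [map_smul, hf n hn, smul_zero]

theorem mem_B {a b : ℤ} {f : R} : f ∈ B a b ↔ ∀ n, n < a ∨ b < n → cf n f = 0 := Iff.rfl

theorem T_mem {a b n : ℤ} (h1 : a ≤ n) (h2 : n ≤ b) : T n ∈ B a b := fun k hk => by
  rw [cf_T, if_neg (by omega)]

theorem one_mem_B {a b : ℤ} (h1 : a ≤ 0) (h2 : 0 ≤ b) : (1 : R) ∈ B a b := T_mem h1 h2

theorem B_mono {a b c d : ℤ} (h1 : c ≤ a) (h2 : b ≤ d) {f : R} (hf : f ∈ B a b) : f ∈ B c d :=
  fun n hn => hf n (by omega)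

theorem B_repr {a b : ℤ} {f : R} (hf : f ∈ B a b) :
    f = ∑ n ∈ Finset.Icc a b, cf n f • T n := by
  refine ext_cf fun k => ?_
  simp only [map_sum, map_smul, cf_T, smul_eq_mul, mul_ite, mul_one, mul_zero,
    Finset.sum_ite_eq', Finset.mem_Icc]
  split_ifs with h
  · rfl
  · exact hf k (by omega)

theorem B_le {a b : ℤ} {W : Submodule ℂ R} (h : ∀ n, a ≤ n → n ≤ b → T n ∈ W) : B a b ≤ W := by
  intro f hf
  rw [B_repr hf]
  exact W.sum_mem fun n hn => W.smul_mem _ (h n (Finset.mem_Icc.1 hn).1 (Finset.mem_Icc.1 hn).2)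

theorem B_mul_T {a b n : ℤ} {f : R} (hf : f ∈ B a b) : f * T n ∈ B (a + n) (b + n) :=
  fun k hk => by rw [cf_mul_T]; exact hf _ (by omega)

theorem B_mul {a b c d : ℤ} {f g : R} (hf : f ∈ B a b) (hg : g ∈ B c d) :
    f * g ∈ B (a + c) (b + d) := by
  have : B c d ≤ (B (a + c) (b + d)).comap (LinearMap.mulLeft ℂ f) :=
    B_le fun n h1 h2 => B_mono (by omega) (by omega) (B_mul_T (n := n) hf)
  exact this hg

theorem B_mul' {a b c d e k : ℤ} {f g : R} (hf : f ∈ B a b) (hg : g ∈ B c d) (h1 : e ≤ a + c)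
    (h2 : b + d ≤ k) : f * g ∈ B e k := B_mono h1 h2 (B_mul hf hg)

theorem lin_eq_zero_of_T {a b : ℤ} (φ : R →ₗ[ℂ] ℂ) (h : ∀ n, a ≤ n → n ≤ b → φ (T n) = 0)
    {f : R} (hf : f ∈ B a b) : φ f = 0 :=
  B_le (W := LinearMap.ker φ) h hf

theorem B00 {f : R} (hf : f ∈ B 0 0) : f = cf 0 f • (1 : R) := by
  conv_lhs => rw [B_repr hf]
  simp

/-- the sign `(-1)^n` -/
def sg (n : ℤ) : ℂ := (-1) ^ n

theorem sg_zero : sg 0 = 1 := by simp [sg]
theorem sg_neg (n : ℤ) : sg (-n) = sg n := by
  simp only [sg]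
  rcases Int.even_or_odd n with h | h
  · rw [h.neg_one_zpow, h.neg.neg_one_zpow]
  · rw [h.neg_one_zpow, h.neg.neg_one_zpow]
theorem sg_mul_self (n : ℤ) : sg n * sg n = 1 := by
  simp only [sg]; rw [← mul_zpow]; simp
theorem conj_sg (n : ℤ) : conj (sg n) = sg n := by simp [sg]
theorem sg_one : sg 1 = -1 := by simp [sg]
theorem sg_add (a b : ℤ) : sg (a + b) = sg a * sg b := zpow_add₀ (by norm_num) _ _

/-- the unit `-1/t` -/
def uT : Rˣ := -(unitOfInvertible (T (-1) : R))

/-- the real structure: `t ↦ -1/t`, conjugation on coefficients -/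
def ρ : R →+* R := LaurentPolynomial.eval₂ ((C : ℂ →+* R).comp (starRingEnd ℂ)) uT

theorem uT_zpow (n : ℤ) : ((uT ^ n : Rˣ) : R) = sg n • T (-n) := by
  induction n using Int.induction_on with
  | zero => simp [sg_zero]
  | succ n ih =>
    rw [zpow_add_one, Units.val_mul, ih, sg_add, sg_one]
    have : ((uT : Rˣ) : R) = -T (-1) := rfl
    rw [this, neg_add, T_add, smul_mul_assoc, mul_neg, mul_neg_one, neg_smul, smul_neg]
  | pred n ih =>
    rw [zpow_sub_one, Units.val_mul, ih, sub_eq_add_neg, sg_add, sg_neg 1, sg_one]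
    have : ((uT⁻¹ : Rˣ) : R) = -T (-(-1)) := rfl
    rw [this, neg_add, T_add, smul_mul_assoc, mul_neg, mul_neg_one, neg_smul, smul_neg]

theorem ρ_T (n : ℤ) : ρ (T n) = sg n • T (-n) := by rw [ρ, eval₂_T, uT_zpow]

theorem ρ_C (c : ℂ) : ρ (C c) = C (conj c) := by rw [ρ, eval₂_C]; rfl

theorem ρ_smul (c : ℂ) (f : R) : ρ (c • f) = conj c • ρ f := by
  rw [smul_eq_C_mul, smul_eq_C_mul, map_mul, ρ_C]

theorem cf_ρ (n : ℤ) (f : R) : cf n (ρ f) = sg n * conj (cf (-n) f) := by
  induction f using R_ind with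
  | add p q hp hq => rw [map_add, map_add, map_add, hp, hq, map_add, mul_add]
  | mono k a =>
    rw [ρ_smul, ρ_T, map_smul, map_smul, map_smul, cf_T, cf_T]
    by_cases h : k = -n
    · subst h; simp [sg_neg, mul_comm]
    · rw [if_neg h, if_neg (by omega)]; simp

theorem ρρ (f : R) : ρ (ρ f) = f := by
  refine ext_cf fun n => ?_
  rw [cf_ρ, cf_ρ, map_mul, conj_sg, sg_neg, neg_neg, Complex.conj_conj, ← mul_assoc, sg_mul_self,
    one_mul]

theorem ρ_B {a b : ℤ} {f : R} (hf : f ∈ B a b) : ρ f ∈ B (-b) (-a) := fun n hn => by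
  rw [cf_ρ, hf _ (by omega)]; simp

theorem ρ_B' {a : ℤ} {f : R} (hf : f ∈ B (-a) a) : ρ f ∈ B (-a) a := by
  simpa using ρ_B hf

/-- real part (times two) -/
theorem ρ_add_ρ (f : R) : ρ (f + ρ f) = f + ρ f := by rw [map_add, ρρ, add_comm]

theorem eq_re_im (f : R) : f = (1 / 2 : ℂ) • (f + ρ f) +
    (-Complex.I / 2) • (Complex.I • f + ρ (Complex.I • f)) := by
  rw [ρ_smul, Complex.conj_I, smul_add, smul_add, smul_smul, smul_smul]
  have h1 : -Complex.I / 2 * Complex.I = 1 / 2 := by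
    linear_combination (-1 / 2 : ℂ) * Complex.I_mul_I
  have h2 : -Complex.I / 2 * -Complex.I = -(1 / 2) := by
    linear_combination (1 / 2 : ℂ) * Complex.I_mul_I
  rw [h1, h2]
  module

/-- real basis -/
def E (k : ℤ) : R :=
  if k = 0 then 1 else if 0 < k then T k + ρ (T k) else Complex.I • T (-k) + ρ (Complex.I • T (-k))

/-- coordinates in the real basis -/
def co (k : ℤ) : R →ₗ[ℂ] ℂ :=
  if k = 0 then cf 0 else if 0 < k then (1 / 2 : ℂ) • (cf k + sg k • cf (-k))
  else (-Complex.I / 2) • (cf (-k) - sg k • cf k)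

theorem ρ_E (k : ℤ) : ρ (E k) = E k := by
  unfold E
  split_ifs
  · exact map_one _
  · exact ρ_add_ρ _
  · exact ρ_add_ρ _

theorem E_mem {k m : ℤ} (h1 : -m ≤ k) (h2 : k ≤ m) : E k ∈ B (-m) m := by
  unfold E
  split_ifs
  · exact one_mem_B (by omega) (by omega)
  · exact add_mem (T_mem h1 h2) (ρ_B' (T_mem h1 h2))
  · have : Complex.I • T (-k) ∈ B (-m) m := Submodule.smul_mem _ _ (T_mem (by omega) (by omega))
    exact add_mem this (ρ_B' this)

theorem co_T_of_ne {k n : ℤ} (h1 : n ≠ k) (h2 : n ≠ -k) : co k (T n) = 0 := by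
  unfold co
  split_ifs with h
  · rw [cf_T, if_neg (by omega)]
  · simp [cf_T, h1, h2]
  · simp [cf_T, h1, h2]

theorem co_E (k j : ℤ) : co k (E j) = if j = k then 1 else 0 := by
  have hI := Complex.I_mul_I
  unfold co E
  simp only [ρ_smul, ρ_T, Complex.conj_I, neg_neg, sg_neg]
  by_cases hk : k = 0
  · subst hk
    by_cases hj : j = 0
    · simp [hj, cf_one]
    · by_cases hj' : 0 < j <;> simp [hj, hj', cf_T]
  · by_cases hj : j = 0
    · subst hj
      have : ¬ (0 = k) := fun h => hk h.symm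
      by_cases hk' : 0 < k <;> simp [hk, hk', cf_one, this]
    · have hs := sg_mul_self k
      by_cases hjk : j = k
      · subst hjk
        have h1 : ¬ (j = -j) := by omega
        have h2 : ¬ (-j = j) := by omega
        by_cases hk' : 0 < j
        · simp only [hj, hk', if_true, if_false, LinearMap.smul_apply, LinearMap.add_apply,
            map_add, map_smul, cf_T, h1, h2, smul_eq_mul]
          linear_combination (1 / 2 : ℂ) * hs
        · simp only [hj, hk', if_true, if_false, LinearMap.smul_apply, LinearMap.sub_apply,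
            map_add, map_smul, cf_T, h1, h2, smul_eq_mul]
          linear_combination (-Complex.I * Complex.I / 2) * hs - hI
      · by_cases hjk' : j = -k
        · subst hjk'
          have h1 : ¬ (k = -k) := by omega
          have h2 : ¬ (-k = k) := by omega
          by_cases hk' : 0 < k
          · have : ¬ (0 < -k) := by omega
            simp only [hk, hj, hk', this, if_true, if_false, LinearMap.smul_apply,
              LinearMap.add_apply, map_add, map_smul, cf_T, h1, h2, smul_eq_mul, neg_neg, sg_neg]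
            linear_combination (-Complex.I / 2) * hs
          · have : (0 < -k) := by omega
            simp only [hk, hj, hk', this, if_true, if_false, LinearMap.smul_apply,
              LinearMap.sub_apply, map_add, map_smul, cf_T, h1, h2, smul_eq_mul, neg_neg, sg_neg]
            linear_combination (Complex.I / 2) * hs
        · have h1 : ¬ (-j = k) := by omega
          have h2 : ¬ (-j = -k) := by omega
          by_cases hk' : 0 < k <;> by_cases hj' : 0 < j <;>
            simp [hk, hj, hk', hj', cf_T, hjk, hjk', h1, h2]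

theorem T_mem_span (n : ℤ) (W : Submodule ℂ R) (h1 : E n ∈ W) (h2 : E (-n) ∈ W) : T n ∈ W := by
  have key : ∀ k : ℤ, 0 < k → E k ∈ W → E (-k) ∈ W → T k ∈ W ∧ T (-k) ∈ W := by
    intro k hk a b
    have ea : E k = T k + ρ (T k) := by unfold E; rw [if_neg hk.ne', if_pos hk]
    have eb : E (-k) = Complex.I • T k + ρ (Complex.I • T k) := by
      unfold E; rw [if_neg (by omega), if_neg (by omega), neg_neg]
    have t1 : T k ∈ W := by
      rw [eq_re_im (T k), ← ea, ← eb]
      exact add_mem (W.smul_mem _ a) (W.smul_mem _ b)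
    refine ⟨t1, ?_⟩
    have : T (-k) = sg k • (E k - T k) := by
      rw [ea, add_sub_cancel_left, ρ_T, smul_smul, sg_mul_self, one_smul]
    rw [this]
    exact W.smul_mem _ (sub_mem a t1)
  rcases lt_trichotomy n 0 with h | h | h
  · have := (key (-n) (by omega) h2 (by simpa using h1)).2
    simpa using this
  · subst h
    simpa [E] using h1
  · exact (key n h h1 h2).1

theorem E_repr {m : ℤ} {f : R} (hf : f ∈ B (-m) m) :
    f = ∑ k ∈ Finset.Icc (-m) m, co k f • E k := by
  let Φ : R →ₗ[ℂ] R := ∑ k ∈ Finset.Icc (-m) m, (co k).smulRight (E k)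
  have hΦ : ∀ g, Φ g = ∑ k ∈ Finset.Icc (-m) m, co k g • E k := fun g => by
    simp [Φ, LinearMap.sum_apply]
  have hE : ∀ j, -m ≤ j → j ≤ m → E j ∈ LinearMap.eqLocus LinearMap.id Φ := by
    intro j h1 h2
    rw [LinearMap.mem_eqLocus, hΦ]
    simp [co_E, h1, h2]
  have : B (-m) m ≤ LinearMap.eqLocus LinearMap.id Φ :=
    B_le fun n h1 h2 => T_mem_span n _ (hE n h1 h2) (hE (-n) (by omega) (by omega))
  rw [← hΦ]
  exact this hf

theorem co_real {f : R} (hf : ρ f = f) (k : ℤ) : (((co k f).re : ℝ) : ℂ) = co k f := by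
  rw [← Complex.conj_eq_iff_re]
  have h : ∀ n, conj (cf n f) = sg n * cf (-n) f := fun n => by
    conv_lhs => rw [← hf, cf_ρ, map_mul, conj_sg, Complex.conj_conj]
  have hs := sg_mul_self k
  unfold co
  split_ifs with h0 h1
  · simpa [sg_zero] using h 0
  · simp only [LinearMap.smul_apply, LinearMap.add_apply, smul_eq_mul, map_mul, map_add, h,
      conj_sg, sg_neg, neg_neg, map_div₀, map_one, map_ofNat]
    linear_combination (1 / 2 * cf k f) * hs
  · simp only [LinearMap.smul_apply, LinearMap.sub_apply, smul_eq_mul, map_mul, map_sub, h,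
      conj_sg, sg_neg, neg_neg, map_div₀, map_neg, Complex.conj_I, map_ofNat]
    linear_combination (-Complex.I / 2 * cf (-k) f) * hs

/-- coprimality of two elements of `B (-1) 1` -/
def Cop (A A' : R) : Prop :=
  ∀ n : ℤ, -1 ≤ n → n ≤ 2 → ∃ α ∈ B 0 1, ∃ β ∈ B 0 1, A * α + A' * β = T n

theorem B1_repr {A : R} (hA : A ∈ B (-1) 1) :
    A = cf (-1) A • T (-1) + cf 0 A • (1 : R) + cf 1 A • T 1 := by
  conv_lhs => rw [B_repr hA]
  have : Finset.Icc (-1 : ℤ) 1 = {-1, 0, 1} := by decide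
  rw [this, Finset.sum_insert (by decide), Finset.sum_insert (by decide), Finset.sum_singleton,
    T_zero, add_assoc]

theorem cop_or {A A' : R} (hA : A ∈ B (-1) 1) (hA' : A' ∈ B (-1) 1) (rA : ρ A = A)
    (rA' : ρ A' = A') (h0 : A ≠ 0) : Cop A A' ∨ ∃ c : ℂ, A' = c • A := by
  set a1 := cf 1 A
  set a0 := cf 0 A
  set am := cf (-1) A
  set b1 := cf 1 A'
  set b0 := cf 0 A'
  set bm := cf (-1) A'
  have eA : A = am • T (-1) + a0 • (1 : R) + a1 • T 1 := B1_repr hA
  have eB : A' = bm • T (-1) + b0 • (1 : R) + b1 • T 1 := B1_repr hA'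
  have ha0 : a0 = conj a0 := by
    have := cf_ρ 0 A; rwa [rA, sg_zero, one_mul, neg_zero] at this
  have hb0 : b0 = conj b0 := by
    have := cf_ρ 0 A'; rwa [rA', sg_zero, one_mul, neg_zero] at this
  have ham : am = -conj a1 := by
    have := cf_ρ (-1) A; rwa [rA, sg_neg, sg_one, neg_neg, neg_one_mul] at this
  have hbm : bm = -conj b1 := by
    have := cf_ρ (-1) A'; rwa [rA', sg_neg, sg_one, neg_neg, neg_one_mul] at this
  set p := a1 * b0 - a0 * b1 with hp
  set q := a1 * bm - am * b1 with hq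
  set r := a0 * bm - am * b0 with hr
  by_cases hΔ : q ^ 2 - p * r = 0
  · right
    have hr' : r = conj p := by
      rw [hr, hp, map_sub, map_mul, map_mul, ← ha0, ← hb0, ham, hbm]; ring
    have hq' : conj q = -q := by
      rw [hq, ham, hbm]
      simp only [map_sub, map_mul, map_neg, Complex.conj_conj]
      ring
    have h1 : Complex.normSq q + Complex.normSq p = 0 := by
      have : ((Complex.normSq q + Complex.normSq p : ℝ) : ℂ) = 0 := by
        push_cast
        rw [← Complex.mul_conj, ← Complex.mul_conj, hq', ← hr']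
        linear_combination -hΔ
      exact_mod_cast this
    have hq0 : q = 0 := Complex.normSq_eq_zero.1
      (by nlinarith [Complex.normSq_nonneg q, Complex.normSq_nonneg p])
    have hp0 : p = 0 := Complex.normSq_eq_zero.1
      (by nlinarith [Complex.normSq_nonneg q, Complex.normSq_nonneg p])
    have hr0 : r = 0 := by rw [hr', hp0, map_zero]
    by_cases h1 : a1 = 0
    · have hm : am = 0 := by rw [ham, h1]; simp
      have ha : a0 ≠ 0 := fun h => h0 (by rw [eA, h1, hm, h]; simp)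
      refine ⟨b0 / a0, ?_⟩
      have e1 : b1 = 0 := by
        have : a0 * b1 = 0 := by rw [hp, h1] at hp0; linear_combination -hp0
        exact (mul_eq_zero.1 this).resolve_left ha
      have e2 : bm = 0 := by rw [hbm, e1]; simp
      rw [eB, eA, h1, hm, e1, e2]
      simp only [zero_smul, zero_add, add_zero, smul_smul]
      rw [div_mul_cancel₀ _ ha]
    · refine ⟨b1 / a1, ?_⟩
      have e1 : bm = b1 / a1 * am := by field_simp; linear_combination hq0
      have e2 : b0 = b1 / a1 * a0 := by field_simp; linear_combination hp0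
      have e3 : b1 = b1 / a1 * a1 := by field_simp
      rw [eB, eA, smul_add, smul_add, smul_smul, smul_smul, smul_smul, ← e1, ← e2, ← e3]
  · left
    have hu : (T 1 : R) * T (-1) = 1 := by rw [← T_add]; rfl
    have h2 : (T 2 : R) = T 1 * T 1 := by rw [← T_add]; rfl
    have m1 : ∀ x y : ℂ, x • (1 : R) + y • T 1 ∈ B 0 1 := fun x y =>
      add_mem (Submodule.smul_mem _ _ (one_mem_B le_rfl zero_le_one))
        (Submodule.smul_mem _ _ (T_mem zero_le_one le_rfl))
    have key : ∀ (n : ℤ) (x y z w : ℂ),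
        A * (x • (1 : R) + y • T 1) + A' * (z • (1 : R) + w • T 1) = (q ^ 2 - p * r) • T n →
        ∃ α ∈ B 0 1, ∃ β ∈ B 0 1, A * α + A' * β = T n := by
      intro n x y z w h
      refine ⟨_, Submodule.smul_mem _ (q ^ 2 - p * r)⁻¹ (m1 x y), _,
        Submodule.smul_mem _ (q ^ 2 - p * r)⁻¹ (m1 z w), ?_⟩
      rw [mul_smul_comm, mul_smul_comm, ← smul_add, h, smul_smul, inv_mul_cancel₀ hΔ, one_smul]
    intro n h1 h2'
    have hn : n = -1 ∨ n = 0 ∨ n = 1 ∨ n = 2 := by omega
    have hA2 : A * T 1 = am • (1 : R) + a0 • T 1 + a1 • T 2 := by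
      rw [eA, h2, add_mul, add_mul, smul_mul_assoc, smul_mul_assoc, smul_mul_assoc,
        mul_comm (T (-1)), hu, one_mul]
    have hB2 : A' * T 1 = bm • (1 : R) + b0 • T 1 + b1 • T 2 := by
      rw [eB, h2, add_mul, add_mul, smul_mul_assoc, smul_mul_assoc, smul_mul_assoc,
        mul_comm (T (-1)), hu, one_mul]
    have ex : ∀ x y z w : ℂ, A * (x • (1 : R) + y • T 1) + A' * (z • (1 : R) + w • T 1) =
        (x * am + z * bm) • T (-1) + (x * a0 + y * am + z * b0 + w * bm) • (1 : R) +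
        (x * a1 + y * a0 + z * b1 + w * b0) • T 1 + (y * a1 + w * b1) • T 2 := by
      intro x y z w
      rw [mul_add, mul_add, mul_smul_comm, mul_smul_comm, mul_smul_comm, mul_smul_comm, hA2, hB2,
        mul_one, mul_one]
      conv_lhs => rw [eA, eB]
      module
    rcases hn with rfl | rfl | rfl | rfl
    · refine key _ (-q * b1 + p * b0) (p * b1) (q * a1 - p * a0) (-p * a1) ?_
      rw [ex]
      match_scalars <;> simp only [hp, hq, hr] <;> ring
    · refine key _ (-p * bm) (-q * b1) (p * am) (q * a1) ?_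
      rw [ex, T_zero]
      match_scalars <;> simp only [hp, hq, hr] <;> ring
    · refine key _ (q * bm) (r * b1) (-q * am) (-r * a1) ?_
      rw [ex]
      match_scalars <;> simp only [hp, hq, hr] <;> ring
    · refine key _ (-r * bm) (q * bm - r * b0) (r * am) (-q * am + r * a0) ?_
      rw [ex]
      match_scalars <;> simp only [hp, hq, hr] <;> ring

theorem Cop.span {A A' : R} (h : Cop A A') {c : ℤ} (hc : 1 ≤ c) {f : R}
    (hf : f ∈ B (-(c + 1)) (c + 1)) :
    ∃ α ∈ B (-c) c, ∃ β ∈ B (-c) c, A * α + A' * β = f := by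
  have : B (-(c + 1)) (c + 1) ≤ (B (-c) c).map (LinearMap.mulLeft ℂ A) ⊔
      (B (-c) c).map (LinearMap.mulLeft ℂ A') := by
    refine B_le fun n h1 h2 => ?_
    obtain ⟨s, hs1, hs2, hs3, hs4⟩ : ∃ s : ℤ, -c ≤ s ∧ s ≤ c - 1 ∧ -1 ≤ n - s ∧ n - s ≤ 2 :=
      ⟨max (-c) (n - 2), by omega, by omega, by omega, by omega⟩
    obtain ⟨α, hα, β, hβ, e⟩ := h (n - s) hs3 hs4
    have : (T n : R) = A * (α * T s) + A' * (β * T s) := by
      rw [← mul_assoc, ← mul_assoc, ← add_mul, e, ← T_add, sub_add_cancel]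
    rw [this]
    exact Submodule.add_mem_sup
      ⟨_, B_mono (by omega) (by omega) (B_mul_T (n := s) hα), rfl⟩
      ⟨_, B_mono (by omega) (by omega) (B_mul_T (n := s) hβ), rfl⟩
  obtain ⟨_, ⟨α, hα, rfl⟩, _, ⟨β, hβ, rfl⟩, e⟩ := Submodule.mem_sup.1 (this hf)
  exact ⟨α, hα, β, hβ, e⟩

theorem Cop.kill {A A' : R} (h : Cop A A') {c : ℤ} (hc : 1 ≤ c) (φ : R →ₗ[ℂ] ℂ)
    (h1 : ∀ g ∈ B (-c) c, φ (A * g) = 0) (h2 : ∀ g ∈ B (-c) c, φ (A' * g) = 0) {f : R}
    (hf : f ∈ B (-(c + 1)) (c + 1)) : φ f = 0 := by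
  obtain ⟨α, hα, β, hβ, rfl⟩ := h.span hc hf
  rw [map_add, h1 α hα, h2 β hβ, add_zero]

theorem Cop.prop {A A' a b : R} (h : Cop A A') (h0 : A ≠ 0) (ha : a ∈ B (-1) 1)
    (hb : b ∈ B (-1) 1) (e : A * b = A' * a) : ∃ c : ℂ, a = c • A ∧ b = c • A' := by
  have key : ∀ n : ℤ, -1 ≤ n → n ≤ 2 → ∃ w ∈ B (-1 - n) (2 - n), a = A * w ∧ b = A' * w := by
    intro n h1 h2
    obtain ⟨α, hα, β, hβ, e'⟩ := h n h1 h2
    have hu : (T n : R) * T (-n) = 1 := by rw [← T_add]; simp
    refine ⟨(a * α + b * β) * T (-n), ?_, ?_, ?_⟩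
    · exact B_mono (by omega) (by omega)
        (B_mul_T (n := -n) (add_mem (B_mul ha hα) (B_mul hb hβ)))
    · linear_combination (-a * T (-n)) * e' - a * hu - (β * T (-n)) * e
    · linear_combination (-b * T (-n)) * e' - b * hu + (α * T (-n)) * e
  obtain ⟨w, hw, e1, e2⟩ := key (-1) le_rfl (by norm_num)
  obtain ⟨w', hw', e1', -⟩ := key 2 (by norm_num) le_rfl
  have : w = w' := mul_left_cancel₀ h0 (e1.symm.trans e1')
  subst this
  have hw0 : w ∈ B 0 0 := fun n hn => by
    rcases hn with hn | hn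
    · exact hw n (by omega)
    · exact hw' n (by omega)
  refine ⟨cf 0 w, ?_, ?_⟩
  · rw [e1]; conv_lhs => rw [B00 hw0]
    simp
  · rw [e2]; conv_lhs => rw [B00 hw0]
    simp

end Pool.Agent.Lib.MP_73c785_ag.H74
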