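import Mathlib

set_option autoImplicit false

open Module Filter Topology

noncomputable section

namespace Pool.Agent.Lib.MP_73c785_ag.H74

abbrev MM : Matroid ℂ := AlgebraicIndependent.matroid ℚ ℂ

/-- algebraic closure in `ℂ` of the field generated by `S` -/
def cl (S : Set ℂ) : Subfield ℂ where
  carrier := Subalgebra.algebraicClosure (Algebra.adjoin ℚ S) ℂ
  mul_mem' := mul_mem
  one_mem' := one_mem _
  add_mem' := add_mem
  zero_mem' := zero_mem _
  neg_mem' := neg_mem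
  inv_mem' _ h := IsAlgebraic.inv h

theorem coe_cl (S : Set ℂ) : (cl S : Set ℂ) = MM.closure S :=
  AlgebraicIndependent.matroid_closure_eq.symm

theorem subset_cl (S : Set ℂ) : S ⊆ cl S := by
  rw [coe_cl]; exact MM.subset_closure S (Set.subset_univ _)

theorem cl_le {S T : Set ℂ} (h : S ⊆ cl T) : cl S ≤ cl T := by
  rw [← SetLike.coe_subset_coe, coe_cl, coe_cl]
  rw [coe_cl] at h
  exact Matroid.closure_subset_closure_of_subset_closure h

theorem cl_mono {S T : Set ℂ} (h : S ⊆ T) : cl S ≤ cl T := cl_le (h.trans (subset_cl T))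

theorem I_mem_cl (S : Set ℂ) : Complex.I ∈ cl S := by
  refine ⟨Polynomial.X ^ 2 + 1, ?_, by simp⟩
  exact (Polynomial.monic_X_pow_add (by simp)).ne_zero

theorem countable_cl {S : Set ℂ} (hS : S.Countable) : (cl S : Set ℂ).Countable := by
  have : Countable (Algebra.adjoin ℚ S) := by
    rw [← Cardinal.mk_le_aleph0_iff]
    refine (Algebra.cardinalMk_adjoin_le ℚ S).trans ?_
    have h1 : Cardinal.mk S ≤ Cardinal.aleph0 := hS.le_aleph0
    simp [h1]
  exact Algebraic.countable (Algebra.adjoin ℚ S) ℂ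

theorem exists_not_mem_cl {S : Set ℂ} (hS : S.Countable) {a b : ℝ} (hab : a < b) :
    ∃ x ∈ Set.Ioo a b, (x : ℂ) ∉ cl S := by
  by_contra! h
  have h1 : (Set.Ioo a b).Countable :=
    ((countable_cl hS).preimage Complex.ofReal_injective).mono h
  have h2 := h1.le_aleph0
  rw [Cardinal.mk_Ioo_real hab] at h2
  exact absurd h2 (not_le.2 Cardinal.aleph0_lt_continuum)

theorem exists_generic {κ : Type} [Fintype κ] (X : Finset ℂ) {U : Set (κ → ℝ)} {x0 : κ → ℝ}
    (hU : U ∈ 𝓝 x0) : ∃ x ∈ U, ∀ S : Finset ℂ,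
      (∀ i, (x i : ℂ) ∈ cl ((X : Set ℂ) ∪ S)) → Fintype.card κ ≤ S.card := by
  classical
  obtain ⟨ε, hε, hb⟩ := Metric.mem_nhds_iff.1 hU
  have key : ∀ s : Finset κ, ∃ x : κ → ℝ, (∀ i, x i ∈ Set.Ioo (x0 i - ε) (x0 i + ε)) ∧
      MM.eRk ((X : Set ℂ) ∪ (fun i => (x i : ℂ)) '' s) = MM.eRk X + s.card := by
    intro s
    induction s using Finset.induction_on with
    | empty => exact ⟨x0, fun i => ⟨by linarith, by linarith⟩, by simp⟩
    | insert j s hj ih =>
      obtain ⟨x, hx, hr⟩ := ih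
      obtain ⟨y, hy, hy'⟩ := exists_not_mem_cl (S := (X : Set ℂ) ∪ (fun i => (x i : ℂ)) '' s)
        ((X.finite_toSet.union (s.finite_toSet.image _)).countable)
        (show x0 j - ε < x0 j + ε by linarith)
      refine ⟨Function.update x j y, fun i => ?_, ?_⟩
      · by_cases h : i = j
        · subst h; simpa using hy
        · rw [Function.update_of_ne h]; exact hx i
      · have e : (fun i => ((Function.update x j y i : ℝ) : ℂ)) '' s = (fun i => (x i : ℂ)) '' s :=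
          Set.image_congr fun i hi => by
            rw [Function.update_of_ne (fun h : i = j => hj (h ▸ hi))]
        rw [Finset.coe_insert, Set.image_insert_eq, e, Function.update_self, Set.union_insert,
          Matroid.eRk_insert_eq_add_one ⟨Set.mem_univ _, by rwa [← coe_cl]⟩, hr,
          Finset.card_insert_of_notMem hj, Nat.cast_add, Nat.cast_one, add_assoc]
  obtain ⟨x, hx, hr⟩ := key Finset.univ
  refine ⟨x, hb ?_, fun S hS => ?_⟩
  · rw [Metric.mem_ball, dist_pi_lt_iff hε]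
    intro i
    rw [Real.dist_eq, abs_lt]
    constructor <;> linarith [(hx i).1, (hx i).2]
  · have h1 : MM.eRk ((X : Set ℂ) ∪ (fun i => (x i : ℂ)) '' (Finset.univ : Finset κ)) ≤
        MM.eRk X + S.card := by
      calc _ ≤ MM.eRk (MM.closure ((X : Set ℂ) ∪ S)) := by
            apply MM.eRk_mono
            rw [← coe_cl]
            rintro z (hz | ⟨i, -, rfl⟩)
            · exact subset_cl _ (Or.inl hz)
            · exact hS i
        _ = MM.eRk ((X : Set ℂ) ∪ S) := MM.eRk_closure_eq _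
        _ ≤ MM.eRk X + (S : Set ℂ).encard := MM.eRk_union_le_eRk_add_encard _ _
        _ = _ := by rw [Set.encard_coe_eq_coe_finsetCard]
    have hfin : MM.eRk X ≠ ⊤ :=
      ne_top_of_le_ne_top X.finite_toSet.encard_lt_top.ne (MM.eRk_le_encard _)
    rw [hr, Finset.card_univ, ENat.add_le_add_iff_left hfin] at h1
    exact_mod_cast h1

/-- `K`-linear additive maps fixing `1` -/
def Ret (K : Subfield ℂ) (π : ℂ →+ ℂ) : Prop :=
  (∀ a ∈ K, ∀ z, π (a * z) = a * π z) ∧ π 1 = 1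

theorem Ret.mono {K K' : Subfield ℂ} {π : ℂ →+ ℂ} (h : Ret K' π) (hK : K ≤ K') : Ret K π :=
  ⟨fun a ha => h.1 a (hK ha), h.2⟩

theorem Ret.fix {K : Subfield ℂ} {π : ℂ →+ ℂ} (h : Ret K π) {a : ℂ} (ha : a ∈ K) : π a = a := by
  have := h.1 a ha 1
  rwa [mul_one, h.2, mul_one] at this

theorem exists_ret (K : Subfield ℂ) : ∃ π : ℂ →+ ℂ, Ret K π ∧ ∀ z, π z ∈ K := by
  obtain ⟨g, hg⟩ := (Algebra.linearMap K ℂ).exists_leftInverse_of_injective
    (LinearMap.ker_eq_bot.2 Subtype.val_injective)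
  refine ⟨((Algebra.linearMap K ℂ).comp g).toAddMonoidHom, ⟨fun a ha z => ?_, ?_⟩,
    fun z => (g z).2⟩
  · exact ((Algebra.linearMap K ℂ).comp g).map_smul ⟨a, ha⟩ z
  · have := LinearMap.congr_fun hg 1
    simp only [LinearMap.comp_apply, Algebra.linearMap_apply, map_one, LinearMap.id_apply] at this
    simp [this]

theorem Ret.lin {K : Subfield ℂ} {π : ℂ →+ ℂ} (h : Ret K π) {κ : Type} [Fintype κ]
    [DecidableEq κ] (f : (κ → ℂ) →ₗ[ℂ] ℂ) (hf : ∀ i, f (Pi.single i 1) ∈ K) (x : κ → ℂ) :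
    f (fun i => π (x i)) = π (f x) := by
  have e : ∀ y : κ → ℂ, f y = ∑ i, f (Pi.single i 1) * y i := fun y => by
    conv_lhs => rw [pi_eq_sum_univ' y]
    simp [map_sum, mul_comm]
  rw [e, e x, map_sum]
  exact Finset.sum_congr rfl fun i _ => (h.1 _ (hf i) _).symm

theorem exists_coords {κ : Type} [Fintype κ] (n : ℕ) : ∀ W : Submodule ℂ (κ → ℂ),
    finrank ℂ W ≤ n → ∃ A : Finset κ, A.card ≤ n ∧ ∀ w ∈ W, (∀ i ∈ A, w i = 0) → w = 0 := by
  classical
  induction n with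
  | zero =>
    intro W hW
    refine ⟨∅, le_rfl, fun w hw _ => ?_⟩
    rwa [Submodule.finrank_eq_zero.1 (Nat.le_zero.1 hW), Submodule.mem_bot] at hw
  | succ n ih =>
    intro W hW
    by_cases h : W = ⊥
    · exact ⟨∅, Nat.zero_le _, fun w hw _ => by rwa [h, Submodule.mem_bot] at hw⟩
    obtain ⟨w0, hw0, hne⟩ := Submodule.exists_mem_ne_zero_of_ne_bot h
    obtain ⟨i, hi⟩ := Function.ne_iff.1 hne
    have hlt : W ⊓ LinearMap.ker (LinearMap.proj i : (κ → ℂ) →ₗ[ℂ] ℂ) < W :=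
      lt_of_le_of_ne inf_le_left fun e => hi (by rw [← e] at hw0; exact hw0.2)
    obtain ⟨A, hA, hA'⟩ := ih _ (Nat.le_of_lt_succ
      ((Submodule.finrank_lt_finrank_of_lt hlt).trans_le hW))
    refine ⟨insert i A, (Finset.card_insert_le _ _).trans (by omega), fun w hw h0 => ?_⟩
    exact hA' w ⟨hw, h0 i (Finset.mem_insert_self _ _)⟩
      fun j hj => h0 j (Finset.mem_insert_of_mem hj)

theorem LL {κ : Type} [Fintype κ] (W : Submodule ℂ (κ → ℂ)) (x : κ → ℂ) (S : Finset ℂ)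
    (h : ∀ π : ℂ →+ ℂ, Ret (cl S) π → (fun i => π (x i)) - x ∈ W) :
    ∃ T : Finset ℂ, S ⊆ T ∧ T.card ≤ S.card + finrank ℂ W ∧ ∀ i, x i ∈ cl T := by
  classical
  obtain ⟨A, hA, hA'⟩ := exists_coords _ W le_rfl
  refine ⟨S ∪ A.image x, Finset.subset_union_left, (Finset.card_union_le _ _).trans
    (Nat.add_le_add_left (Finset.card_image_le.trans hA) _), fun i => ?_⟩
  obtain ⟨π, hπ, hπ'⟩ := exists_ret (cl ((S ∪ A.image x : Finset ℂ) : Set ℂ))
  have := hA' _ (h π (hπ.mono (cl_mono (by simp)))) fun j hj => by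
    rw [Pi.sub_apply, hπ.fix (subset_cl _ (by simp; exact Or.inr ⟨j, hj, rfl⟩)), sub_self]
  have e : π (x i) = x i := sub_eq_zero.1 (congrFun this i)
  rw [← e]
  exact hπ' _

theorem RK {V κ : Type} [AddCommGroup V] [Module ℂ V] [FiniteDimensional ℂ V] [Fintype κ]
    (V0 : Submodule ℂ V) (G : V →ₗ[ℂ] (κ → ℂ)) (Z : Submodule ℂ (κ → ℂ))
    (h : ∀ c : κ → ℂ, (∀ v ∈ V0, ∑ k, c k * G v k = 0) → c ∈ Z) :
    finrank ℂ (V0 ⊓ LinearMap.ker G : Submodule ℂ V) + Fintype.card κ ≤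
      finrank ℂ V0 + finrank ℂ Z := by
  classical
  have h1 := (G.domRestrict V0).finrank_range_add_finrank_ker
  have h2 := Subspace.finrank_add_finrank_dualAnnihilator_eq
    (LinearMap.range (G.domRestrict V0))
  rw [finrank_fintype_fun_eq_card] at h2
  have h3 : finrank ℂ (LinearMap.ker (G.domRestrict V0)) =
      finrank ℂ (V0 ⊓ LinearMap.ker G : Submodule ℂ V) := by
    rw [LinearMap.ker_domRestrict, ← Submodule.finrank_map_subtype_eq, Submodule.map_comap_subtype]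
  have e : ∀ (f : Module.Dual ℂ (κ → ℂ)) (y : κ → ℂ), f y = ∑ i, f (Pi.single i 1) * y i :=
    fun f y => by
      conv_lhs => rw [pi_eq_sum_univ' y]
      simp [map_sum, mul_comm]
  let φ : Module.Dual ℂ (κ → ℂ) →ₗ[ℂ] (κ → ℂ) :=
    LinearMap.pi fun k => Module.Dual.eval ℂ _ (Pi.single k 1)
  have hφ : Function.Injective φ := by
    rw [← LinearMap.ker_eq_bot, LinearMap.ker_eq_bot']
    intro f hf
    refine LinearMap.ext fun z => ?_
    have : ∀ k, f (Pi.single k 1) = 0 := fun k => congrFun hf k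
    rw [e f z]
    simp only [this, zero_mul, Finset.sum_const_zero, LinearMap.zero_apply]
  have h4 : (LinearMap.range (G.domRestrict V0)).dualAnnihilator.map φ ≤ Z := by
    rintro _ ⟨f, hf, rfl⟩
    refine h _ fun v hv => ?_
    have := (Submodule.mem_dualAnnihilator f).1 hf (G v) ⟨⟨v, hv⟩, rfl⟩
    rw [e f] at this
    exact this
  have h5 := Submodule.finrank_mono h4
  rw [← LinearEquiv.finrank_eq (Submodule.equivMapOfInjective φ hφ _)] at h5
  omega

theorem exists_ker_rat (K : Subfield ℂ) {κ κ' : Type} [Fintype κ] [Fintype κ']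
    (a : κ' → κ → ℂ) (ha : ∀ i j, a i j ∈ K) (h : Fintype.card κ' < Fintype.card κ) :
    ∃ η : κ → ℂ, η ≠ 0 ∧ (∀ j, η j ∈ K) ∧ ∀ i, ∑ j, a i j * η j = 0 := by
  let A : Matrix κ' κ K := fun i j => ⟨a i j, ha i j⟩
  have := LinearMap.ker_ne_bot_of_finrank_lt (f := A.mulVecLin)
    (by rwa [finrank_fintype_fun_eq_card, finrank_fintype_fun_eq_card])
  obtain ⟨v, hv, hne⟩ := Submodule.exists_mem_ne_zero_of_ne_bot this
  refine ⟨fun j => v j, fun e => hne (funext fun j => Subtype.ext (congrFun e j)),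
    fun j => (v j).2, fun i => ?_⟩
  have := congrArg Subtype.val (congrFun (LinearMap.mem_ker.1 hv) i)
  simpa [A, Matrix.mulVec, dotProduct] using this

theorem mem_of_forall_ann {𝕜 κ : Type} [Field 𝕜] [Fintype κ] (W : Submodule 𝕜 (κ → 𝕜))
    (w : κ → 𝕜) (h : ∀ p : κ → 𝕜, (∀ v ∈ W, ∑ k, p k * v k = 0) → ∑ k, p k * w k = 0) :
    w ∈ W := by
  classical
  by_contra hw
  obtain ⟨f, hf, hf'⟩ := Submodule.exists_dual_map_eq_bot_of_notMem hw inferInstance
  have e : ∀ y : κ → 𝕜, f y = ∑ i, f (Pi.single i 1) * y i := fun y => by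
    conv_lhs => rw [pi_eq_sum_univ' y]
    simp [map_sum, mul_comm]
  refine hf (by
    rw [e]
    refine h _ fun v hv => ?_
    rw [← e]
    have : f v ∈ W.map f := ⟨v, hv, rfl⟩
    rwa [hf', Submodule.mem_bot] at this)

theorem semidef {U : Type} [AddCommGroup U] [Module ℝ U] (W : Submodule ℝ U) (φ : U → U → ℝ)
    (hl : ∀ a b c (s : ℝ), φ (a + s • b) c = φ a c + s * φ b c) (hs : ∀ a b, φ a b = φ b a)
    (h : ∀ a ∈ W, ∀ b ∈ W, φ a a = 0 → φ a b = 0) {a b : U} (ha : a ∈ W) (hb : b ∈ W) :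
    0 ≤ φ a a * φ b b := by
  by_contra! hneg
  have hb0 : φ b b ≠ 0 := fun e => by simp [e] at hneg
  have hd : 0 ≤ φ a b ^ 2 - φ a a * φ b b := by nlinarith [sq_nonneg (φ a b)]
  set s : ℝ := (-φ a b + √(φ a b ^ 2 - φ a a * φ b b)) / φ b b with hsd
  have hs1 : s * φ b b = -φ a b + √(φ a b ^ 2 - φ a a * φ b b) := by
    rw [hsd]; field_simp
  have hq := Real.sq_sqrt hd
  have hc : φ (a + s • b) (a + s • b) = 0 := by
    rw [hl, hs a, hs b, hl, hl, hs b a]
    apply mul_left_cancel₀ hb0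
    have : φ b b * (φ a a + s * φ a b + s * (φ a b + s * φ b b)) =
        φ a a * φ b b + 2 * (s * φ b b) * φ a b + (s * φ b b) ^ 2 := by ring
    rw [this, hs1]
    linear_combination hq
  have hm : a + s • b ∈ W := add_mem ha (W.smul_mem _ hb)
  have e1 := h _ hm a ha hc
  have e2 := h _ hm b hb hc
  rw [hl, hs b a] at e1
  rw [hl] at e2
  have : φ a a * φ b b = (s * φ b b) ^ 2 := by
    linear_combination (φ b b) * e1 - (s * φ b b) * e2
  nlinarith [sq_nonneg (s * φ b b)]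

theorem four_zero {a b c d : ℝ} (hab : 0 ≤ a * b) (hac : 0 ≤ a * c) (had : 0 ≤ a * d)
    (h : a + b + c + d = 0) : a = 0 := by
  have : a * (a + b + c + d) = 0 := by rw [h, mul_zero]
  nlinarith [sq_nonneg a]

theorem ift {X Y W : Type} [NormedAddCommGroup X] [NormedSpace ℝ X] [CompleteSpace X]
    [NormedAddCommGroup Y] [NormedSpace ℝ Y] [CompleteSpace Y]
    [NormedAddCommGroup W] [NormedSpace ℝ W] [CompleteSpace W]
    (F : X × Y → W) (hF : ContDiff ℝ 1 F) (x0 : X) (y0 : Y) (h0 : F (x0, y0) = 0)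
    (hs : ∀ w, ∃ v : Y, HasDerivAt (fun t : ℝ => F (x0, y0 + t • v)) w 0)
    {V : Set (X × Y)} (hV : V ∈ 𝓝 (x0, y0)) :
    ∀ᶠ x in 𝓝 x0, ∃ y, (x, y) ∈ V ∧ F (x, y) = 0 := by
  have h1 : HasStrictFDerivAt F (fderiv ℝ F (x0, y0)) (x0, y0) :=
    hF.contDiffAt.hasStrictFDerivAt one_ne_zero
  have h2 : ∀ w, ∃ v : Y, fderiv ℝ F (x0, y0) (0, v) = w := by
    intro w
    obtain ⟨v, hv⟩ := hs w
    have h3 : HasDerivAt (fun t : ℝ => ((x0, y0 + t • v) : X × Y)) (0, v) 0 := by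
      have := ((hasDerivAt_id (0 : ℝ)).smul_const v).const_add y0
      exact (hasDerivAt_const (0 : ℝ) x0).prodMk (by simpa using this)
    have h4 : HasFDerivAt F (fderiv ℝ F (x0, y0)) (x0, y0 + (0 : ℝ) • v) := by
      simpa using h1.hasFDerivAt
    exact ⟨v, (h4.comp_hasDerivAt (0 : ℝ) h3).unique hv⟩
  have h3 : HasStrictFDerivAt (fun p : X × Y => (p.1, F p))
      ((ContinuousLinearMap.fst ℝ X Y).prod (fderiv ℝ F (x0, y0))) (x0, y0) :=
    hasStrictFDerivAt_fst.prodMk h1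
  have h4 := h3.map_nhds_eq_of_surj (by
    rw [LinearMap.range_eq_top]
    rintro ⟨x, w⟩
    obtain ⟨y, hy⟩ := h2 (w - fderiv ℝ F (x0, y0) (x, 0))
    refine ⟨(x, y), Prod.ext rfl ?_⟩
    have e : ((x, y) : X × Y) = (x, 0) + (0, y) := by simp
    show fderiv ℝ F (x0, y0) (x, y) = w
    rw [e, map_add, hy, add_sub_cancel])
  have h5 : (fun p : X × Y => (p.1, F p)) '' V ∈ 𝓝 (x0, (0 : W)) := by
    have := image_mem_map (m := fun p : X × Y => (p.1, F p)) hV
    rwa [h4, h0] at this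
  have h6 : Tendsto (fun x : X => (x, (0 : W))) (𝓝 x0) (𝓝 (x0, 0)) :=
    (Continuous.prodMk_left (0 : W)).tendsto x0
  filter_upwards [h6 h5] with x hx
  obtain ⟨⟨x', y⟩, hp, e⟩ := hx
  obtain ⟨rfl, e2⟩ := Prod.mk.inj e
  exact ⟨y, hp, e2⟩

theorem aeval_smul_hom {σ A : Type} [CommRing A] {d : ℕ} {F : MvPolynomial σ A}
    (hF : F.IsHomogeneous d) (c : A) (y : σ → A) :
    MvPolynomial.aeval (c • y) F = c ^ d * MvPolynomial.aeval y F := by
  classical
  conv_lhs => rw [F.as_sum]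
  conv_rhs => rw [F.as_sum]
  rw [map_sum, map_sum, Finset.mul_sum]
  refine Finset.sum_congr rfl fun m hm => ?_
  rw [MvPolynomial.aeval_monomial, MvPolynomial.aeval_monomial, hF.degree_eq_sum_deg_support hm,
    Finsupp.prod, Finsupp.prod, ← Finset.prod_pow_eq_pow_sum, mul_left_comm,
    ← Finset.prod_mul_distrib]
  congr 1
  exact Finset.prod_congr rfl fun i _ => by rw [Pi.smul_apply, smul_eq_mul, mul_pow]

end Pool.Agent.Lib.MP_73c785_ag.H74
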