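import Pool.Agent.Lib.MP_73c785_ag.H74A

set_option autoImplicit false

open MvPolynomial
open scoped ComplexConjugate

noncomputable section

namespace Pool.Agent.Lib.MP_73c785_ag.H74

/-- a multiplicative filtration of a commutative ring -/
structure Filt (A : Type) [CommRing A] where
  F : ℕ → AddSubgroup A
  mul : ∀ {m n : ℕ} {a b : A}, a ∈ F m → b ∈ F n → a * b ∈ F (m + n)
  mono : ∀ {m n : ℕ} {a : A}, m ≤ n → a ∈ F m → a ∈ F n
  one : (1 : A) ∈ F 0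

namespace Filt

variable {A A' : Type} [CommRing A] [CommRing A'] (𝓕 : Filt A)

theorem pow {c : ℕ} {a : A} (h : a ∈ 𝓕.F c) (n : ℕ) : a ^ n ∈ 𝓕.F (n * c) := by
  induction n with
  | zero => simpa using 𝓕.one
  | succ n ih => rw [pow_succ, Nat.succ_mul]; exact 𝓕.mul ih h

theorem prod {ι : Type} (s : Finset ι) (f : ι → A) (c : ι → ℕ) (h : ∀ i ∈ s, f i ∈ 𝓕.F (c i)) :
    ∏ i ∈ s, f i ∈ 𝓕.F (∑ i ∈ s, c i) := by
  classical
  induction s using Finset.induction_on with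
  | empty => simpa using 𝓕.one
  | insert j s hj ih =>
    rw [Finset.prod_insert hj, Finset.sum_insert hj]
    exact 𝓕.mul (h j (Finset.mem_insert_self _ _))
      (ih fun i hi => h i (Finset.mem_insert_of_mem hi))

/-- the induced filtration on polynomials -/
def poly (σ : Type) : Filt (MvPolynomial σ A) where
  F m :=
    { carrier := {Φ | ∀ α, coeff α Φ ∈ 𝓕.F m}
      add_mem' := fun ha hb α => by rw [coeff_add]; exact add_mem (ha α) (hb α)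
      zero_mem' := fun α => by rw [coeff_zero]; exact zero_mem _
      neg_mem' := fun ha α => by rw [coeff_neg]; exact neg_mem (ha α) }
  mul := fun ha hb α => by
    classical
    rw [coeff_mul]
    exact sum_mem fun p _ => 𝓕.mul (ha _) (hb _)
  mono := fun h ha α => 𝓕.mono h (ha α)
  one := fun α => by
    classical
    rw [coeff_one]
    split_ifs
    · exact 𝓕.one
    · exact zero_mem _

theorem mem_poly {σ : Type} {m : ℕ} {Φ : MvPolynomial σ A} :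
    Φ ∈ (𝓕.poly σ).F m ↔ ∀ α, coeff α Φ ∈ 𝓕.F m := Iff.rfl

theorem monomial_mem {σ : Type} {m : ℕ} {a : A} (h : a ∈ 𝓕.F m) (α : σ →₀ ℕ) :
    monomial α a ∈ (𝓕.poly σ).F m := fun β => by
  classical
  rw [coeff_monomial]
  split_ifs
  · exact h
  · exact zero_mem _

theorem C_mem {σ : Type} {m : ℕ} {a : A} (h : a ∈ 𝓕.F m) :
    (C a : MvPolynomial σ A) ∈ (𝓕.poly σ).F m := 𝓕.monomial_mem h 0

theorem X_mem {σ : Type} (j : σ) : (X j : MvPolynomial σ A) ∈ (𝓕.poly σ).F 0 :=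
  𝓕.monomial_mem 𝓕.one _

theorem pderiv_mem {σ : Type} {m : ℕ} {Φ : MvPolynomial σ A} (h : Φ ∈ (𝓕.poly σ).F m) (j : σ) :
    pderiv j Φ ∈ (𝓕.poly σ).F m := fun α => by
  rw [coeff_pderiv, ← Nat.cast_succ, mul_comm, ← nsmul_eq_mul]
  exact nsmul_mem (h _) _

theorem eval₂_mem (𝓖 : Filt A') {σ : Type} {D m c : ℕ} {Φ : MvPolynomial σ A}
    (hD : Φ.IsHomogeneous D) (φ : A →+* A') (h : ∀ α, φ (coeff α Φ) ∈ 𝓖.F m) (g : σ → A')
    (hg : ∀ j, g j ∈ 𝓖.F c) : eval₂ φ g Φ ∈ 𝓖.F (m + D * c) := by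
  rw [eval₂_eq]
  refine sum_mem fun α hα => 𝓖.mul (h α) ?_
  have := 𝓖.prod α.support (fun i => g i ^ α i) (fun i => α i * c) fun i _ => 𝓖.pow (hg i) _
  rwa [← Finset.sum_mul, ← hD.degree_eq_sum_deg_support hα] at this

theorem aeval_mem {σ : Type} {D m c : ℕ} {Φ : MvPolynomial σ A}
    (hD : Φ.IsHomogeneous D) (h : Φ ∈ (𝓕.poly σ).F m) (g : σ → A)
    (hg : ∀ j, g j ∈ 𝓕.F c) : aeval g Φ ∈ 𝓕.F (m + D * c) :=
  eval₂_mem 𝓕 hD (RingHom.id A) h g hg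

theorem bind_mem {σ τ : Type} {D m c : ℕ} {Φ : MvPolynomial σ A}
    (hD : Φ.IsHomogeneous D) (h : Φ ∈ (𝓕.poly σ).F m) (g : σ → MvPolynomial τ A)
    (hg : ∀ j, g j ∈ (𝓕.poly τ).F c) : aeval g Φ ∈ (𝓕.poly τ).F (m + D * c) :=
  eval₂_mem (𝓕.poly τ) hD _ (fun α => 𝓕.C_mem (h α)) g hg

end Filt

/-- the degree filtration -/
def FB : Filt R where
  F m := (B (-m) m).toAddSubgroup
  mul := fun ha hb => B_mul' ha hb (by push_cast; omega) (by push_cast; omega)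
  mono := fun h ha => B_mono (by omega) (by omega) ha
  one := one_mem_B (by simp) (by simp)

theorem mem_FB {m : ℕ} {f : R} : f ∈ FB.F m ↔ f ∈ B (-m) m := Iff.rfl

variable {σ : Type}

/-- forms of degree `D` with coefficients in `B (-m) m` -/
def Pm (D m : ℕ) (Φ : MvPolynomial σ R) : Prop := Φ.IsHomogeneous D ∧ Φ ∈ (FB.poly σ).F m

theorem Pm.mul {D m D' m' : ℕ} {Φ Ψ : MvPolynomial σ R} (h : Pm D m Φ) (h' : Pm D' m' Ψ) :
    Pm (D + D') (m + m') (Φ * Ψ) := ⟨h.1.mul h'.1, (FB.poly σ).mul h.2 h'.2⟩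

theorem Pm.add {D m : ℕ} {Φ Ψ : MvPolynomial σ R} (h : Pm D m Φ) (h' : Pm D m Ψ) :
    Pm D m (Φ + Ψ) := ⟨h.1.add h'.1, add_mem h.2 h'.2⟩

theorem Pm.zero (D m : ℕ) : Pm D m (0 : MvPolynomial σ R) := ⟨isHomogeneous_zero _ _ _, zero_mem _⟩

theorem Pm.sum {D m : ℕ} {ι : Type} (s : Finset ι) (Φ : ι → MvPolynomial σ R)
    (h : ∀ i ∈ s, Pm D m (Φ i)) : Pm D m (∑ i ∈ s, Φ i) :=
  ⟨IsHomogeneous.sum s Φ D fun i hi => (h i hi).1, sum_mem fun i hi => (h i hi).2⟩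

theorem Pm.C {m : ℕ} {a : R} (h : a ∈ B (-m) m) : Pm 0 m (C a : MvPolynomial σ R) :=
  ⟨isHomogeneous_C _ _, FB.C_mem h⟩

theorem Pm.X (j : σ) : Pm 1 0 (X j : MvPolynomial σ R) := ⟨isHomogeneous_X _ _, FB.X_mem j⟩

theorem Pm.pderiv {D m : ℕ} {Φ : MvPolynomial σ R} (h : Pm (D + 1) m Φ) (j : σ) :
    Pm D m (pderiv j Φ) := ⟨h.1.pderiv, FB.pderiv_mem h.2 j⟩

theorem Pm.aeval {D m : ℕ} {Φ : MvPolynomial σ R} (h : Pm D m Φ) {L : σ → R}
    (hL : ∀ j, L j ∈ B (-1) 1) : aeval L Φ ∈ B (-((m : ℤ) + D)) (m + D) := by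
  have := FB.aeval_mem (c := 1) h.1 h.2 L hL
  rw [mem_FB] at this
  simpa using this

theorem Pm.map_ρ {D m : ℕ} {Φ : MvPolynomial σ R} (h : Pm D m Φ) : Pm D m (map ρ Φ) :=
  ⟨h.1.map _, fun α => by rw [coeff_map]; exact ρ_B' (h.2 α)⟩

theorem Pm.smul {D m : ℕ} {Φ : MvPolynomial σ R} (h : Pm D m Φ) (c : ℂ) : Pm D m (c • Φ) :=
  ⟨fun α hα => h.1 (fun e => hα (by rw [coeff_smul, e, smul_zero])),
    fun α => by rw [coeff_smul]; exact Submodule.smul_mem (B _ _) _ (h.2 α)⟩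

theorem ρ_aeval (L : σ → R) (Φ : MvPolynomial σ R) :
    ρ (aeval L Φ) = aeval (fun j => ρ (L j)) (map ρ Φ) := by
  induction Φ using MvPolynomial.induction_on with
  | C a => simp
  | add f g hf hg => simp only [map_add, hf, hg]
  | mul_X f i hf => simp only [map_mul, aeval_X, map_X, hf]

theorem ρ_aeval_real {L : σ → R} {Φ : MvPolynomial σ R} (hL : ∀ j, ρ (L j) = L j)
    (hΦ : map ρ Φ = Φ) : ρ (aeval L Φ) = aeval L Φ := by
  rw [ρ_aeval, hΦ]; simp only [hL]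

theorem SP {L : σ → R} {i0 j0 : σ} (h : Cop (L i0) (L j0)) {c : ℕ} (hc : 1 ≤ c) (n : ℕ) :
    ∀ f ∈ B (-((c : ℤ) + n)) (c + n), ∃ Θ, Pm n c Θ ∧ aeval L Θ = f := by
  induction n with
  | zero => exact fun f hf => ⟨C f, Pm.C (by simpa using hf), by simp⟩
  | succ n ih =>
    intro f hf
    obtain ⟨α, hα, β, hβ, rfl⟩ := h.span (c := c + n) (by omega)
      (by push_cast at hf; rwa [add_assoc])
    obtain ⟨Θ1, h1, rfl⟩ := ih α hα
    obtain ⟨Θ2, h2, rfl⟩ := ih β hβ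
    refine ⟨Θ1 * X i0 + Θ2 * X j0, (h1.mul (Pm.X i0)).add (h2.mul (Pm.X j0)), ?_⟩
    simp only [map_add, map_mul, aeval_X]
    ring

/-- evaluation as a complex linear map -/
def Ev (L : σ → R) : MvPolynomial σ R →ₗ[ℂ] R :=
  (aeval L : MvPolynomial σ R →ₐ[R] R).toLinearMap.restrictScalars ℂ

theorem Ev_apply (L : σ → R) (Φ : MvPolynomial σ R) : Ev L Φ = aeval L Φ := rfl

variable [Fintype σ]

/-- directional derivative -/
def Dd (δ : σ → R) : MvPolynomial σ R →ₗ[R] MvPolynomial σ R :=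
  ∑ j, δ j • (pderiv j : Derivation R (MvPolynomial σ R) (MvPolynomial σ R)).toLinearMap

theorem Dd_apply (δ : σ → R) (Φ : MvPolynomial σ R) : Dd δ Φ = ∑ j, C (δ j) * pderiv j Φ := by
  simp [Dd, LinearMap.sum_apply, smul_eq_C_mul]

theorem Dd_mul (δ : σ → R) (Φ Ψ : MvPolynomial σ R) :
    Dd δ (Φ * Ψ) = Dd δ Φ * Ψ + Φ * Dd δ Ψ := by
  simp only [Dd_apply, pderiv_mul, Finset.sum_mul, Finset.mul_sum, ← Finset.sum_add_distrib]
  exact Finset.sum_congr rfl fun j _ => by ring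

theorem Dd_C (δ : σ → R) (a : R) : Dd δ (C a) = 0 := by simp [Dd_apply]

theorem Dd_X (δ : σ → R) (j : σ) : Dd δ (X j) = C (δ j) := by
  classical
  simp [Dd_apply, pderiv_X, Pi.single_apply]

/-- first derivative -/
def Lam (L δ : σ → R) : MvPolynomial σ R →ₗ[ℂ] R :=
  ((aeval L : MvPolynomial σ R →ₐ[R] R).toLinearMap ∘ₗ Dd δ).restrictScalars ℂ

/-- second derivative -/
def Hs (L δ δ' : σ → R) : MvPolynomial σ R →ₗ[ℂ] R :=
  ((aeval L : MvPolynomial σ R →ₐ[R] R).toLinearMap ∘ₗ Dd δ ∘ₗ Dd δ').restrictScalars ℂ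

theorem Lam_apply (L δ : σ → R) (Φ : MvPolynomial σ R) : Lam L δ Φ = aeval L (Dd δ Φ) := rfl

theorem Hs_apply (L δ δ' : σ → R) (Φ : MvPolynomial σ R) :
    Hs L δ δ' Φ = aeval L (Dd δ (Dd δ' Φ)) := rfl

theorem Lam_eq (L δ : σ → R) (Φ : MvPolynomial σ R) :
    Lam L δ Φ = ∑ j, δ j * aeval L (pderiv j Φ) := by
  simp [Lam_apply, Dd_apply]

theorem Hs_eq (L δ δ' : σ → R) (Φ : MvPolynomial σ R) :
    Hs L δ δ' Φ = ∑ i, ∑ j, δ i * δ' j * aeval L (pderiv i (pderiv j Φ)) := by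
  simp only [Hs_apply, Dd_apply δ, map_sum, map_mul, aeval_C, Algebra.algebraMap_self,
    RingHom.id_apply, Dd_apply δ', pderiv_C_mul, Finset.mul_sum, mul_assoc]

theorem Lam_mul (L δ : σ → R) (Φ Ψ : MvPolynomial σ R) :
    Lam L δ (Φ * Ψ) = Lam L δ Φ * aeval L Ψ + aeval L Φ * Lam L δ Ψ := by
  simp only [Lam_apply, Dd_mul, map_add, map_mul]

theorem Hs_mul (L δ δ' : σ → R) (Φ Ψ : MvPolynomial σ R) :
    Hs L δ δ' (Φ * Ψ) = Hs L δ δ' Φ * aeval L Ψ + Lam L δ' Φ * Lam L δ Ψ +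
      Lam L δ Φ * Lam L δ' Ψ + aeval L Φ * Hs L δ δ' Ψ := by
  simp only [Hs_apply, Lam_apply, Dd_mul, map_add, map_mul]
  ring

theorem Lam_C (L δ : σ → R) (a : R) : Lam L δ (C a) = 0 := by simp [Lam_apply, Dd_C]
theorem Lam_X (L δ : σ → R) (j : σ) : Lam L δ (X j) = δ j := by simp [Lam_apply, Dd_X]
theorem Hs_C (L δ δ' : σ → R) (a : R) : Hs L δ δ' (C a) = 0 := by simp [Hs_apply, Dd_C]
theorem Hs_X (L δ δ' : σ → R) (j : σ) : Hs L δ δ' (X j) = 0 := by simp [Hs_apply, Dd_C, Dd_X]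

theorem Hs_symm (L δ δ' : σ → R) (Φ : MvPolynomial σ R) : Hs L δ δ' Φ = Hs L δ' δ Φ := by
  induction Φ using MvPolynomial.induction_on with
  | C a => rw [Hs_C, Hs_C]
  | add f g hf hg => rw [map_add, map_add, hf, hg]
  | mul_X f i hf => rw [Hs_mul, Hs_mul, hf, Hs_X, Hs_X]; ring

theorem Lam_add (L δ δ' : σ → R) (Φ : MvPolynomial σ R) :
    Lam L (δ + δ') Φ = Lam L δ Φ + Lam L δ' Φ := by
  simp only [Lam_eq, Pi.add_apply, add_mul, Finset.sum_add_distrib]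

theorem Lam_smul (L δ : σ → R) (a : R) (Φ : MvPolynomial σ R) :
    Lam L (a • δ) Φ = a * Lam L δ Φ := by
  simp only [Lam_eq, Pi.smul_apply, smul_eq_mul, Finset.mul_sum, mul_assoc]

theorem Hs_add (L δ δ' δ'' : σ → R) (Φ : MvPolynomial σ R) :
    Hs L (δ + δ') δ'' Φ = Hs L δ δ'' Φ + Hs L δ' δ'' Φ := by
  simp only [Hs_eq, Pi.add_apply, add_mul, Finset.sum_add_distrib]

theorem Hs_smul (L δ δ' : σ → R) (a : R) (Φ : MvPolynomial σ R) :
    Hs L (a • δ) δ' Φ = a * Hs L δ δ' Φ := by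
  simp only [Hs_eq, Pi.smul_apply, smul_eq_mul, Finset.mul_sum, mul_assoc]

theorem ρ_Lam {L : σ → R} {Φ : MvPolynomial σ R} (hL : ∀ j, ρ (L j) = L j) (hΦ : map ρ Φ = Φ)
    (δ : σ → R) : ρ (Lam L δ Φ) = Lam L (fun j => ρ (δ j)) Φ := by
  simp only [Lam_eq, map_sum, map_mul]
  refine Finset.sum_congr rfl fun j _ => ?_
  rw [ρ_aeval_real hL (by rw [← pderiv_map, hΦ])]

theorem ρ_Hs {L : σ → R} {Φ : MvPolynomial σ R} (hL : ∀ j, ρ (L j) = L j) (hΦ : map ρ Φ = Φ)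
    (δ δ' : σ → R) : ρ (Hs L δ δ' Φ) = Hs L (fun j => ρ (δ j)) (fun j => ρ (δ' j)) Φ := by
  simp only [Hs_eq, map_sum, map_mul]
  refine Finset.sum_congr rfl fun i _ => Finset.sum_congr rfl fun j _ => ?_
  rw [ρ_aeval_real hL (by rw [← pderiv_map, ← pderiv_map, hΦ])]

theorem euler {D : ℕ} {Φ : MvPolynomial σ R} (h : Φ.IsHomogeneous D) (L : σ → R) :
    Lam L L Φ = D • aeval L Φ := by
  rw [← map_nsmul, ← h.sum_X_mul_pderiv, Lam_eq]
  simp

/-- the linear form with coefficients `c` -/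
def lin (c : σ → R) : MvPolynomial σ R := ∑ j, C (c j) * X j

theorem aeval_lin (c δ : σ → R) : aeval δ (lin c) = ∑ j, c j * δ j := by simp [lin]

theorem Lam_lin (L c δ : σ → R) : Lam L δ (lin c) = ∑ j, c j * δ j := by
  simp [lin, Lam_mul, Lam_C, Lam_X]

theorem Hs_lin (L c δ δ' : σ → R) : Hs L δ δ' (lin c) = 0 := by
  simp [lin, Hs_mul, Lam_C, Hs_C, Hs_X]

theorem Pm.lin {m : ℕ} {c : σ → R} (h : ∀ j, c j ∈ B (-m) m) : Pm 1 m (lin c) :=
  Pm.sum _ _ fun j _ => (Pm.C (h j)).mul (Pm.X j)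

theorem Lam_test {L c : σ → R} (h : ∑ j, c j * L j = 0) (δ : σ → R) (Θ : MvPolynomial σ R) :
    Lam L δ (lin c * Θ) = (∑ j, c j * δ j) * aeval L Θ := by
  rw [Lam_mul, Lam_lin, aeval_lin, h, zero_mul, add_zero]

theorem Lam_test2 {L c : σ → R} (h : ∑ j, c j * L j = 0) (δ : σ → R) (Θ : MvPolynomial σ R) :
    Lam L δ (lin c * (lin c * Θ)) = 0 := by
  rw [Lam_test h, map_mul, aeval_lin, h, zero_mul, mul_zero]

theorem Hs_test2 {L c : σ → R} (h : ∑ j, c j * L j = 0) (δ : σ → R) (Θ : MvPolynomial σ R) :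
    Hs L δ δ (lin c * (lin c * Θ)) = 2 * (∑ j, c j * δ j) ^ 2 * aeval L Θ := by
  rw [Hs_mul, Hs_lin, Lam_test h, Lam_lin, aeval_lin, h]
  ring

section Smooth

variable (Z : Type) [NormedAddCommGroup Z] [NormedSpace ℝ Z]

/-- basic smooth families -/
def Sm0 : Submonoid (Z → R) where
  carrier := {f | ∃ (c : Z → ℂ) (r : R), ContDiff ℝ 1 c ∧ f = fun z => c z • r}
  mul_mem' := by
    rintro _ _ ⟨c, r, hc, rfl⟩ ⟨c', r', hc', rfl⟩
    exact ⟨fun z => c z * c' z, r * r', hc.mul hc', funext fun z => smul_mul_smul_comm _ _ _ _⟩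
  one_mem' := ⟨fun _ => 1, 1, contDiff_const, funext fun _ => (one_smul _ _).symm⟩

/-- smooth families of Laurent polynomials -/
def Sm : Subring (Z → R) := Subring.closure (Sm0 Z)

variable {Z}

theorem Sm_smul {c : Z → ℂ} (hc : ContDiff ℝ 1 c) (r : R) : (fun z => c z • r) ∈ Sm Z :=
  Subring.subset_closure ⟨c, r, hc, rfl⟩

theorem Sm_const (r : R) : (fun _ => r) ∈ Sm Z := by
  simpa using Sm_smul (Z := Z) (c := fun _ => 1) contDiff_const r

theorem Sm_contDiff {f : Z → R} (hf : f ∈ Sm Z) (φ : R →ₗ[ℂ] ℂ) :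
    ContDiff ℝ 1 fun z => φ (f z) := by
  rw [Sm, Subring.mem_closure_iff, Submonoid.closure_eq] at hf
  induction hf using AddSubgroup.closure_induction with
  | mem f hf =>
    obtain ⟨c, r, hc, rfl⟩ := hf
    simp only [map_smul, smul_eq_mul]
    exact hc.mul contDiff_const
  | zero => simpa using contDiff_const
  | add f g _ _ hf hg => simpa using hf.add hg
  | neg f _ hf => simpa using hf.neg

theorem Sm_sum {ι : Type} (s : Finset ι) (f : ι → Z → R) (h : ∀ i ∈ s, f i ∈ Sm Z) :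
    (fun z => ∑ i ∈ s, f i z) ∈ Sm Z := by
  have := sum_mem h
  rwa [Finset.sum_fn] at this

omit [Fintype σ] in
theorem Sm_aeval {L : Z → σ → R} (hL : ∀ j, (fun z => L z j) ∈ Sm Z) (Φ : MvPolynomial σ R) :
    (fun z => aeval (L z) Φ) ∈ Sm Z := by
  induction Φ using MvPolynomial.induction_on with
  | C a => simpa using Sm_const a
  | add f g hf hg => simp only [map_add]; exact add_mem hf hg
  | mul_X f i hf => simp only [map_mul, aeval_X]; exact mul_mem hf (hL i)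

theorem Sm_Lam (L : σ → R) {δ : Z → σ → R} (h : ∀ j, (fun z => δ z j) ∈ Sm Z)
    (Φ : MvPolynomial σ R) : (fun z => Lam L (δ z) Φ) ∈ Sm Z := by
  simp only [Lam_eq]
  exact Sm_sum _ _ fun j _ => mul_mem (h j) (Sm_const _)

theorem Sm_Hs (L : σ → R) {δ δ' : Z → σ → R} (h : ∀ j, (fun z => δ z j) ∈ Sm Z)
    (h' : ∀ j, (fun z => δ' z j) ∈ Sm Z) (Φ : MvPolynomial σ R) :
    (fun z => Hs L (δ z) (δ' z) Φ) ∈ Sm Z := by
  simp only [Hs_eq]
  exact Sm_sum _ _ fun i _ => Sm_sum _ _ fun j _ => mul_mem (mul_mem (h i) (h' j)) (Sm_const _)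

theorem taylor (L : σ → R) {e : Z → R} {κ u : Z → σ → R} (he : e ∈ Sm Z)
    (hκ : ∀ j, (fun z => κ z j) ∈ Sm Z) (hu : ∀ j, (fun z => u z j) ∈ Sm Z)
    (Φ : MvPolynomial σ R) : ∃ r ∈ Sm Z, ∀ z,
      2 * aeval (fun j => L j + e z * κ z j + e z ^ 2 * u z j) Φ =
        2 * aeval L Φ + 2 * e z * Lam L (κ z) Φ +
        e z ^ 2 * (2 * Lam L (u z) Φ + Hs L (κ z) (κ z) Φ) + e z ^ 3 * r z := by
  induction Φ using MvPolynomial.induction_on with
  | C a => exact ⟨0, zero_mem _, fun z => by simp [Lam_C, Hs_C]⟩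
  | add f g hf hg =>
    obtain ⟨r, hr, e1⟩ := hf
    obtain ⟨r', hr', e2⟩ := hg
    refine ⟨r + r', add_mem hr hr', fun z => ?_⟩
    simp only [map_add, Pi.add_apply]
    linear_combination e1 z + e2 z
  | mul_X f i hf =>
    obtain ⟨r, hr, e1⟩ := hf
    have a2 : (fun z => 2 * Lam L (u z) f + Hs L (κ z) (κ z) f) ∈ Sm Z :=
      add_mem (mul_mem (Sm_const 2) (Sm_Lam L hu f)) (Sm_Hs L hκ hκ f)
    refine ⟨fun z => 2 * Lam L (κ z) f * u z i +
      (2 * Lam L (u z) f + Hs L (κ z) (κ z) f) * (κ z i + e z * u z i) +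
      r z * (L i + e z * κ z i + e z * e z * u z i), ?_, fun z => ?_⟩
    · exact add_mem (add_mem (mul_mem (mul_mem (Sm_const 2) (Sm_Lam L hκ f)) (hu i))
        (mul_mem a2 (add_mem (hκ i) (mul_mem he (hu i)))))
        (mul_mem hr (add_mem (add_mem (Sm_const _) (mul_mem he (hκ i)))
          (mul_mem (mul_mem he he) (hu i))))
    · simp only [map_mul, aeval_X, Lam_mul, Hs_mul, Lam_X, Hs_X]
      linear_combination (L i + e z * κ z i + e z ^ 2 * u z i) * e1 z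

end Smooth

end Pool.Agent.Lib.MP_73c785_ag.H74
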