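import Pool.Agent.Lib.MP_73c785_ag.H74B
import Pool.Agent.Lib.MP_73c785_ag.H74C

set_option autoImplicit false

open MvPolynomial Filter Topology
open scoped ComplexConjugate

noncomputable section

namespace Pool.Agent.Lib.MP_73c785_ag.H74

/-- indices in `[-m, m]` -/
def J (m : ℕ) : Type := {k : ℤ // k ∈ Finset.Icc (-(m : ℤ)) m}

instance (m : ℕ) : Finite (J m) := inferInstanceAs (Finite {k : ℤ // k ∈ Finset.Icc (-(m : ℤ)) m})
instance (m : ℕ) : Fintype (J m) := Fintype.ofFinite _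
instance (m : ℕ) : DecidableEq (J m) := Classical.decEq _

theorem J_ext {m : ℕ} {j k : J m} : j.1 = k.1 ↔ j = k := Subtype.val_inj

theorem card_J (m : ℕ) : Fintype.card (J m) = 2 * m + 1 := by
  rw [← Nat.card_eq_fintype_card]
  show Nat.card {k : ℤ // k ∈ Finset.Icc (-(m : ℤ)) m} = _
  rw [Nat.card_eq_fintype_card, Fintype.card_coe, Int.card_Icc]; omega

theorem sum_J {A : Type} [AddCommMonoid A] (m : ℕ) (f : ℤ → A) :
    ∑ k : J m, f k.1 = ∑ k ∈ Finset.Icc (-(m : ℤ)) m, f k :=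
  (Finset.sum_subtype _ (fun _ => Iff.rfl) f).symm

theorem J_le {m : ℕ} (k : J m) : -(m : ℤ) ≤ k.1 ∧ k.1 ≤ m := Finset.mem_Icc.1 k.2

theorem E_mem' {m : ℕ} (k : J m) : E k.1 ∈ B (-m) m := E_mem (J_le k).1 (J_le k).2

theorem E_repr' {m : ℕ} {f : R} (hf : f ∈ B (-m) m) : f = ∑ k : J m, co k.1 f • E k.1 := by
  conv_lhs => rw [E_repr hf]
  exact (sum_J m fun k => co k f • E k).symm

theorem eq_zero_of_re_co {m : ℕ} {f : R} (hf : f ∈ B (-m) m) (hr : ρ f = f)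
    (h : ∀ k : J m, (co k.1 f).re = 0) : f = 0 := by
  rw [E_repr' hf]
  refine Finset.sum_eq_zero fun k _ => ?_
  rw [← co_real hr, h k]; simp

/-- complexification of a real vector -/
def rl {κ : Type} (x : κ → ℝ) : κ → ℂ := fun i => x i

/-- the constant Laurent polynomial -/
def cR (s : ℝ) : R := LaurentPolynomial.C (s : ℂ)

theorem cR_mul (s : ℝ) (f : R) : cR s * f = (s : ℂ) • f :=
  (LaurentPolynomial.smul_eq_C_mul _ _).symm

variable {σ : Type}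

/-- real points with coordinates in `B (-1) 1` -/
def mkV (y : σ × J 1 → ℝ) : σ → R := fun j => ∑ k : J 1, (y (j, k) : ℂ) • E k.1

theorem mkV_mem (y : σ × J 1 → ℝ) (j : σ) : mkV y j ∈ B (-1) 1 :=
  Submodule.sum_mem _ fun k _ => Submodule.smul_mem _ _ (E_mem' k)

theorem ρ_mkV (y : σ × J 1 → ℝ) (j : σ) : ρ (mkV y j) = mkV y j := by
  simp only [mkV, map_sum, ρ_smul, ρ_E, Complex.conj_ofReal]

theorem mkV_add (y y' : σ × J 1 → ℝ) : mkV (y + y') = mkV y + mkV y' := by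
  funext j; simp [mkV, add_smul, Finset.sum_add_distrib]

theorem mkV_smul (s : ℝ) (y : σ × J 1 → ℝ) : mkV (s • y) = cR s • mkV y := by
  funext j
  simp only [mkV, cR_mul, Finset.smul_sum, smul_smul, Pi.smul_apply, smul_eq_mul,
    Complex.ofReal_mul]

theorem co_mkV (y : σ × J 1 → ℝ) (j : σ) (k : J 1) : co k.1 (mkV y j) = y (j, k) := by
  simp only [mkV, map_sum, map_smul, co_E, J_ext, smul_eq_mul, mul_ite, mul_one, mul_zero,
    Finset.sum_ite_eq', Finset.mem_univ, if_true]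

theorem mkV_ne_zero {y : σ × J 1 → ℝ} (hy : y ≠ 0) : mkV y ≠ 0 := fun h => hy <| by
  funext ⟨j, k⟩
  have := co_mkV y j k
  rw [h] at this
  simpa using this.symm

theorem exists_mkV {δ : σ → R} (h : ∀ j, δ j ∈ B (-1) 1) (hr : ∀ j, ρ (δ j) = δ j) :
    ∃ y, mkV y = δ := by
  refine ⟨fun p => (co p.2.1 (δ p.1)).re, funext fun j => ?_⟩
  simp only [mkV, co_real (hr j)]
  exact (E_repr' (m := 1) (h j)).symm

variable [Fintype σ] [DecidableEq σ]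

/-- exponents of degree `D` -/
def Mon (σ : Type) [Fintype σ] [DecidableEq σ] (D : ℕ) : Type :=
  {α : σ →₀ ℕ // α ∈ Finset.finsuppAntidiag Finset.univ D}

instance (D : ℕ) : Finite (Mon σ D) :=
  inferInstanceAs (Finite {α : σ →₀ ℕ // α ∈ Finset.finsuppAntidiag Finset.univ D})
instance (D : ℕ) : Fintype (Mon σ D) := Fintype.ofFinite _
instance (D : ℕ) : DecidableEq (Mon σ D) := Classical.decEq _

theorem sum_Mon {A : Type} [AddCommMonoid A] (D : ℕ) (f : (σ →₀ ℕ) → A) :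
    ∑ k : Mon σ D, f k.1 = ∑ k ∈ Finset.finsuppAntidiag Finset.univ D, f k :=
  (Finset.sum_subtype _ (fun _ => Iff.rfl) f).symm

abbrev Io (σ : Type) [Fintype σ] [DecidableEq σ] (D m : ℕ) : Type := Mon σ D × J m

/-- basis of the space of forms -/
def bP {D m : ℕ} (i : Io σ D m) : MvPolynomial σ R := monomial i.1.1 (E i.2.1)

/-- parametrisation of forms -/
def mkP (D m : ℕ) : (Io σ D m → ℂ) →ₗ[ℂ] MvPolynomial σ R :=
  ∑ i, (LinearMap.proj i).smulRight (bP i)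

theorem mkP_apply {D m : ℕ} (x : Io σ D m → ℂ) : mkP D m x = ∑ i, x i • bP i := by
  simp [mkP, LinearMap.sum_apply]

theorem mkP_single {D m : ℕ} (i : Io σ D m) : mkP D m (Pi.single i 1) = bP i := by
  simp [mkP_apply, Pi.single_apply]

theorem Pm_bP {D m : ℕ} (i : Io σ D m) : Pm D m (bP i) :=
  ⟨isHomogeneous_monomial _ (by
    rw [Finsupp.degree_eq_sum]; exact (Finset.mem_finsuppAntidiag.1 i.1.2).1),
    FB.monomial_mem (E_mem' i.2) _⟩

theorem Pm_mkP {D m : ℕ} (x : Io σ D m → ℂ) : Pm D m (mkP D m x) := by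
  rw [mkP_apply]; exact Pm.sum _ _ fun i _ => (Pm_bP i).smul _

theorem mkP_co {D m : ℕ} {Φ : MvPolynomial σ R} (h : Pm D m Φ) :
    mkP D m (fun i => co i.2.1 (coeff i.1.1 Φ)) = Φ := by
  rw [mkP_apply, Fintype.sum_prod_type]
  have : ∀ α : Mon σ D, ∑ k : J m, co k.1 (coeff α.1 Φ) • bP (α, k) =
      monomial α.1 (coeff α.1 Φ) := fun α => by
    conv_rhs => rw [E_repr' (h.2 α.1), map_sum]
    simp only [bP, smul_monomial]
  simp only [this]
  rw [sum_Mon D fun α => monomial α (coeff α Φ)]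
  conv_rhs => rw [Φ.as_sum]
  symm
  refine Finset.sum_subset (fun α hα => ?_) fun α _ hα => ?_
  · rw [Finset.mem_finsuppAntidiag]
    refine ⟨?_, Finset.subset_univ _⟩
    by_contra e
    exact mem_support_iff.1 hα (h.1.coeff_eq_zero (by rwa [Finsupp.degree_eq_sum]))
  · rw [notMem_support_iff.1 hα, map_zero]

theorem exists_mkP {D m : ℕ} {Φ : MvPolynomial σ R} (h : Pm D m Φ) : ∃ x, mkP D m x = Φ :=
  ⟨_, mkP_co h⟩

theorem exists_mkP_real {D m : ℕ} {Φ : MvPolynomial σ R} (h : Pm D m Φ) (hr : map ρ Φ = Φ) :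
    ∃ x, mkP D m (rl x) = Φ := by
  refine ⟨fun i => (co i.2.1 (coeff i.1.1 Φ)).re, ?_⟩
  conv_rhs => rw [← mkP_co h]
  congr 1
  funext i
  exact co_real (by rw [← coeff_map, hr]) _

omit [Fintype σ] [DecidableEq σ] in
theorem map_ρ_smul (c : ℂ) (Φ : MvPolynomial σ R) : map ρ (c • Φ) = conj c • map ρ Φ := by
  ext1 α
  rw [coeff_map, coeff_smul, coeff_smul, coeff_map, ρ_smul]

theorem map_ρ_mkP {D m : ℕ} (x : Io σ D m → ℝ) : map ρ (mkP D m (rl x)) = mkP D m (rl x) := by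
  simp only [mkP_apply, map_sum, map_ρ_smul, rl, bP, ρ_E, map_monomial, Complex.conj_ofReal]

omit [DecidableEq σ] in
theorem Lam_mem {D m : ℕ} {Φ : MvPolynomial σ R} (h : Pm D m Φ) (hD : 1 ≤ D) {L δ : σ → R}
    (hL : ∀ j, L j ∈ B (-1) 1) {a b : ℤ} (hδ : ∀ j, δ j ∈ B a b) :
    Lam L δ Φ ∈ B (a - (m + D) + 1) (b + (m + D) - 1) := by
  obtain ⟨D, rfl⟩ : ∃ D', D = D' + 1 := ⟨D - 1, by omega⟩
  rw [Lam_eq]
  exact Submodule.sum_mem _ fun j _ =>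
    B_mul' (hδ j) ((h.pderiv j).aeval hL) (by push_cast; omega) (by push_cast; omega)

/-- the real first derivative -/
def LamR (M : ℕ) (L : σ → R) (Φ : MvPolynomial σ R) : (σ × J 1 → ℝ) →ₗ[ℝ] (J M → ℝ) where
  toFun y k := (co k.1 (Lam L (mkV y) Φ)).re
  map_add' y y' := by funext k; simp [mkV_add, Lam_add]
  map_smul' s y := by funext k; simp [mkV_smul, Lam_smul, cR_mul]

/-- the real second derivative -/
def HsR (M : ℕ) (L : σ → R) (Φ : MvPolynomial σ R) (y y' : σ × J 1 → ℝ) : J M → ℝ :=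
  fun k => (co k.1 (Hs L (mkV y) (mkV y') Φ)).re

omit [DecidableEq σ] in
theorem HsR_symm (M : ℕ) (L : σ → R) (Φ : MvPolynomial σ R) (y y' : σ × J 1 → ℝ) :
    HsR M L Φ y y' = HsR M L Φ y' y := by
  funext k; simp only [HsR, Hs_symm L (mkV y)]

omit [DecidableEq σ] in
theorem HsR_lin (M : ℕ) (L : σ → R) (Φ : MvPolynomial σ R) (a b c : σ × J 1 → ℝ) (s : ℝ) :
    HsR M L Φ (a + s • b) c = HsR M L Φ a c + s • HsR M L Φ b c := by
  funext k; simp [HsR, mkV_add, mkV_smul, Hs_add, Hs_smul, cR_mul]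

omit [DecidableEq σ] in
theorem Lam_eq_zero {D m : ℕ} {Φ : MvPolynomial σ R} (h : Pm D m Φ) (hD : 1 ≤ D)
    (hΦ : map ρ Φ = Φ) {y0 y : σ × J 1 → ℝ} (hy : LamR (m + D) (mkV y0) Φ y = 0) :
    Lam (mkV y0) (mkV y) Φ = 0 := by
  refine eq_zero_of_re_co (m := m + D) ?_ ?_ fun k => congrFun hy k
  · exact B_mono (by push_cast; omega) (by push_cast; omega)
      (Lam_mem h hD (mkV_mem y0) (mkV_mem y))
  · rw [ρ_Lam (ρ_mkV y0) hΦ]; simp only [ρ_mkV]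

/-- the forms having a nonzero real zero -/
def UU (σ : Type) [Fintype σ] [DecidableEq σ] (D m : ℕ) : Set (Io σ D m → ℝ) :=
  {x | ∃ y : σ × J 1 → ℝ, y ≠ 0 ∧ aeval (mkV y) (mkP D m (rl x)) = 0}

section
variable {Z : Type} [NormedAddCommGroup Z] [NormedSpace ℝ Z]

omit [DecidableEq σ] in
theorem Sm_mkV {y : Z → σ × J 1 → ℝ} (hy : ContDiff ℝ 1 y) (j : σ) :
    (fun z => mkV (y z) j) ∈ Sm Z :=
  Sm_sum _ _ fun k _ => Sm_smul (Complex.ofRealCLM.contDiff.comp (contDiff_pi.1 hy (j, k))) _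

theorem Sm_cR {e : Z → ℝ} (he : ContDiff ℝ 1 e) : (fun z => cR (e z)) ∈ Sm Z := by
  have := Sm_smul (Z := Z) (c := fun z => (e z : ℂ)) (Complex.ofRealCLM.contDiff.comp he) 1
  simpa only [← cR_mul, mul_one] using this

theorem Sm_aeval_mkP {D m : ℕ} {L : Z → σ → R} (hL : ∀ j, (fun z => L z j) ∈ Sm Z)
    {x : Z → Io σ D m → ℝ} (hx : ContDiff ℝ 1 x) :
    (fun z => aeval (L z) (mkP D m (rl (x z)))) ∈ Sm Z := by
  have : ∀ z, aeval (L z) (mkP D m (rl (x z))) = ∑ i, cR (x z i) * aeval (L z) (bP i) := by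
    intro z
    rw [← Ev_apply, mkP_apply, map_sum]
    simp only [map_smul, Ev_apply, cR_mul, rl]
  simp only [this]
  exact Sm_sum _ _ fun i _ => mul_mem (Sm_cR (contDiff_pi.1 hx i)) (Sm_aeval hL _)

end

theorem isClosed_proj {X Y : Type} [NormedAddCommGroup X] [NormedSpace ℝ X]
    [NormedAddCommGroup Y] [NormedSpace ℝ Y] [ProperSpace Y] (f : X × Y → R) (hf : f ∈ Sm (X × Y))
    (hh : ∀ x y (c : ℝ), f (x, y) = 0 → f (x, c • y) = 0) :
    IsClosed {x | ∃ y, y ≠ 0 ∧ f (x, y) = 0} := by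
  have hc : IsClosed {p : X × Metric.sphere (0 : Y) 1 | f (p.1, p.2.1) = 0} := by
    have : {p : X × Metric.sphere (0 : Y) 1 | f (p.1, p.2.1) = 0} =
        ⋂ n, {p | cf n (f (p.1, p.2.1)) = 0} := by
      ext p
      simp only [Set.mem_ofPred_eq, Set.mem_iInter]
      exact ⟨fun h n => by rw [h, map_zero], fun h => ext_cf fun n => by rw [h, map_zero]⟩
    rw [this]
    refine isClosed_iInter fun n => isClosed_eq ?_ continuous_const
    exact (Sm_contDiff hf (cf n)).continuous.comp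
      (continuous_fst.prodMk (continuous_subtype_val.comp continuous_snd))
  have := isClosedMap_fst_of_compactSpace _ hc
  convert this using 1
  ext x
  constructor
  · rintro ⟨y, hy, e⟩
    refine ⟨(x, ⟨‖y‖⁻¹ • y, ?_⟩), hh _ _ _ e, rfl⟩
    rw [mem_sphere_zero_iff_norm, norm_smul, norm_inv, norm_norm,
      inv_mul_cancel₀ (norm_ne_zero_iff.2 hy)]
  · rintro ⟨⟨x', y, hy⟩, e, rfl⟩
    refine ⟨y, fun h => ?_, e⟩
    simp [h] at hy

theorem isClosed_UU (D m : ℕ) : IsClosed (UU σ D m) := by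
  have h1 : ∀ j, (fun z : (Io σ D m → ℝ) × (σ × J 1 → ℝ) => mkV z.2 j) ∈
      Sm ((Io σ D m → ℝ) × (σ × J 1 → ℝ)) := Sm_mkV contDiff_snd
  have h2 := Sm_aeval_mkP (D := D) (m := m) h1 (x := fun z => z.1) contDiff_fst
  exact isClosed_proj _ h2 fun x y c e => by
    simp only at e ⊢
    rw [mkV_smul, aeval_smul_hom (Pm_mkP _).1, e, mul_zero]

theorem persist_abs {X Y W : Type} [NormedAddCommGroup X] [NormedSpace ℝ X] [CompleteSpace X]
    [NormedAddCommGroup Y] [NormedSpace ℝ Y] [FiniteDimensional ℝ Y]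
    [NormedAddCommGroup W] [NormedSpace ℝ W] [CompleteSpace W]
    (Λ : Y →ₗ[ℝ] W) (H : Y → Y → W) (hl : ∀ a b c (s : ℝ), H (a + s • b) c = H a c + s • H b c)
    (hsy : ∀ a b, H a b = H b a) (F : (ℝ × X) × (LinearMap.ker Λ × Y) → W) (hF : ContDiff ℝ 1 F)
    (hF0 : ∀ (κ : LinearMap.ker Λ) (u : Y), F ((0, 0), (κ, u)) = (2 : ℝ) • Λ u + H κ κ)
    {y0 κ0 u0 : Y} (hy0 : y0 ≠ 0) (hκ : Λ κ0 = 0) (hu : (2 : ℝ) • Λ u0 + H κ0 κ0 = 0)
    (hs : ∀ w, ∃ κ u, Λ κ = 0 ∧ Λ u + H κ0 κ = w) :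
    ∃ ε : ℝ, ε ≠ 0 ∧ ∀ᶠ θ in 𝓝 (0 : X), ∃ (κ : LinearMap.ker Λ) (u : Y),
      y0 + ε • (κ : Y) + ε ^ 2 • u ≠ 0 ∧ F ((ε, θ), (κ, u)) = 0 := by
  have := FiniteDimensional.complete ℝ Y
  have := FiniteDimensional.complete ℝ (LinearMap.ker Λ)
  have hV : {z : (ℝ × X) × (LinearMap.ker Λ × Y) | y0 + z.1.1 • (z.2.1 : Y) + z.1.1 ^ 2 • z.2.2 ≠ 0}
      ∈ 𝓝 ((0, 0), (⟨κ0, hκ⟩, u0)) :=
    (isOpen_ne_fun (by fun_prop) continuous_const).mem_nhds (by simpa using hy0)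
  have key := ift F hF (0, 0) (⟨κ0, hκ⟩, u0) (by rw [hF0]; exact hu) (fun w => by
    obtain ⟨κ, u, h1, h2⟩ := hs ((1 / 2 : ℝ) • w)
    refine ⟨(⟨κ, h1⟩, u), ?_⟩
    have : (fun t : ℝ => F ((0, 0), ((⟨κ0, hκ⟩, u0) : LinearMap.ker Λ × Y) +
        t • (⟨κ, h1⟩, u))) = fun t => t • w + t ^ 2 • H κ κ := by
      funext t
      refine (hF0 (⟨κ0, hκ⟩ + t • ⟨κ, h1⟩) (u0 + t • u)).trans ?_
      have hw : w = (2 : ℝ) • (Λ u + H κ0 κ) := by rw [h2, smul_smul]; simp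
      simp only [Submodule.coe_add, Submodule.coe_smul, map_add, map_smul]
      rw [hl, hsy κ0, hsy κ, hl, hl, hsy κ κ0, hw, ← sub_eq_zero, ← hu]
      module
    rw [this]
    have h3 := ((hasDerivAt_id (0 : ℝ)).smul_const w).fun_add
      ((hasDerivAt_pow 2 (0 : ℝ)).smul_const (H κ κ))
    simpa using h3) hV
  obtain ⟨ε, hε, hε0⟩ := ((key.curry_nhds.filter_mono (nhdsWithin_le_nhds (s := {0}ᶜ))).and
    self_mem_nhdsWithin).exists
  refine ⟨ε, hε0, ?_⟩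
  filter_upwards [hε] with θ hθ
  obtain ⟨⟨κ, u⟩, h1, h2⟩ := hθ
  exact ⟨κ, u, h1, h2⟩

theorem persist {D m : ℕ} (hD : 1 ≤ D) {x0 : Io σ D m → ℝ} {y0 : σ × J 1 → ℝ} (hy0 : y0 ≠ 0)
    (h0 : aeval (mkV y0) (mkP D m (rl x0)) = 0) {κ0 u0 : σ × J 1 → ℝ}
    (hκ : LamR (m + D) (mkV y0) (mkP D m (rl x0)) κ0 = 0)
    (hu : (2 : ℝ) • LamR (m + D) (mkV y0) (mkP D m (rl x0)) u0 +
      HsR (m + D) (mkV y0) (mkP D m (rl x0)) κ0 κ0 = 0)
    (hs : ∀ w, ∃ κ u, LamR (m + D) (mkV y0) (mkP D m (rl x0)) κ = 0 ∧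
      LamR (m + D) (mkV y0) (mkP D m (rl x0)) u +
        HsR (m + D) (mkV y0) (mkP D m (rl x0)) κ0 κ = w) :
    UU σ D m ∈ 𝓝 x0 := by
  set Φ := mkP D m (rl x0) with hΦ
  set L := mkV y0 with hL
  set Λ := LamR (m + D) L Φ with hΛ
  let Z := (ℝ × (Io σ D m → ℝ)) × (LinearMap.ker Λ × (σ × J 1 → ℝ))
  have cκ : ContDiff ℝ 1 fun z : Z => (z.2.1 : σ × J 1 → ℝ) :=
    (LinearMap.ker Λ).subtypeL.contDiff.comp (contDiff_fst.comp contDiff_snd)
  have cu : ContDiff ℝ 1 fun z : Z => z.2.2 := contDiff_snd.comp contDiff_snd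
  have ce : ContDiff ℝ 1 fun z : Z => z.1.1 := contDiff_fst.comp contDiff_fst
  have cθ : ContDiff ℝ 1 fun z : Z => z.1.2 := contDiff_snd.comp contDiff_fst
  let y' : Z → σ × J 1 → ℝ := fun z => y0 + z.1.1 • (z.2.1 : σ × J 1 → ℝ) + z.1.1 ^ 2 • z.2.2
  have cy : ContDiff ℝ 1 y' := (contDiff_const.add (ce.smul cκ)).add ((ce.pow 2).smul cu)
  obtain ⟨r, hr, e⟩ := taylor (Z := Z) L (e := fun z => cR z.1.1) (κ := fun z => mkV z.2.1)
    (u := fun z => mkV z.2.2) (Sm_cR ce) (Sm_mkV cκ) (Sm_mkV cu) Φ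
  let G : Z → R := fun z => 2 * Lam L (mkV z.2.2) Φ + Hs L (mkV z.2.1) (mkV z.2.1) Φ +
    cR z.1.1 * r z + 2 * aeval (mkV (y' z)) (mkP D m (rl z.1.2))
  have hG : G ∈ Sm Z :=
    add_mem (add_mem (add_mem (mul_mem (Sm_const 2) (Sm_Lam L (Sm_mkV cu) Φ))
      (Sm_Hs L (Sm_mkV cκ) (Sm_mkV cκ) Φ)) (mul_mem (Sm_cR ce) hr))
      (mul_mem (Sm_const 2) (Sm_aeval_mkP (Sm_mkV cy) cθ))
  let F : Z → J (m + D) → ℝ := fun z k => (co k.1 (G z)).re
  have hF : ContDiff ℝ 1 F := contDiff_pi.2 fun k =>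
    Complex.reCLM.contDiff.comp (Sm_contDiff hG (co k.1))
  have hF0 : ∀ (κ : LinearMap.ker Λ) (u : σ × J 1 → ℝ),
      F ((0, 0), (κ, u)) = (2 : ℝ) • Λ u + HsR (m + D) L Φ κ κ := by
    intro κ u
    funext k
    have h1 : rl (0 : Io σ D m → ℝ) = 0 := by funext i; simp [rl]
    have h2 : cR 0 = 0 := by simp [cR]
    simp [F, G, h1, h2, two_mul, HsR, hΛ, LamR]
  obtain ⟨ε, hε0, hε⟩ := persist_abs Λ (HsR (m + D) L Φ) (HsR_lin _ _ _) (HsR_symm _ _ _) F hF hF0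
    hy0 hκ hu hs
  have ht : Tendsto (fun x : Io σ D m → ℝ => (ε ^ 2)⁻¹ • (x - x0)) (𝓝 x0) (𝓝 0) := by
    have : Continuous fun x : Io σ D m → ℝ => (ε ^ 2)⁻¹ • (x - x0) := by fun_prop
    simpa using this.tendsto x0
  filter_upwards [ht.eventually hε] with x hx
  obtain ⟨κ, u, h1, h2⟩ := hx
  set z : Z := ((ε, (ε ^ 2)⁻¹ • (x - x0)), (κ, u)) with hz
  refine ⟨y' z, h1, ?_⟩
  have hx' : mkP D m (rl x) = Φ + ((ε ^ 2 : ℝ) : ℂ) • mkP D m (rl z.1.2) := by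
    rw [hΦ, ← map_smul, ← map_add]
    congr 1
    funext i
    simp only [rl, hz, Pi.add_apply, Pi.smul_apply, Pi.sub_apply, smul_eq_mul]
    have : (ε : ℂ) ≠ 0 := by exact_mod_cast hε0
    push_cast
    field_simp
    ring
  have hL' : (fun j => L j + cR z.1.1 * mkV z.2.1 j + cR z.1.1 ^ 2 * mkV z.2.2 j) =
      mkV (y' z) := by
    funext j
    simp [y', mkV_add, mkV_smul, hL, cR]
  have e1 := e z
  rw [hL', h0, Lam_eq_zero (Pm_mkP _) hD (map_ρ_mkP x0) z.2.1.2] at e1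
  have e2 : 2 * aeval (mkV (y' z)) (mkP D m (rl x)) = ((ε ^ 2 : ℝ) : ℂ) • G z := by
    have : cR (ε ^ 2) = cR z.1.1 ^ 2 := by simp [cR, hz]
    rw [hx', ← Ev_apply, map_add, map_smul, Ev_apply, Ev_apply, ← cR_mul, ← cR_mul, this]
    simp only [G]
    linear_combination e1
  refine eq_zero_of_re_co (m := m + D) (by simpa using (Pm_mkP (rl x)).aeval (mkV_mem _))
    (ρ_aeval_real (ρ_mkV _) (map_ρ_mkP x)) fun k => ?_
  have e3 := congrArg (fun f => (co k.1 f).re) e2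
  have e4 : (co k.1 (G z)).re = 0 := congrFun h2 k
  simp only [two_mul, map_add, map_smul, smul_eq_mul, Complex.add_re, Complex.re_ofReal_mul,
    e4] at e3
  linarith

end Pool.Agent.Lib.MP_73c785_ag.H74
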