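import Pool.Agent.Lib.MP_73c785_ag.H74D

set_option autoImplicit false

open MvPolynomial Module
open LaurentPolynomial (T)
open scoped ComplexConjugate

noncomputable section

namespace Pool.Agent.Lib.MP_73c785_ag.H74

/-- Laurent polynomials with coefficients in `K` -/
def SK (K : Subfield ℂ) : Subring R where
  carrier := {f | ∀ n, cf n f ∈ K}
  mul_mem' := fun {f g} hf hg n => by
    obtain ⟨a, b, h⟩ := finite_supp g
    rw [B_repr (a := a) (b := b) h, Finset.mul_sum, map_sum]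
    refine sum_mem fun k _ => ?_
    rw [mul_smul_comm, map_smul, cf_mul_T]
    exact mul_mem (hg _) (hf _)
  one_mem' n := by
    rw [cf_one]
    split_ifs
    · exact one_mem _
    · exact zero_mem _
  add_mem' hf hg n := by rw [map_add]; exact add_mem (hf n) (hg n)
  zero_mem' n := by rw [map_zero]; exact zero_mem _
  neg_mem' hf n := by rw [map_neg]; exact neg_mem (hf n)

variable {K : Subfield ℂ}

theorem SK_smul {c : ℂ} (hc : c ∈ K) {f : R} (hf : f ∈ SK K) : c • f ∈ SK K := fun n => by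
  rw [map_smul]; exact mul_mem hc (hf n)

theorem SK_T (n : ℤ) : T n ∈ SK K := fun k => by
  rw [cf_T]
  split_ifs
  · exact one_mem _
  · exact zero_mem _

theorem sg_mem (n : ℤ) : sg n ∈ K := zpow_mem (neg_mem (one_mem _)) _

theorem SK_E (hI : Complex.I ∈ K) (k : ℤ) : E k ∈ SK K := by
  unfold E
  split_ifs
  · exact one_mem _
  · rw [ρ_T]; exact add_mem (SK_T _) (SK_smul (sg_mem _) (SK_T _))
  · rw [ρ_smul, ρ_T, Complex.conj_I]
    exact add_mem (SK_smul hI (SK_T _)) (SK_smul (neg_mem hI) (SK_smul (sg_mem _) (SK_T _)))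

theorem SK_mono {K K' : Subfield ℂ} (h : K ≤ K') {f : R} (hf : f ∈ SK K) : f ∈ SK K' :=
  fun n => h (hf n)

theorem SK_of_B {m : ℕ} {f : R} (hf : f ∈ B (-m) m) (h : ∀ k : J m, cf k.1 f ∈ K) :
    f ∈ SK K := fun n => by
  by_cases hn : n ∈ Finset.Icc (-(m : ℤ)) m
  · exact h ⟨n, hn⟩
  · rw [hf n (by rw [Finset.mem_Icc] at hn; omega)]; exact zero_mem _

theorem eq_zero_of_cf {m : ℕ} {f : R} (hf : f ∈ B (-m) m) (h : ∀ k : J m, cf k.1 f = 0) :
    f = 0 := ext_cf fun n => by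
  by_cases hn : n ∈ Finset.Icc (-(m : ℤ)) m
  · exact h ⟨n, hn⟩
  · exact hf n (by rw [Finset.mem_Icc] at hn; omega)

/-- functionals defined over `K` -/
def RatF (K : Subfield ℂ) (ψ : R →ₗ[ℂ] ℂ) : Prop := ∀ n, ψ (T n) ∈ K

theorem RatF.apply {ψ : R →ₗ[ℂ] ℂ} (h : RatF K ψ) {f : R} (hf : f ∈ SK K) : ψ f ∈ K := by
  obtain ⟨a, b, hab⟩ := finite_supp f
  rw [B_repr (a := a) (b := b) hab, map_sum]
  exact sum_mem fun k _ => by rw [map_smul]; exact mul_mem (hf k) (h k)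

theorem RatF_cf (n : ℤ) : RatF K (cf n) := fun k => SK_T k n

theorem RatF.mono {K K' : Subfield ℂ} {ψ : R →ₗ[ℂ] ℂ} (h : RatF K ψ) (hK : K ≤ K') :
    RatF K' ψ := fun n => hK (h n)

theorem co_mem (hI : Complex.I ∈ K) {f : R} (hf : f ∈ SK K) (k : ℤ) : co k f ∈ K := by
  have h2 : (2 : ℂ) ∈ K := by simp
  unfold co
  split_ifs
  · exact hf 0
  · exact mul_mem (div_mem (one_mem _) h2) (add_mem (hf _) (mul_mem (sg_mem _) (hf _)))
  · exact mul_mem (div_mem (neg_mem hI) h2) (sub_mem (hf _) (mul_mem (sg_mem _) (hf _)))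

theorem co_ρ (k : ℤ) (f : R) : co k (ρ f) = conj (co k f) := by
  have h1 := co_real (ρ_add_ρ f) k
  have h2 := co_real (ρ_add_ρ (Complex.I • f)) k
  rw [← Complex.conj_eq_iff_re] at h1 h2
  simp only [ρ_smul, map_add, map_smul, smul_eq_mul, map_mul, Complex.conj_I, map_neg] at h1 h2
  linear_combination (-1 / 2 : ℂ) * h1 - (Complex.I / 2) * h2 -
    ((co k f - co k (ρ f) + conj (co k f) - conj (co k (ρ f))) / 2) * Complex.I_mul_I

variable {σ : Type} [Fintype σ] [DecidableEq σ]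

omit [Fintype σ] [DecidableEq σ] in
theorem SK_aeval {L : σ → R} (hL : ∀ j, L j ∈ SK K) {Φ : MvPolynomial σ R}
    (hΦ : ∀ α, coeff α Φ ∈ SK K) : aeval L Φ ∈ SK K :=
  eval₂_mem (f := RingHom.id R) (fun α _ => hΦ α) hL

omit [Fintype σ] [DecidableEq σ] in
theorem SK_pderiv {Φ : MvPolynomial σ R} (hΦ : ∀ α, coeff α Φ ∈ SK K) (j : σ) :
    ∀ α, coeff α (pderiv j Φ) ∈ SK K := fun α => by
  rw [coeff_pderiv]
  exact mul_mem (hΦ _) (add_mem (natCast_mem _ _) (one_mem _))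

theorem SK_bP (hI : Complex.I ∈ K) {D m : ℕ} (i : Io σ D m) : ∀ α, coeff α (bP i) ∈ SK K := by
  intro α
  rw [bP, coeff_monomial]
  split_ifs
  · exact SK_E hI _
  · exact zero_mem _

theorem Ret.comm {π : ℂ →+ ℂ} (h : Ret K π) {D m : ℕ} (Θ : MvPolynomial σ R →ₗ[ℂ] R)
    (hΘ : ∀ i : Io σ D m, Θ (bP i) ∈ SK K) {ψ : R →ₗ[ℂ] ℂ} (hψ : RatF K ψ) (x : Io σ D m → ℂ) :
    ψ (Θ (mkP D m fun i => π (x i))) = π (ψ (Θ (mkP D m x))) :=
  h.lin (ψ ∘ₗ Θ ∘ₗ mkP D m) (fun i => by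
    simp only [LinearMap.comp_apply, mkP_single]; exact hψ.apply (hΘ i)) x

theorem SK_Ev (hI : Complex.I ∈ K) {D m : ℕ} {L : σ → R} (hL : ∀ j, L j ∈ SK K) (i : Io σ D m) :
    Ev L (bP i) ∈ SK K := SK_aeval hL (SK_bP hI i)

theorem SK_Lam (hI : Complex.I ∈ K) {D m : ℕ} {L δ : σ → R} (hL : ∀ j, L j ∈ SK K)
    (hδ : ∀ j, δ j ∈ SK K) (i : Io σ D m) : Lam L δ (bP i) ∈ SK K := by
  rw [Lam_eq]
  exact sum_mem fun j _ => mul_mem (hδ j) (SK_aeval hL (SK_pderiv (SK_bP hI i) j))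

theorem SK_Hs (hI : Complex.I ∈ K) {D m : ℕ} {L δ : σ → R} (hL : ∀ j, L j ∈ SK K)
    (hδ : ∀ j, δ j ∈ SK K) (i : Io σ D m) : Hs L δ δ (bP i) ∈ SK K := by
  rw [Hs_eq]
  exact sum_mem fun j _ => sum_mem fun k _ => mul_mem (mul_mem (hδ j) (hδ k))
    (SK_aeval hL (SK_pderiv (SK_pderiv (SK_bP hI i) k) j))

omit [Fintype σ] in
theorem single_mem {S : Type} [SetLike S R] [ZeroMemClass S R] {s : S} {a : R} (ha : a ∈ s)
    (j l : σ) : (Pi.single j a : σ → R) l ∈ s := by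
  rw [Pi.single_apply]
  split_ifs
  · exact ha
  · exact zero_mem _

theorem Lam_single (L : σ → R) (j : σ) (a : R) (Φ : MvPolynomial σ R) :
    Lam L (Pi.single j a) Φ = a * aeval L (pderiv j Φ) := by
  simp [Lam_eq, Pi.single_apply]

/-- coefficients of the value at `L` -/
def EvC (M D m : ℕ) (L : σ → R) : (Io σ D m → ℂ) →ₗ[ℂ] (J M → ℂ) :=
  LinearMap.pi fun k => cf k.1 ∘ₗ Ev L ∘ₗ mkP D m

theorem EvC_apply (M D m : ℕ) (L : σ → R) (x : Io σ D m → ℂ) (k : J M) :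
    EvC M D m L x k = cf k.1 (Ev L (mkP D m x)) := rfl

theorem EvC_dim {M D m : ℕ} {L : σ → R}
    (h : ∀ k : J M, ∃ Θ, Pm D m Θ ∧ aeval L Θ = T k.1) :
    finrank ℂ (LinearMap.ker (EvC M D m L)) + (2 * M + 1) ≤ Fintype.card (Io σ D m) := by
  have := RK ⊤ (EvC M D m L) ⊥ fun c hc => by
    funext k
    obtain ⟨Θ, h1, h2⟩ := h k
    obtain ⟨x, rfl⟩ := exists_mkP h1
    have := hc x trivial
    simpa only [EvC_apply, Ev_apply, h2, cf_T, J_ext, mul_ite, mul_one, mul_zero,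
      Finset.sum_ite_eq, Finset.mem_univ, if_true, Pi.zero_apply] using this
  rwa [top_inf_eq, card_J, finrank_top, finrank_fintype_fun_eq_card, finrank_bot, add_zero] at this

theorem EvC_rat {π : ℂ →+ ℂ} (h : Ret K π) (hI : Complex.I ∈ K) {M D m : ℕ} {L : σ → R}
    (hL : ∀ j, L j ∈ SK K) {x : Io σ D m → ℂ} (hx : x ∈ LinearMap.ker (EvC M D m L)) :
    (fun i => π (x i)) ∈ LinearMap.ker (EvC M D m L) := by
  funext k
  rw [EvC_apply, h.comm _ (SK_Ev hI hL) (RatF_cf _), ← EvC_apply, LinearMap.mem_ker.1 hx]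
  simp

theorem case0 {D m : ℕ} {L : σ → R} {i0 : σ} (h0 : L i0 ≠ 0) (h : ∀ j, ∃ c : ℂ, L j = c • L i0)
    (x : Io σ D m → ℂ) (hx : aeval L (mkP D m x) = 0) :
    ∃ S : Finset ℂ, S.card + (2 * m + 1) ≤ Fintype.card (Io σ D m) + Fintype.card σ ∧
      ∀ i, x i ∈ cl S := by
  classical
  choose v hv using h
  have hv0 : v i0 = 1 := by
    have : (v i0 - 1) • L i0 = 0 := by rw [sub_smul, ← hv, one_smul, sub_self]
    exact sub_eq_zero.1 ((smul_eq_zero.1 this).resolve_right h0)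
  let L' : σ → R := fun j => v j • (1 : R)
  have hL : L = L i0 • L' := funext fun j => by
    rw [Pi.smul_apply, smul_eq_mul, mul_smul_comm, mul_one, ← hv]
  have hx' : aeval L' (mkP D m x) = 0 := by
    rw [hL, aeval_smul_hom (Pm_mkP x).1] at hx
    exact (mul_eq_zero.1 hx).resolve_left (pow_ne_zero _ h0)
  have hd := EvC_dim (M := m) (D := D) (m := m) (L := L') fun k =>
    ⟨monomial (Finsupp.single i0 D) (T k.1),
      ⟨isHomogeneous_monomial _ (by simp), FB.monomial_mem (T_mem (J_le k).1 (J_le k).2) _⟩,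
      by simp [aeval_monomial, L', hv0]⟩
  have hx2 : x ∈ LinearMap.ker (EvC m D m L') := by
    funext k; rw [EvC_apply, Ev_apply, hx']; simp
  obtain ⟨S, -, h2, h3⟩ := LL (LinearMap.ker (EvC m D m L')) x (Finset.univ.image v)
    fun π hπ => sub_mem (EvC_rat hπ (I_mem_cl _)
      (fun j => SK_smul (subset_cl _ (by simp)) (one_mem _)) hx2) hx2
  refine ⟨S, ?_, h3⟩
  have : (Finset.univ.image v).card ≤ Fintype.card σ := Finset.card_image_le
  omega

variable {A : Type} [Fintype A]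

/-- first order conditions -/
def GC (D m : ℕ) (L : σ → R) (ψ : A → R →ₗ[ℂ] ℂ) : (Io σ D m → ℂ) →ₗ[ℂ] (A × σ × J 1 → ℂ) :=
  LinearMap.pi fun p => ψ p.1 ∘ₗ Lam L (Pi.single p.2.1 (T p.2.2.1)) ∘ₗ mkP D m

omit [Fintype A] in
theorem GC_apply (D m : ℕ) (L : σ → R) (ψ : A → R →ₗ[ℂ] ℂ) (x : Io σ D m → ℂ)
    (p : A × σ × J 1) :
    GC D m L ψ x p = ψ p.1 (Lam L (Pi.single p.2.1 (T p.2.2.1)) (mkP D m x)) := rfl

/-- the space cut out by all conditions -/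
def W1 (D m : ℕ) (L : σ → R) (ψ : A → R →ₗ[ℂ] ℂ) : Submodule ℂ (Io σ D m → ℂ) :=
  LinearMap.ker (EvC (m + D) D m L) ⊓ LinearMap.ker (GC D m L ψ)

/-- the vector with given coefficients -/
def dl (c : A × σ × J 1 → ℂ) (a : A) : σ → R := fun j => ∑ k : J 1, c (a, j, k) • T k.1

omit [Fintype σ] [DecidableEq σ] [Fintype A] in
theorem dl_mem (c : A × σ × J 1 → ℂ) (a : A) (j : σ) : dl c a j ∈ B (-1) 1 :=
  Submodule.sum_mem _ fun k _ => Submodule.smul_mem _ _ (T_mem (J_le k).1 (J_le k).2)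

omit [Fintype σ] [DecidableEq σ] [Fintype A] in
theorem cf_dl (c : A × σ × J 1 → ℂ) (a : A) (j : σ) (k : J 1) :
    cf k.1 (dl c a j) = c (a, j, k) := by
  simp only [dl, map_sum, map_smul, cf_T, J_ext, smul_eq_mul, mul_ite, mul_one, mul_zero,
    Finset.sum_ite_eq', Finset.mem_univ, if_true]

theorem W1_dim {D m : ℕ} (hm : 1 ≤ m) {L : σ → R} {i0 j0 : σ} (hc : Cop (L i0) (L j0))
    (ψ : A → R →ₗ[ℂ] ℂ) (Z : Submodule ℂ (A × σ × J 1 → ℂ))
    (hZ : ∀ c, (∀ Θ, Pm D m Θ → aeval L Θ = 0 → ∑ a, ψ a (Lam L (dl c a) Θ) = 0) → c ∈ Z) :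
    finrank ℂ (W1 D m L ψ) + (2 * (m + D) + 1) + Fintype.card A * (Fintype.card σ * 3) ≤
      Fintype.card (Io σ D m) + finrank ℂ Z := by
  have h1 := EvC_dim (M := m + D) (D := D) (m := m) (L := L) fun k =>
    SP hc hm D _ (T_mem (by simpa using (J_le k).1) (by simpa using (J_le k).2))
  have h2 := RK (LinearMap.ker (EvC (m + D) D m L)) (GC D m L ψ) Z fun c h => hZ c fun Θ hΘ e => by
    obtain ⟨x, rfl⟩ := exists_mkP hΘ
    have := h x (by funext k; rw [EvC_apply, Ev_apply, e]; simp)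
    rw [← this, Fintype.sum_prod_type]
    refine Finset.sum_congr rfl fun a _ => ?_
    rw [Fintype.sum_prod_type, Lam_eq, map_sum]
    refine Finset.sum_congr rfl fun j _ => ?_
    rw [dl, Finset.sum_mul, map_sum]
    refine Finset.sum_congr rfl fun k _ => ?_
    rw [GC_apply, Lam_single, smul_mul_assoc, map_smul, smul_eq_mul]
  rw [Fintype.card_prod, Fintype.card_prod, card_J, show 2 * 1 + 1 = 3 from rfl] at h2
  unfold W1
  omega

omit [Fintype A] in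
theorem W1_rat {π : ℂ →+ ℂ} (h : Ret K π) (hI : Complex.I ∈ K) {D m : ℕ} {L : σ → R}
    (hL : ∀ j, L j ∈ SK K) {ψ : A → R →ₗ[ℂ] ℂ} (hψ : ∀ a, RatF K (ψ a)) {x : Io σ D m → ℂ}
    (hx : x ∈ W1 D m L ψ) : (fun i => π (x i)) ∈ W1 D m L ψ := by
  refine ⟨EvC_rat h hI hL hx.1, ?_⟩
  funext p
  rw [GC_apply, h.comm _ (SK_Lam hI hL (single_mem (SK_T _) _)) (hψ _), ← GC_apply,
    LinearMap.mem_ker.1 hx.2]
  simp

omit [Fintype A] in
theorem mem_W1 {D m : ℕ} {L : σ → R} {ψ : A → R →ₗ[ℂ] ℂ} {x : Io σ D m → ℂ}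
    (h1 : aeval L (mkP D m x) = 0)
    (h2 : ∀ a δ, (∀ j, δ j ∈ B (-1) 1) → ψ a (Lam L δ (mkP D m x)) = 0) : x ∈ W1 D m L ψ := by
  constructor
  · funext k; rw [EvC_apply, Ev_apply, h1]; simp
  · funext p
    exact h2 _ _ (single_mem (T_mem (J_le p.2.2).1 (J_le p.2.2).2) _)

/-- the coefficients of `L` -/
def SL (L : σ → R) : Finset ℂ := by
  classical exact Finset.univ.image fun p : σ × J 1 => cf p.2.1 (L p.1)

omit [DecidableEq σ] in
theorem card_SL (L : σ → R) : (SL L).card ≤ Fintype.card σ * 3 := by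
  classical
  refine Finset.card_image_le.trans ?_
  rw [Finset.card_univ, Fintype.card_prod, card_J]

omit [DecidableEq σ] in
theorem SK_SL {L : σ → R} (hL : ∀ j, L j ∈ B (-1) 1) {S : Finset ℂ} (h : SL L ⊆ S) (j : σ) :
    L j ∈ SK (cl S) :=
  SK_of_B (m := 1) (hL j) fun k => subset_cl _ (h (by
    simp only [SL, Finset.mem_image, Finset.mem_univ, true_and]; exact ⟨(j, k), rfl⟩))

/-- relations between the functionals -/
def Rel (M : ℤ) (ψ : A → R →ₗ[ℂ] ℂ) : Submodule ℂ (A → R) where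
  carrier := {r | (∀ a, r a ∈ B (-1) 1) ∧ ∀ h ∈ B (-(M - 1)) (M - 1), ∑ a, ψ a (r a * h) = 0}
  add_mem' hr hs := ⟨fun a => add_mem (hr.1 a) (hs.1 a), fun h hh => by
    simp only [Pi.add_apply, add_mul, map_add, Finset.sum_add_distrib, hr.2 h hh, hs.2 h hh,
      add_zero]⟩
  zero_mem' := ⟨fun a => zero_mem _, fun h _ => by simp⟩
  smul_mem' c r hr := ⟨fun a => Submodule.smul_mem _ _ (hr.1 a), fun h hh => by
    simp only [Pi.smul_apply, smul_mul_assoc, map_smul, ← Finset.smul_sum, hr.2 h hh, smul_zero]⟩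

theorem real_line {M : ℤ} {ψ : A → R →ₗ[ℂ] ℂ} (hψ : ∀ a f, ψ a (ρ f) = conj (ψ a f))
    (h : ∀ r0 ∈ Rel M ψ, (∀ a, ρ (r0 a) = r0 a) → r0 ≠ 0 →
      ∀ r ∈ Rel M ψ, (∀ a, ρ (r a) = r a) → ∃ c : ℂ, r = c • r0) :
    ∃ r0 : A → R, ∀ r ∈ Rel M ψ, ∃ c : ℂ, r = c • r0 := by
  have hρ : ∀ r ∈ Rel M ψ, (fun a => ρ (r a)) ∈ Rel M ψ := fun r hr =>
    ⟨fun a => ρ_B' (hr.1 a), fun g hg => by
      have := congrArg conj (hr.2 _ (ρ_B' hg))
      simpa only [map_sum, ← hψ, map_mul, ρρ, map_zero] using this⟩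
  have key : ∀ r0 : A → R, (∀ r ∈ Rel M ψ, (∀ a, ρ (r a) = r a) → ∃ c : ℂ, r = c • r0) →
      ∀ r ∈ Rel M ψ, ∃ c : ℂ, r = c • r0 := by
    intro r0 h0 r hr
    obtain ⟨c1, e1⟩ := h0 _ (add_mem hr (hρ r hr)) fun a => ρ_add_ρ _
    have hr' := (Rel M ψ).smul_mem Complex.I hr
    obtain ⟨c2, e2⟩ := h0 _ (add_mem hr' (hρ _ hr')) fun a => ρ_add_ρ _
    refine ⟨1 / 2 * c1 + -Complex.I / 2 * c2, funext fun a => ?_⟩
    have e3 := congrFun e1 a
    have e4 := congrFun e2 a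
    simp only [Pi.add_apply, Pi.smul_apply] at e3 e4 ⊢
    rw [eq_re_im (r a), e3, e4, smul_smul, smul_smul, add_smul]
  by_cases h0 : ∃ r0 ∈ Rel M ψ, (∀ a, ρ (r0 a) = r0 a) ∧ r0 ≠ 0
  · obtain ⟨r0, h1, h2, h3⟩ := h0
    exact ⟨r0, key r0 (h r0 h1 h2 h3)⟩
  · push Not at h0
    exact ⟨0, key 0 fun r hr hr' => ⟨0, by rw [h0 r hr hr', smul_zero]⟩⟩

theorem case12 {D m : ℕ} (hD : 1 ≤ D) (hm : 1 ≤ m) {L : σ → R} (hL : ∀ j, L j ∈ B (-1) 1)
    {i0 j0 : σ} (hc : Cop (L i0) (L j0)) (ψ : A → R →ₗ[ℂ] ℂ)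
    (hrel : ∃ r0 : A → R, ∀ r ∈ Rel (m + D) ψ, ∃ c : ℂ, r = c • r0)
    (S : Finset ℂ) (hS : ∀ a, RatF (cl S) (ψ a)) {x : Io σ D m → ℂ} (hx : x ∈ W1 D m L ψ) :
    ∃ S' : Finset ℂ, S'.card + (2 * (m + D) + 1) + Fintype.card A * (Fintype.card σ * 3) ≤
      S.card + Fintype.card σ * 3 + Fintype.card (Io σ D m) +
        (Fintype.card σ + Fintype.card A * 9) ∧ ∀ i, x i ∈ cl S' := by
  classical
  obtain ⟨r0, hr0⟩ := hrel
  obtain ⟨D, rfl⟩ : ∃ D', D = 1 + D' := ⟨D - 1, by omega⟩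
  let U : (J 1 → ℂ) →ₗ[ℂ] (σ → ℂ) :=
    LinearMap.pi fun j => ∑ l : J 1, cf l.1 (L j) • LinearMap.proj l
  have hU : ∀ w j, U w j = ∑ l : J 1, cf l.1 (L j) * w l := fun w j => by
    simp [U, LinearMap.sum_apply]
  let ζ : (σ → ℂ) × (A × J 1 → J 1 → ℂ) →ₗ[ℂ] (A × σ × J 1 → ℂ) :=
    LinearMap.pi fun p => cf p.2.2.1 (r0 p.1) • (LinearMap.proj p.2.1 ∘ₗ LinearMap.fst ℂ _ _) +
      LinearMap.proj p.2.1 ∘ₗ U ∘ₗ LinearMap.proj (p.1, p.2.2) ∘ₗ LinearMap.snd ℂ _ _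
  have hζ : ∀ v w p, ζ (v, w) p = cf p.2.2.1 (r0 p.1) * v p.2.1 + U (w (p.1, p.2.2)) p.2.1 :=
    fun v w p => rfl
  have hd : finrank ℂ (LinearMap.range ζ) ≤ Fintype.card σ + Fintype.card A * 9 := by
    refine (LinearMap.finrank_range_le ζ).trans ?_
    rw [finrank_prod, finrank_fintype_fun_eq_card, Module.finrank_pi_fintype]
    simp only [finrank_fintype_fun_eq_card, Finset.sum_const, Finset.card_univ, Fintype.card_prod,
      card_J, smul_eq_mul]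
    omega
  have h1 := W1_dim (D := 1 + D) hm hc ψ (LinearMap.range ζ) fun c h => by
    have key : ∀ lam : σ → ℂ, (∀ v ∈ LinearMap.range U, ∑ j, lam j * v j = 0) →
        ∃ c' : ℂ, ∀ a (k : J 1), ∑ j, lam j * c (a, j, k) = c' * cf k.1 (r0 a) := by
      intro lam hlam
      have h0 : ∑ j, (lam j • (1 : R)) * L j = 0 := by
        refine eq_zero_of_cf (m := 1) (Submodule.sum_mem _ fun j _ => by
          rw [smul_mul_assoc, one_mul]; exact Submodule.smul_mem _ _ (hL j)) fun k => ?_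
        have := hlam _ ⟨Pi.single k 1, rfl⟩
        simpa [hU, Pi.single_apply] using this
      obtain ⟨c', hc'⟩ := hr0 (fun a => ∑ j, (lam j • (1 : R)) * dl c a j) ⟨fun a =>
        Submodule.sum_mem _ fun j _ => by
          rw [smul_mul_assoc, one_mul]; exact Submodule.smul_mem _ _ (dl_mem c a j),
        fun g hg => by
          obtain ⟨Θ, hΘ, rfl⟩ := SP hc hm D g (B_mono (by push_cast; omega) (by push_cast; omega) hg)
          have := h (lin (fun j => lam j • (1 : R)) * Θ)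
            (by simpa using (Pm.lin (m := 0) fun j =>
              Submodule.smul_mem _ _ (one_mem_B (by simp) (by simp))).mul hΘ)
            (by rw [map_mul, aeval_lin, h0, zero_mul])
          simpa only [Lam_test h0] using this⟩
      refine ⟨c', fun a k => ?_⟩
      have := congrArg (cf k.1) (congrFun hc' a)
      simpa [cf_dl] using this
    obtain ⟨v, hv⟩ : ∃ v : σ → ℂ, ∀ lam : σ → ℂ, (∀ v ∈ LinearMap.range U, ∑ j, lam j * v j = 0) →
        ∀ a (k : J 1), ∑ j, lam j * c (a, j, k) = (∑ j, lam j * v j) * cf k.1 (r0 a) := by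
      by_cases h0 : ∃ a, ∃ k : J 1, cf k.1 (r0 a) ≠ 0
      · obtain ⟨a0, k0, h0⟩ := h0
        refine ⟨fun j => c (a0, j, k0) / cf k0.1 (r0 a0), fun lam hlam a k => ?_⟩
        obtain ⟨c', hc'⟩ := key lam hlam
        simp only [← mul_div_assoc, ← Finset.sum_div]
        rw [hc', hc', mul_div_cancel_right₀ _ h0]
      · push Not at h0
        refine ⟨0, fun lam hlam a k => ?_⟩
        obtain ⟨c', hc'⟩ := key lam hlam
        rw [hc', h0, mul_zero, mul_zero]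
    have : ∀ q : A × J 1, ∃ w, U w = fun j => c (q.1, j, q.2) - cf q.2.1 (r0 q.1) * v j := by
      intro q
      refine mem_of_forall_ann (LinearMap.range U) _ fun lam hlam => ?_
      simp only [mul_sub, Finset.sum_sub_distrib]
      rw [hv lam hlam, Finset.sum_mul, sub_eq_zero]
      exact Finset.sum_congr rfl fun j _ => by ring
    choose w hw using this
    refine ⟨(v, w), funext fun p => ?_⟩
    rw [hζ, hw]
    simp
  obtain ⟨S', -, h2, h3⟩ := LL (W1 (1 + D) m L ψ) x (S ∪ SL L) fun π hπ =>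
    sub_mem (W1_rat hπ (I_mem_cl _) (SK_SL hL Finset.subset_union_right)
      (fun a => (hS a).mono (cl_mono (by simp))) hx) hx
  refine ⟨S', ?_, h3⟩
  have h4 := Finset.card_union_le S (SL L)
  have h5 := card_SL L
  omega

end Pool.Agent.Lib.MP_73c785_ag.H74
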