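import Pool.Agent.Lib.MP_73c785_ag.H74E

set_option autoImplicit false

open MvPolynomial Module
open LaurentPolynomial (T)
open scoped ComplexConjugate

noncomputable section

namespace Pool.Agent.Lib.MP_73c785_ag.H74

theorem rec_rat {M : ℤ} (ψ : R →ₗ[ℂ] ℂ) (hψ : ∀ n, n < -M ∨ M < n → ψ (T n) = 0) {u : R}
    (hu : u ∈ B (-4) 4) (h0 : u ≠ 0) (h : ∀ g ∈ B (-(M - 4)) (M - 4), ψ (u * g) = 0) :
    ∃ S : Finset ℂ, S.card ≤ 17 ∧ RatF (cl S) ψ := by
  classical
  obtain ⟨b, hb, hb'⟩ := Int.exists_greatest_of_bdd (P := fun n => cf n u ≠ 0)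
    ⟨4, fun n hn => by by_contra e; exact hn (hu n (by omega))⟩
    (by by_contra! e; exact h0 (ext_cf fun n => by rw [e n, map_zero]))
  have hb1 : -4 ≤ b := by by_contra e; exact hb (hu b (by omega))
  have hb2 : b ≤ 4 := by by_contra e; exact hb (hu b (by omega))
  let S : Finset ℂ := (Finset.Icc (-4 : ℤ) 4).image (fun n => cf n u) ∪
    ((Finset.Icc (-M) (-M + 3 + b) ∪ Finset.Icc (M - 3 + b) M).image fun n => ψ (T n))
  refine ⟨S, ?_, ?_⟩
  · refine (Finset.card_union_le _ _).trans ?_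
    have h1 : ((Finset.Icc (-4 : ℤ) 4).image (fun n => cf n u)).card ≤ 9 :=
      Finset.card_image_le.trans (by simp)
    have h2 : ((Finset.Icc (-M) (-M + 3 + b) ∪ Finset.Icc (M - 3 + b) M).image
        fun n => ψ (T n)).card ≤ 8 := by
      refine Finset.card_image_le.trans ((Finset.card_union_le _ _).trans ?_)
      rw [Int.card_Icc, Int.card_Icc]
      omega
    omega
  have hS1 : ∀ n ∈ Finset.Icc (-4 : ℤ) 4, cf n u ∈ cl S := fun n hn =>
    subset_cl _ (Finset.mem_union_left _ (Finset.mem_image_of_mem _ hn))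
  have hS2 : ∀ n, n ∈ Finset.Icc (-M) (-M + 3 + b) ∨ n ∈ Finset.Icc (M - 3 + b) M →
      ψ (T n) ∈ cl S := fun n hn =>
    subset_cl _ (Finset.mem_union_right _ (Finset.mem_image_of_mem _ (Finset.mem_union.2 hn)))
  have key : ∀ k : ℕ, ∀ n : ℤ, n < -M + k → ψ (T n) ∈ cl S := by
    intro k
    induction k with
    | zero => exact fun n hn => by rw [hψ n (by omega)]; exact zero_mem _
    | succ k ih =>
      intro n hn
      by_cases c1 : n < -M ∨ M < n
      · rw [hψ n c1]; exact zero_mem _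
      by_cases c2 : n ∈ Finset.Icc (-M) (-M + 3 + b) ∨ n ∈ Finset.Icc (M - 3 + b) M
      · exact hS2 n c2
      simp only [Finset.mem_Icc] at c2
      have e := h (T (n - b)) (T_mem (by omega) (by omega))
      rw [B_repr hu, Finset.sum_mul, map_sum, ← Finset.add_sum_erase _ _
        (Finset.mem_Icc.2 ⟨hb1, hb2⟩)] at e
      simp only [smul_mul_assoc, ← LaurentPolynomial.T_add, map_smul, smul_eq_mul,
        add_sub_cancel] at e
      have e' : ψ (T n) = -(∑ i ∈ (Finset.Icc (-4 : ℤ) 4).erase b,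
          cf i u * ψ (T (i + (n - b)))) / cf b u := by
        field_simp
        linear_combination e
      rw [e']
      refine div_mem (neg_mem (sum_mem fun i hi => ?_)) (hS1 b (Finset.mem_Icc.2 ⟨hb1, hb2⟩))
      by_cases c3 : cf i u = 0
      · rw [c3, zero_mul]; exact zero_mem _
      · have := hb' i c3
        have := (Finset.mem_erase.1 hi).1
        exact mul_mem (hS1 i (Finset.mem_of_mem_erase hi)) (ih _ (by push_cast at hn; omega))
  exact fun n => key (n + M + 1).toNat n (by omega)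

theorem rel_one {M : ℤ} (hM : 2 ≤ M) {ψ : R →ₗ[ℂ] ℂ} (hψ : ∀ f, ψ (ρ f) = conj (ψ f))
    (h0 : ∃ f ∈ B (-M) M, ψ f ≠ 0) :
    ∃ r0 : Unit → R, ∀ r ∈ Rel M (fun _ : Unit => ψ), ∃ c : ℂ, r = c • r0 := by
  refine real_line (fun _ => hψ) fun r0 hr0 e0 hne r hr e => ?_
  have hne' : r0 () ≠ 0 := fun h => hne (funext fun _ => h)
  rcases cop_or (hr0.1 ()) (hr.1 ()) (e0 ()) (e ()) hne' with h | ⟨c, h⟩
  · obtain ⟨f, hf, hf'⟩ := h0
    exact absurd (h.kill (c := M - 1) (by omega) ψ (fun g hg => by simpa using hr0.2 g hg)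
      (fun g hg => by simpa using hr.2 g hg) (by simpa using hf)) hf'
  · exact ⟨c, funext fun _ => h⟩

/-- no annihilator of small degree -/
def NoAnn (M : ℤ) (ψ : R →ₗ[ℂ] ℂ) : Prop :=
  ∀ u ∈ B (-4) 4, (∀ g ∈ B (-(M - 4)) (M - 4), ψ (u * g) = 0) → u = 0

theorem rel_two {M : ℤ} (hM : 2 ≤ M) {ψ : Fin 2 → R →ₗ[ℂ] ℂ}
    (hψ : ∀ a f, ψ a (ρ f) = conj (ψ a f)) (hna : NoAnn M (ψ 0))
    (hind : ∀ c : ℂ, ∃ f ∈ B (-M) M, c * ψ 0 f + ψ 1 f ≠ 0) :
    ∃ r0 : Fin 2 → R, ∀ r ∈ Rel M ψ, ∃ c : ℂ, r = c • r0 := by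
  have z : ∀ r ∈ Rel M ψ, r 1 = 0 → r = 0 := fun r hr h1 => by
    have : r 0 = 0 := hna _ (B_mono (by norm_num) (by norm_num) (hr.1 0)) fun g hg => by
      simpa [h1] using hr.2 g (B_mono (by omega) (by omega) hg)
    funext a
    fin_cases a
    · exact this
    · exact h1
  refine real_line hψ fun r0 hr0 e0 hne r hr e => ?_
  have hne' : r0 1 ≠ 0 := fun h => hne (z r0 hr0 h)
  rcases cop_or (hr0.1 1) (hr.1 1) (e0 1) (e 1) hne' with h | ⟨c, h⟩
  · exfalso
    have e1 : r0 1 * r 0 - r 1 * r0 0 = 0 :=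
      hna _ (sub_mem (B_mul' (hr0.1 1) (hr.1 0) (by norm_num) (by norm_num))
        (B_mul' (hr.1 1) (hr0.1 0) (by norm_num) (by norm_num))) fun g hg => by
        have a1 := hr.2 (r0 1 * g) (B_mul' (hr0.1 1) hg (by omega) (by omega))
        have a2 := hr0.2 (r 1 * g) (B_mul' (hr.1 1) hg (by omega) (by omega))
        rw [Fin.sum_univ_two] at a1 a2
        rw [sub_mul, map_sub, mul_comm (r0 1), mul_comm (r 1), mul_assoc, mul_assoc]
        rw [mul_left_comm (r0 1)] at a2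
        linear_combination a1 - a2
    obtain ⟨c, c1, c2⟩ := h.prop hne' (hr0.1 0) (hr.1 0) (sub_eq_zero.1 e1)
    obtain ⟨f, hf, hf'⟩ := hind c
    refine hf' (h.kill (c := M - 1) (by omega) (c • ψ 0 + ψ 1) (fun g hg => ?_) (fun g hg => ?_)
      (by simpa using hf))
    · have := hr0.2 g hg
      rwa [Fin.sum_univ_two, c1, smul_mul_assoc, map_smul] at this
    · have := hr.2 g hg
      rwa [Fin.sum_univ_two, c2, smul_mul_assoc, map_smul] at this
  · exact ⟨c, sub_eq_zero.1 (z _ (sub_mem hr ((Rel M ψ).smul_mem c hr0)) (sub_eq_zero.2 h))⟩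

variable {σ : Type} [Fintype σ] [DecidableEq σ]

/-- Koszul coefficients -/
def kz (L : σ → R) (i j : σ) : σ → R := Pi.single j (L i) - Pi.single i (L j)

theorem kz_sum (L : σ → R) (i j : σ) (δ : σ → R) :
    ∑ l, kz L i j l * δ l = L i * δ j - L j * δ i := by
  simp [kz, sub_mul, Finset.sum_sub_distrib, Pi.single_apply]

theorem Pm_kz {L : σ → R} (hL : ∀ j, L j ∈ B (-1) 1) (i j : σ) : Pm 1 1 (lin (kz L i j)) :=
  Pm.lin fun _ => sub_mem (single_mem (s := B (-1) 1) (hL i) _ _)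
    (single_mem (s := B (-1) 1) (hL j) _ _)

theorem const_of_real {A : R} (hA : A ∈ B 0 1) (hr : ρ A = A) : A ∈ B 0 0 := fun n hn => by
  rcases hn with hn | hn
  · exact hA n (Or.inl hn)
  · rw [← hr]; exact ρ_B hA n (Or.inr (by omega))

omit [Fintype σ] [DecidableEq σ] in
theorem Pm.cast {D m D' m' : ℕ} {Φ : MvPolynomial σ R} (h : Pm D m Φ) (h1 : D' = D)
    (h2 : m' = m) : Pm D' m' Φ := h1 ▸ h2 ▸ h

theorem wall {D2 m2 : ℕ} (hD : 2 ≤ D2) (hm : 3 ≤ m2) (hN : m2 + D2 < Fintype.card σ) {L : σ → R}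
    (hL : ∀ j, L j ∈ B (-1) 1) (hLr : ∀ j, ρ (L j) = L j) {i0 j0 : σ} (hc : Cop (L i0) (L j0))
    (h0 : L i0 ≠ 0) (ψ : R →ₗ[ℂ] ℂ) (hna : NoAnn (m2 + D2) ψ) (S : Finset ℂ) (hS : RatF (cl S) ψ)
    {x : Io σ D2 m2 → ℂ} (hx : x ∈ W1 D2 m2 L (fun _ : Unit => ψ))
    (hiso : ∀ η : σ → R, (∀ j, η j ∈ B 0 1) → Lam L η (mkP D2 m2 x) = 0 →
      ∀ k : Fin 3, ψ (T (-(k : ℤ)) * Hs L η η (mkP D2 m2 x)) = 0) :
    ∃ S' : Finset ℂ, S'.card + (2 * (m2 + D2) + 1) + 2 ≤ S.card + Fintype.card (Io σ D2 m2) ∧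
      ∀ i, x i ∈ cl S' := by
  classical
  obtain ⟨D, hD2⟩ : ∃ D', D2 = 1 + (1 + D') := ⟨D2 - 2, by omega⟩
  obtain ⟨m, hm2⟩ : ∃ m', m2 = 1 + (1 + m') := ⟨m2 - 2, by omega⟩
  have kz0 : ∀ i j, ∑ l, kz L i j l * L l = 0 := fun i j => by rw [kz_sum]; ring
  let cL : Unit × σ × J 1 → ℂ := fun p => cf p.2.2.1 (L p.2.1)
  have h1 := W1_dim (D := D2) (m := m2) (by omega) hc (fun _ : Unit => ψ)
    (Submodule.span ℂ {cL}) fun c h => by
      have key : ∀ i j, L i * dl c () j = L j * dl c () i := fun i j => sub_eq_zero.1 <|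
        hna _ (sub_mem (B_mul' (hL i) (dl_mem c () j) (by norm_num) (by norm_num))
          (B_mul' (hL j) (dl_mem c () i) (by norm_num) (by norm_num))) fun g hg => by
          obtain ⟨Θ, hΘ, rfl⟩ := SP hc (c := 1 + m) (by omega) (1 + D) g
            (B_mono (by push_cast; omega) (by push_cast; omega) hg)
          have := h _ (((Pm_kz hL i j).mul hΘ).cast hD2 hm2) (by rw [map_mul, aeval_lin, kz0, zero_mul])
          simpa only [Lam_test (kz0 i j), kz_sum, Finset.univ_unique, Finset.sum_singleton]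
            using this
      obtain ⟨a, ha, -⟩ := hc.prop h0 (dl_mem c () i0) (dl_mem c () j0) (key i0 j0)
      refine Submodule.mem_span_singleton.2 ⟨a, funext fun p => ?_⟩
      have : dl c () p.2.1 = a • L p.2.1 := by
        apply mul_left_cancel₀ h0
        rw [key, ha, mul_smul_comm, mul_smul_comm, mul_comm]
      have e := cf_dl c () p.2.1 p.2.2
      rw [this, map_smul] at e
      exact e
  have h1' : finrank ℂ (Submodule.span ℂ {cL}) ≤ 1 := by
    simpa using finrank_span_le_card ({cL} : Set (Unit × σ × J 1 → ℂ))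
  let γ : (Io σ D2 m2 → ℂ) →ₗ[ℂ] (σ × J (m2 + D2) → ℂ) :=
    LinearMap.pi fun p => cf p.2.1 ∘ₗ Lam L (Pi.single p.1 1) ∘ₗ mkP D2 m2
  have hγ : ∀ y p, γ y p = cf p.2.1 (Lam L (Pi.single p.1 1) (mkP D2 m2 y)) := fun _ _ => rfl
  have hg : ∀ (y : Io σ D2 m2 → ℂ) j, Lam L (Pi.single j 1) (mkP D2 m2 y) ∈
      B (-((m2 + D2 : ℕ) : ℤ)) (m2 + D2 : ℕ) := fun y j =>
    B_mono (by push_cast; omega) (by push_cast; omega) (Lam_mem (Pm_mkP y) (by omega) hL
      (single_mem (s := B 0 0) (one_mem_B le_rfl le_rfl) j))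
  have γrat : ∀ (S1 : Finset ℂ), SL L ⊆ S1 → ∀ π : ℂ →+ ℂ, Ret (cl S1) π → ∀ y p,
      γ (fun i => π (y i)) p = π (γ y p) := fun S1 h π hπ y p =>
    hπ.comm _ (SK_Lam (I_mem_cl _) (SK_SL hL h) (single_mem (one_mem _) _)) (RatF_cf _) y
  have hker : LinearMap.ker γ ≤ W1 D2 m2 L (fun _ : Unit => ψ) := fun y hy => by
    have e1 : ∀ δ, Lam L δ (mkP D2 m2 y) = 0 := fun δ => by
      rw [Lam_eq]
      refine Finset.sum_eq_zero fun j _ => ?_
      have := eq_zero_of_cf (hg y j) fun k => congrFun (LinearMap.mem_ker.1 hy) (j, k)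
      rw [Lam_single, one_mul] at this
      rw [this, mul_zero]
    refine mem_W1 ?_ fun _ δ _ => by rw [e1, map_zero]
    have := euler (Pm_mkP y).1 L
    rw [e1, eq_comm, ← Nat.cast_smul_eq_nsmul ℂ, smul_eq_zero] at this
    exact this.resolve_left (by exact_mod_cast (by omega : D2 ≠ 0))
  have h2 : finrank ℂ ((W1 D2 m2 L (fun _ : Unit => ψ)).map γ) + finrank ℂ (LinearMap.ker γ) =
      finrank ℂ (W1 D2 m2 L (fun _ : Unit => ψ)) := by
    have := (γ.domRestrict (W1 D2 m2 L (fun _ : Unit => ψ))).finrank_range_add_finrank_ker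
    rwa [LinearMap.range_domRestrict, LinearMap.ker_domRestrict,
      (Submodule.comapSubtypeEquivOfLe hker).finrank_eq] at this
  obtain ⟨S1, s1, s2, s3⟩ := LL ((W1 D2 m2 L (fun _ : Unit => ψ)).map γ) (γ x) (S ∪ SL L)
    fun π hπ => ⟨_, sub_mem (W1_rat hπ (I_mem_cl _) (SK_SL hL Finset.subset_union_right)
      (fun _ => hS.mono (cl_mono (by simp))) hx) hx, by
        rw [map_sub]
        congr 1
        exact _root_.funext (γrat _ Finset.subset_union_right π hπ x)⟩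
  have s4 : SL L ⊆ S1 := Finset.subset_union_right.trans s1
  have s5 : RatF (cl S1) ψ := hS.mono (cl_mono (Finset.subset_union_left.trans s1))
  have gK : ∀ j, aeval L (pderiv j (mkP D2 m2 x)) ∈ SK (cl S1) := fun j => by
    have := SK_of_B (hg x j) fun k => s3 (j, k)
    rwa [Lam_single, one_mul] at this
  obtain ⟨e, e1, e2, e3⟩ := exists_ker_rat (cl S1) (κ := σ × Fin 2) (κ' := J (m2 + D2))
    (fun k q => cf k.1 (T (q.2 : ℕ) * aeval L (pderiv q.1 (mkP D2 m2 x))))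
    (fun k q => mul_mem (SK_T _) (gK _) _)
    (by rw [card_J, Fintype.card_prod, Fintype.card_fin]; omega)
  let η : σ → R := fun j => e (j, 0) • T 0 + e (j, 1) • T 1
  have η1 : ∀ j, η j ∈ B 0 1 := fun j => add_mem (Submodule.smul_mem _ _ (T_mem le_rfl zero_le_one))
    (Submodule.smul_mem _ _ (T_mem zero_le_one le_rfl))
  have η2 : ∀ j, η j ∈ SK (cl S1) := fun j =>
    add_mem (SK_smul (e2 _) (SK_T _)) (SK_smul (e2 _) (SK_T _))
  have η3 : Lam L η (mkP D2 m2 x) = 0 := by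
    refine eq_zero_of_cf (m := m2 + D2) (B_mono (by push_cast; omega) (by push_cast; omega)
      (Lam_mem (Pm_mkP x) (by omega) hL η1)) fun k => ?_
    rw [← e3 k, Lam_eq, map_sum, Fintype.sum_prod_type]
    refine Finset.sum_congr rfl fun j _ => ?_
    simp only [η, Fin.sum_univ_two, add_mul, smul_mul_assoc, map_add, map_smul, smul_eq_mul,
      Fin.val_zero, Fin.val_one, Nat.cast_zero, Nat.cast_one]
    ring
  obtain ⟨i1, j1, hij⟩ : ∃ i j, L i * η j - L j * η i ≠ 0 := by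
    by_contra! hh
    have η1' : ∀ j, η j ∈ B (-1) 1 := fun j => B_mono (by norm_num) le_rfl (η1 j)
    obtain ⟨a, a1, a2⟩ := hc.prop h0 (η1' i0) (η1' j0) (sub_eq_zero.1 (hh i0 j0))
    have a0 : a = 0 := by
      by_contra ha
      have b1 : L i0 ∈ B 0 0 := const_of_real
        (by simpa [a1, smul_smul, ha] using Submodule.smul_mem _ a⁻¹ (η1 i0)) (hLr _)
      have b2 : L j0 ∈ B 0 0 := const_of_real
        (by simpa [a2, smul_smul, ha] using Submodule.smul_mem _ a⁻¹ (η1 j0)) (hLr _)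
      obtain ⟨α, hα, β, hβ, h⟩ := hc (-1) le_rfl (by norm_num)
      have := add_mem (B_mul b1 hα) (B_mul b2 hβ) (-1) (by norm_num)
      rw [h, cf_T] at this
      simp at this
    refine e1 (funext fun q => ?_)
    have b3 : η q.1 = 0 := by
      have := hh i0 q.1
      rw [a1, a0, zero_smul, mul_zero, sub_zero] at this
      exact (mul_eq_zero.1 this).resolve_left h0
    obtain ⟨j, b⟩ := q
    have := congrArg (cf (b : ℕ)) b3
    fin_cases b <;> simpa [η, cf_T, cf_one] using this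
  let F3 : (Io σ D2 m2 → ℂ) →ₗ[ℂ] (Fin 3 → ℂ) :=
    LinearMap.pi fun k => ψ ∘ₗ (LinearMap.mulLeft ℂ (T (-(k : ℤ))) ∘ₗ Hs L η η) ∘ₗ mkP D2 m2
  have hF3 : ∀ y k, F3 y k = ψ (T (-(k : ℤ)) * Hs L η η (mkP D2 m2 y)) := fun _ _ => rfl
  have h3 := RK (LinearMap.ker γ) F3 ⊥ fun c h => by
    have hlam : L i1 * η j1 - L j1 * η i1 ∈ B (-1) 2 :=
      sub_mem (B_mul (hL _) (η1 _)) (B_mul (hL _) (η1 _))
    have hw : ∑ k : Fin 3, c k • T (-(k : ℤ)) ∈ B (-2) 0 :=
      Submodule.sum_mem _ fun k _ => Submodule.smul_mem _ _ (T_mem (by omega) (by omega))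
    have := hna ((∑ k : Fin 3, c k • T (-(k : ℤ))) *
        ((L i1 * η j1 - L j1 * η i1) * (L i1 * η j1 - L j1 * η i1)))
      (B_mul' hw (B_mul hlam hlam) (by norm_num) (by norm_num)) fun g hg => by
        obtain ⟨Θ, hΘ, rfl⟩ := SP hc (c := m) (by omega) D g
          (B_mono (by omega) (by omega) hg)
        obtain ⟨y, hy⟩ := exists_mkP
          (((Pm_kz hL i1 j1).mul ((Pm_kz hL i1 j1).mul hΘ)).cast hD2 hm2)
        have := h y (by funext p; rw [hγ, hy, Lam_test2 (kz0 _ _)]; simp)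
        simp only [hF3, hy, Hs_test2 (kz0 _ _), kz_sum] at this
        have e : ∀ k : Fin 3, ψ (T (-(k : ℤ)) * (2 * (L i1 * η j1 - L j1 * η i1) ^ 2 * aeval L Θ)) =
            2 * ψ (T (-(k : ℤ)) * ((L i1 * η j1 - L j1 * η i1) * (L i1 * η j1 - L j1 * η i1)) *
              aeval L Θ) := fun k => by
          rw [two_mul (ψ _), ← map_add]
          congr 1
          ring
        simp only [e] at this
        simp only [Finset.sum_mul, map_sum, smul_mul_assoc, map_smul, smul_eq_mul]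
        apply mul_left_cancel₀ (two_ne_zero (α := ℂ))
        rw [mul_zero, ← this, Finset.mul_sum]
        exact Finset.sum_congr rfl fun k _ => by ring
    have hw0 := (mul_eq_zero.1 this).resolve_right (mul_ne_zero hij hij)
    funext k
    have := congrArg (cf (-(k : ℤ))) hw0
    simpa [cf_T, Fin.val_inj] using this
  obtain ⟨S2, -, t2, t3⟩ := LL (LinearMap.ker γ ⊓ LinearMap.ker F3) x S1 fun π hπ => by
    constructor
    · funext p
      rw [map_sub, Pi.sub_apply, γrat S1 s4 π hπ, hπ.fix (s3 p), sub_self]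
      rfl
    · funext k
      have := hπ.comm (D := D2) (m := m2) (LinearMap.mulLeft ℂ (T (-(k : ℤ))) ∘ₗ Hs L η η)
        (fun i => mul_mem (SK_T _) (SK_Hs (I_mem_cl _) (SK_SL hL s4) η2 i)) s5 x
      have e0 := hiso η η1 η3 k
      rw [map_sub, Pi.sub_apply, hF3, hF3, e0]
      simp only [LinearMap.comp_apply, LinearMap.mulLeft_apply, e0, map_zero] at this
      rw [this]
      simp
  refine ⟨S2, ?_, t3⟩
  have h4 := Finset.card_union_le S (SL L)
  have h5 := card_SL L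
  rw [Fintype.card_fin, finrank_bot] at h3
  rw [Fintype.card_unit] at h1
  omega

end Pool.Agent.Lib.MP_73c785_ag.H74
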