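import Pool.Agent.Lib.MP_73c785_ag.H74F

set_option autoImplicit false

open MvPolynomial Module Filter Topology
open LaurentPolynomial (T)
open scoped ComplexConjugate

noncomputable section

namespace Pool.Agent.Lib.MP_73c785_ag.H74

/-- the functional with real coordinates `p` -/
def psi (M : ℕ) (p : J M → ℝ) : R →ₗ[ℂ] ℂ := ∑ k : J M, (p k : ℂ) • co k.1

theorem psi_apply (M : ℕ) (p : J M → ℝ) (f : R) : psi M p f = ∑ k : J M, (p k : ℂ) * co k.1 f := by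
  simp only [psi, LinearMap.sum_apply, LinearMap.smul_apply, smul_eq_mul]

theorem psi_E (M : ℕ) (p : J M → ℝ) (k : J M) : psi M p (E k.1) = p k := by
  simp only [psi_apply, co_E, J_ext, mul_ite, mul_one, mul_zero, Finset.sum_ite_eq,
    Finset.mem_univ, if_true]

theorem psi_ρ (M : ℕ) (p : J M → ℝ) (f : R) : psi M p (ρ f) = conj (psi M p f) := by
  simp only [psi_apply, co_ρ, map_sum, map_mul, Complex.conj_ofReal]

theorem psi_out (M : ℕ) (p : J M → ℝ) (n : ℤ) (h : n < -M ∨ M < n) : psi M p (T n) = 0 := by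
  rw [psi_apply]
  refine Finset.sum_eq_zero fun k _ => ?_
  have := J_le k
  rw [co_T_of_ne (by omega) (by omega), mul_zero]

theorem psi_rat (M : ℕ) (p : J M → ℝ) {S : Finset ℂ} (h : ∀ k, (p k : ℂ) ∈ S) :
    RatF (cl S) (psi M p) := fun n => by
  rw [psi_apply]
  exact sum_mem fun k _ => mul_mem (subset_cl _ (h k)) (co_mem (I_mem_cl _) (SK_T _) _)

theorem psi_real (M : ℕ) (p : J M → ℝ) {f : R} (hf : ρ f = f) :
    psi M p f = ((∑ k : J M, p k * (co k.1 f).re : ℝ) : ℂ) := by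
  simp only [psi_apply, Complex.ofReal_sum, Complex.ofReal_mul, co_real hf]

variable {σ : Type} [Fintype σ] [DecidableEq σ]

omit [Fintype σ] [DecidableEq σ] in
theorem vec_re_im (δ : σ → R) : δ = ((1 / 2 : ℂ) • (1 : R)) • (fun j => δ j + ρ (δ j)) +
    ((-Complex.I / 2) • (1 : R)) • fun j => Complex.I • δ j + ρ (Complex.I • δ j) := by
  funext j
  simp only [Pi.add_apply, Pi.smul_apply, smul_eq_mul, smul_mul_assoc, one_mul]
  exact eq_re_im _

omit [DecidableEq σ] in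
theorem psi_Lam {M : ℕ} {p : J M → ℝ} {L : σ → R} {Φ : MvPolynomial σ R} (hL : ∀ j, ρ (L j) = L j)
    (hΦ : map ρ Φ = Φ) (h : ∀ y, ∑ k, p k * LamR M L Φ y k = 0) (δ : σ → R)
    (hδ : ∀ j, δ j ∈ B (-1) 1) : psi M p (Lam L δ Φ) = 0 := by
  have key : ∀ δ : σ → R, (∀ j, δ j ∈ B (-1) 1) → psi M p (Lam L (fun j => δ j + ρ (δ j)) Φ) = 0 := by
    intro δ hδ
    obtain ⟨y, hy⟩ := exists_mkV (δ := fun j => δ j + ρ (δ j))
      (fun j => add_mem (hδ j) (ρ_B' (hδ j))) fun j => ρ_add_ρ _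
    rw [← hy, psi_real _ _ (by rw [ρ_Lam hL hΦ]; simp only [ρ_mkV])]
    exact_mod_cast h y
  rw [vec_re_im δ, Lam_add, Lam_smul, Lam_smul, smul_mul_assoc, smul_mul_assoc, one_mul, one_mul,
    map_add, map_smul, map_smul, key δ hδ,
    key (fun j => Complex.I • δ j) fun j => Submodule.smul_mem _ _ (hδ j)]
  simp

omit [DecidableEq σ] in
theorem iso_step {L : σ → R} {Φ : MvPolynomial σ R} (hL : ∀ j, ρ (L j) = L j) (hΦ : map ρ Φ = Φ)
    (ψ : R →ₗ[ℂ] ℂ) (Kr : (σ → R) → Prop)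
    (hK : ∀ δ, (∀ j, δ j ∈ B (-1) 1) → (∀ j, ρ (δ j) = δ j) → Lam L δ Φ = 0 → Kr δ)
    (h1 : ∀ δ δ', Kr δ → Kr δ' → 0 ≤ (ψ (Hs L δ δ Φ)).re * (ψ (Hs L δ' δ' Φ)).re)
    (h2 : ∀ δ δ', Kr δ → Kr δ' → (ψ (Hs L δ δ Φ)).re = 0 → ψ (Hs L δ δ' Φ) = 0)
    (η : σ → R) (hη : ∀ j, η j ∈ B 0 1) (h0 : Lam L η Φ = 0) (k : Fin 3) :
    ψ (T (-(k : ℤ)) * Hs L η η Φ) = 0 := by
  let d : R → σ → R := fun l j => l * η j + ρ (l * η j)
  have hd : ∀ l, d l = l • η + ρ l • fun j => ρ (η j) := fun l => funext fun j => by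
    simp [d]
  have kd : ∀ l ∈ B (-1) 0, Kr (d l) := fun l hl => by
    have : ∀ j, l * η j ∈ B (-1) 1 := fun j => B_mul hl (hη j)
    refine hK _ (fun j => add_mem (this j) (ρ_B' (this j))) (fun j => ρ_add_ρ _) ?_
    rw [hd, Lam_add, Lam_smul, Lam_smul, ← ρ_Lam hL hΦ, h0]
    simp
  have ex : ∀ l, Hs L (d l) (d l) Φ = l * l * Hs L η η Φ +
      2 * (l * ρ l) * Hs L η (fun j => ρ (η j)) Φ +
      ρ l * ρ l * Hs L (fun j => ρ (η j)) (fun j => ρ (η j)) Φ := fun l => by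
    rw [hd, Hs_add, Hs_smul, Hs_smul, Hs_symm L η, Hs_symm L (fun j => ρ (η j)), Hs_add, Hs_add,
      Hs_smul, Hs_smul, Hs_smul, Hs_smul, Hs_symm L (fun j => ρ (η j)) η]
    ring
  set i : R := Complex.I • 1 with hi
  have i1 : i * i = -1 := by rw [hi, smul_mul_smul_comm, Complex.I_mul_I]; simp
  have i2 : ρ i = -i := by rw [hi, ρ_smul]; simp
  have t1 : ρ (T (-1)) = -T 1 := by rw [ρ_T, sg_neg, sg_one]; simp
  have t2 : (T (-1) : R) * T 1 = 1 := by rw [← LaurentPolynomial.T_add]; rfl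
  have m1 : (1 : R) ∈ B (-1) 0 := one_mem_B (by norm_num) le_rfl
  have m2 : (T (-1) : R) ∈ B (-1) 0 := T_mem le_rfl (by norm_num)
  have mi : ∀ l ∈ B (-1) 0, i * l ∈ B (-1) 0 := fun l hl => by
    rw [hi, smul_mul_assoc, one_mul]; exact Submodule.smul_mem _ _ hl
  have sum0 : Hs L (d 1) (d 1) Φ + Hs L (d (i * 1)) (d (i * 1)) Φ +
      Hs L (d (T (-1))) (d (T (-1))) Φ + Hs L (d (i * T (-1))) (d (i * T (-1))) Φ = 0 := by
    simp only [ex, map_mul, map_one, i2, t1]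
    linear_combination (Hs L η η Φ * (1 + T (-1) * T (-1)) +
      Hs L (fun j => ρ (η j)) (fun j => ρ (η j)) Φ * (1 + T 1 * T 1) -
      2 * Hs L η (fun j => ρ (η j)) Φ * (1 - T (-1) * T 1)) * i1 -
      4 * Hs L η (fun j => ρ (η j)) Φ * t2
  have sum1 := congrArg (fun f => (ψ f).re) sum0
  simp only [map_add, Complex.add_re, map_zero, Complex.zero_re] at sum1
  have k1 := kd _ m1
  have k2 := kd _ (mi _ m1)
  have k3 := kd _ m2
  have k4 := kd _ (mi _ m2)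
  have z1 := four_zero (h1 _ _ k1 k2) (h1 _ _ k1 k3) (h1 _ _ k1 k4) sum1
  have z2 := four_zero (h1 _ _ k2 k1) (h1 _ _ k2 k3) (h1 _ _ k2 k4) (by linarith)
  have z3 := four_zero (h1 _ _ k3 k1) (h1 _ _ k3 k2) (h1 _ _ k3 k4) (by linarith)
  have z4 := four_zero (h1 _ _ k4 k1) (h1 _ _ k4 k2) (h1 _ _ k4 k3) (by linarith)
  have dec : ∀ l, l • η = ((1 / 2 : ℂ) • (1 : R)) • d l +
      ((-Complex.I / 2) • (1 : R)) • d (i * l) := fun l => by
    rw [vec_re_im (l • η)]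
    simp only [d, hi, Pi.smul_apply, smul_eq_mul, smul_mul_assoc, one_mul]
  have w1 : ∀ l, (ψ (Hs L (d l) (d l) Φ)).re = 0 → (ψ (Hs L (d (i * l)) (d (i * l)) Φ)).re = 0 →
      l ∈ B (-1) 0 → ∀ δ, Kr δ → ψ (Hs L (l • η) δ Φ) = 0 := fun l a b hl δ hδ => by
    rw [dec, Hs_add, Hs_smul, Hs_smul, smul_mul_assoc, smul_mul_assoc, one_mul, one_mul, map_add,
      map_smul, map_smul, h2 _ _ (kd _ hl) hδ a, h2 _ _ (kd _ (mi _ hl)) hδ b]
    simp
  have w2 : ∀ l, (∀ δ, Kr δ → ψ (Hs L (l • η) δ Φ) = 0) → ∀ l' ∈ B (-1) 0,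
      ψ (l' * l * Hs L η η Φ) = 0 := fun l h l' hl' => by
    rw [mul_assoc, ← Hs_smul, Hs_symm, ← Hs_smul, dec l', Hs_add, Hs_smul, Hs_smul, smul_mul_assoc,
      smul_mul_assoc, one_mul, one_mul, map_add, map_smul, map_smul, Hs_symm, h _ (kd _ hl'),
      Hs_symm, h _ (kd _ (mi _ hl'))]
    simp
  fin_cases k
  · simpa using w2 1 (w1 1 z1 z2 m1) 1 m1
  · simpa using w2 1 (w1 1 z1 z2 m1) _ m2
  · have := w2 _ (w1 _ z3 z4 m2) _ m2
    rw [← LaurentPolynomial.T_add] at this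
    exact this

omit [DecidableEq σ] in
theorem HsR_zero (M : ℕ) (L : σ → R) (Φ : MvPolynomial σ R) (y : σ × J 1 → ℝ) :
    HsR M L Φ 0 y = 0 := by
  have := HsR_lin M L Φ 0 0 y 1
  simpa using this

theorem persist1 {D m : ℕ} (hD : 1 ≤ D) {x0 : Io σ D m → ℝ} {y0 : σ × J 1 → ℝ} (hy0 : y0 ≠ 0)
    (h0 : aeval (mkV y0) (mkP D m (rl x0)) = 0)
    (h : ∀ p : J (m + D) → ℝ,
      (∀ y, ∑ k, p k * LamR (m + D) (mkV y0) (mkP D m (rl x0)) y k = 0) → p = 0) :
    UU σ D m ∈ 𝓝 x0 := by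
  refine persist hD hy0 h0 (κ0 := 0) (u0 := 0) (map_zero _) (by simp [HsR_zero]) fun w => ?_
  obtain ⟨u, hu⟩ := mem_of_forall_ann
    (LinearMap.range (LamR (m + D) (mkV y0) (mkP D m (rl x0)))) w fun p hp => by
      rw [h p fun y => hp _ ⟨y, rfl⟩]; simp
  exact ⟨0, u, map_zero _, by rw [hu, HsR_zero, add_zero]⟩

theorem alg {D m : ℕ} (hD : 2 ≤ D) (n1 : m + D + 11 ≤ Fintype.card σ)
    (n2 : Fintype.card σ + 1 ≤ 2 * m) (n3 : Fintype.card σ + 27 ≤ 2 * (m + D))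
    {x : Io σ D m → ℝ} (hx : x ∈ UU σ D m) (hn : UU σ D m ∉ 𝓝 x) :
    ∃ S : Finset ℂ, S.card + 2 ≤ Fintype.card (Io σ D m) ∧ ∀ i, (x i : ℂ) ∈ cl S := by
  classical
  obtain ⟨y0, hy0, h0⟩ := hx
  obtain ⟨i0, hi0⟩ := Function.ne_iff.1 (mkV_ne_zero hy0)
  by_cases hc : ¬ ∃ j0, Cop (mkV y0 i0) (mkV y0 j0)
  · push Not at hc
    obtain ⟨S, h1, h2⟩ := case0 hi0 (fun j => (cop_or (mkV_mem y0 i0) (mkV_mem y0 j) (ρ_mkV y0 i0)
      (ρ_mkV y0 j) hi0).resolve_left (hc j)) (rl x) h0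
    exact ⟨S, by omega, h2⟩
  obtain ⟨j0, hc⟩ := not_not.1 hc
  have hΦ := map_ρ_mkP x
  generalize hΛ : LamR (m + D) (mkV y0) (mkP D m (rl x)) = Λ
  generalize hH : HsR (m + D) (mkV y0) (mkP D m (rl x)) = H
  have Hl : ∀ a b c (s : ℝ), H (a + s • b) c = H a c + s • H b c := hH ▸ HsR_lin _ _ _
  have Hsy : ∀ a b, H a b = H b a := hH ▸ HsR_symm _ _ _
  have H0 : ∀ a, H 0 a = 0 := hH ▸ HsR_zero _ _ _
  obtain ⟨p, hp, hp0⟩ : ∃ p : J (m + D) → ℝ, (∀ y, ∑ k, p k * Λ y k = 0) ∧ p ≠ 0 := by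
    by_contra! h
    exact hn (persist1 (by omega) hy0 h0 (hΛ ▸ h))
  have kill : ∀ p : J (m + D) → ℝ, (∀ y, ∑ k, p k * Λ y k = 0) → ∀ δ, (∀ j, δ j ∈ B (-1) 1) →
      psi (m + D) p (Lam (mkV y0) δ (mkP D m (rl x))) = 0 := fun p hp =>
    psi_Lam (ρ_mkV y0) hΦ (hΛ ▸ hp)
  have hW : rl x ∈ W1 D m (mkV y0) fun _ : Unit => psi (m + D) p :=
    mem_W1 h0 fun _ => kill p hp
  by_cases hna : ¬ NoAnn (m + D) (psi (m + D) p)
  · simp only [NoAnn, not_forall] at hna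
    obtain ⟨u, hu, h1, h2⟩ := hna
    obtain ⟨S, s1, s2⟩ := rec_rat (M := m + D) _ (by simpa using psi_out (m + D) p) hu h2 h1
    obtain ⟨k, hk⟩ := Function.ne_iff.1 hp0
    obtain ⟨S', s3, s4⟩ := case12 (by omega) (by omega) (mkV_mem y0) hc _
      (rel_one (M := m + D) (by omega) (psi_ρ _ p) ⟨E k.1, by simpa using E_mem' k,
        by rw [psi_E]; exact_mod_cast hk⟩) S (fun _ => s2) hW
    rw [Fintype.card_unit] at s3
    exact ⟨S', by omega, s4⟩
  rw [not_not] at hna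
  have cS : ∀ q : J (m + D) → ℝ, (Finset.univ.image fun k => (q k : ℂ)).card ≤ 2 * (m + D) + 1 :=
    fun q => Finset.card_image_le.trans (by rw [Finset.card_univ, card_J])
  by_cases h2 : ∃ p' : J (m + D) → ℝ, (∀ y, ∑ k, p' k * Λ y k = 0) ∧ ∀ c : ℝ, p' ≠ c • p
  · obtain ⟨p', hp', hp1⟩ := h2
    obtain ⟨S', s3, s4⟩ := case12 (by omega) (by omega) (mkV_mem y0) hc
      ![psi (m + D) p, psi (m + D) p']
      (rel_two (M := m + D) (by omega) (fun a => by fin_cases a <;> exact psi_ρ _ _) hna fun c => by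
        by_contra! h
        refine hp1 (-c.re) (funext fun k => ?_)
        have := congrArg Complex.re (h (E k.1) (by simpa using E_mem' k))
        simp only [Matrix.cons_val_zero, Matrix.cons_val_one, psi_E, Complex.add_re,
          Complex.mul_re, Complex.ofReal_re, Complex.ofReal_im, Complex.zero_re] at this
        simp only [Pi.smul_apply, smul_eq_mul]
        linarith)
      ((Finset.univ.image fun k => (p k : ℂ)) ∪ (Finset.univ.image fun k => (p' k : ℂ)))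
      (fun a => by fin_cases a <;> exact psi_rat _ _ fun k => by simp)
      (mem_W1 h0 fun a => by
        fin_cases a
        · exact kill p hp
        · exact kill p' hp')
    have := Finset.card_union_le (Finset.univ.image fun k => (p k : ℂ))
      (Finset.univ.image fun k => (p' k : ℂ))
    have := cS p
    have := cS p'
    rw [Fintype.card_fin] at s3
    exact ⟨S', by omega, s4⟩
  push Not at h2
  have hr : ∀ w : J (m + D) → ℝ, ∑ k, p k * w k = 0 → ∃ u, Λ u = w := fun w hw =>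
    mem_of_forall_ann (LinearMap.range Λ) w fun q hq => by
      obtain ⟨c, rfl⟩ := h2 q fun y => hq _ ⟨y, rfl⟩
      simp only [Pi.smul_apply, smul_eq_mul, mul_assoc, ← Finset.mul_sum, hw, mul_zero]
  let φ : (σ × J 1 → ℝ) → (σ × J 1 → ℝ) → ℝ := fun a b => ∑ k, p k * H a b k
  have hiso : ∀ a ∈ LinearMap.ker Λ, ∀ b ∈ LinearMap.ker Λ, φ a a = 0 → φ a b = 0 := by
    intro a ha b hb hab
    by_contra hne
    obtain ⟨u0, hu0⟩ := hr ((-1 / 2 : ℝ) • H a a) (by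
      simp only [Pi.smul_apply, smul_eq_mul, mul_left_comm (p _), ← Finset.mul_sum]
      exact mul_eq_zero_of_right _ hab)
    refine hn (persist (by omega) hy0 h0 (κ0 := a) (u0 := u0) (hΛ ▸ ha)
      (by rw [hΛ, hH, hu0]; module) fun w => ?_)
    rw [hΛ, hH]
    obtain ⟨u, hu⟩ := hr (w - ((∑ k, p k * w k) / φ a b) • H a b) (by
      simp only [Pi.sub_apply, Pi.smul_apply, smul_eq_mul, mul_sub, Finset.sum_sub_distrib,
        mul_left_comm (p _), ← Finset.mul_sum]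
      exact sub_eq_zero.2 (div_mul_cancel₀ _ hne).symm)
    refine ⟨((∑ k, p k * w k) / φ a b) • b, u, by rw [map_smul, LinearMap.mem_ker.1 hb, smul_zero],
      ?_⟩
    have := Hl 0 b a ((∑ k, p k * w k) / φ a b)
    rw [zero_add, H0, zero_add, Hsy b] at this
    rw [hu, Hsy a (_ • b), this, sub_add_cancel]
  have hφ : ∀ a b, psi (m + D) p (Hs (mkV y0) (mkV a) (mkV b) (mkP D m (rl x))) = φ a b := by
    intro a b
    rw [psi_real _ _ (by rw [ρ_Hs (ρ_mkV y0) hΦ]; simp only [ρ_mkV])]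
    simp only [φ, ← hH, HsR]
  obtain ⟨S', s3, s4⟩ := wall hD (by omega) (by omega) (mkV_mem y0) (ρ_mkV y0) hc hi0 _ hna
    (Finset.univ.image fun k => (p k : ℂ)) (psi_rat _ _ fun k => by simp) hW
    (iso_step (ρ_mkV y0) hΦ _ (fun δ => ∃ a ∈ LinearMap.ker Λ, mkV a = δ)
      (fun δ a b c => by
        obtain ⟨y, rfl⟩ := exists_mkV a b
        refine ⟨y, ?_, rfl⟩
        rw [← hΛ]
        funext k
        simp [LamR, c])
      (by
        rintro _ _ ⟨a, ha, rfl⟩ ⟨b, hb, rfl⟩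
        rw [hφ, hφ, Complex.ofReal_re, Complex.ofReal_re]
        refine semidef _ φ (fun a b c s => ?_) (fun a b => by simp only [φ, Hsy a]) hiso ha hb
        simp only [φ, Hl, Pi.add_apply, Pi.smul_apply, smul_eq_mul, mul_add,
          Finset.sum_add_distrib, Finset.mul_sum, mul_left_comm])
      (by
        rintro _ _ ⟨a, ha, rfl⟩ ⟨b, hb, rfl⟩ h
        rw [hφ, Complex.ofReal_re] at h
        rw [hφ, hiso a ha b hb h, Complex.ofReal_zero]))
  have := cS p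
  exact ⟨S', by omega, s4⟩

omit [Fintype σ] [DecidableEq σ] in
theorem SP_real {L : σ → R} (hL : ∀ j, ρ (L j) = L j) {i0 j0 : σ} (h : Cop (L i0) (L j0)) {c : ℕ}
    (hc : 1 ≤ c) (n : ℕ) {f : R} (hf : f ∈ B (-((c : ℤ) + n)) (c + n)) (hr : ρ f = f) :
    ∃ Θ, Pm n c Θ ∧ map ρ Θ = Θ ∧ aeval L Θ = f := by
  obtain ⟨Θ, h1, h2⟩ := SP h hc n f hf
  refine ⟨(1 / 2 : ℂ) • (Θ + map ρ Θ), (h1.add h1.map_ρ).smul _, ?_, ?_⟩
  · rw [map_ρ_smul, map_add, MvPolynomial.map_map,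
      show ρ.comp ρ = RingHom.id R from RingHom.ext ρρ, MvPolynomial.map_id, add_comm]
    simp only [map_div₀, map_one, map_ofNat]
  · have : aeval L (map ρ Θ) = f := by
      rw [← hr, ← h2, ρ_aeval]; simp only [hL]
    rw [← Ev_apply, map_smul, map_add, Ev_apply, Ev_apply, this, h2]
    module

theorem base {N D m : ℕ} (hD : 1 ≤ D) (hm : 1 ≤ m) (n1 : m + D + 2 ≤ N) :
    ∃ x0, UU (Fin N) D m ∈ 𝓝 x0 := by
  obtain ⟨D', hD'⟩ : ∃ D', D = 1 + D' := ⟨D - 1, by omega⟩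
  let L : Fin N → R := fun j => if j.1 = 0 then 1 else if j.1 = 1 then E 1 else 0
  have L1 : ∀ j, L j ∈ B (-1) 1 := fun j => by
    simp only [L]
    split_ifs
    · exact one_mem_B (by norm_num) (by norm_num)
    · exact E_mem (by norm_num) le_rfl
    · exact zero_mem _
  have L2 : ∀ j, ρ (L j) = L j := fun j => by
    simp only [L]
    split_ifs
    · exact map_one _
    · exact ρ_E _
    · exact map_zero _
  have L3 : L ⟨0, by omega⟩ = 1 := rfl
  have hc : Cop (L ⟨0, by omega⟩) (L ⟨1, by omega⟩) := by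
    refine (cop_or (L1 _) (L1 _) (L2 _) (L2 _) (by rw [L3]; exact one_ne_zero)).resolve_right ?_
    rintro ⟨c, hc⟩
    have := congrArg (co 1) hc
    have e0 : (1 : R) = E 0 := rfl
    rw [L3, map_smul, e0, co_E] at this
    have e1 : L ⟨1, by omega⟩ = E 1 := rfl
    rw [e1, co_E] at this
    simp at this
  have key : ∀ j : Fin N, ∃ Θ, Pm D' m Θ ∧ map ρ Θ = Θ ∧ (j.1 < 2 → Θ = 0) ∧
      (2 ≤ j.1 → j.1 < m + D + 2 → aeval L Θ = E (2 * j.1 - 3 - (m + D))) := fun j => by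
    by_cases h : 2 ≤ j.1 ∧ j.1 < m + D + 2
    · obtain ⟨Θ, a, b, c⟩ := SP_real L2 hc hm D' (f := E (2 * j.1 - 3 - (m + D)))
        (E_mem (by omega) (by omega)) (ρ_E _)
      exact ⟨Θ, a, b, fun _ => by omega, fun _ _ => c⟩
    · exact ⟨0, Pm.zero _ _, map_zero _, fun _ => rfl, fun _ _ => by omega⟩
  choose Θ t1 t2 t3 t4 using key
  have t5 : ∀ j, L j = 0 ∨ Θ j = 0 := fun j => by
    by_cases h : j.1 < 2
    · exact Or.inr (t3 j h)
    · left; simp only [L]; rw [if_neg (by omega), if_neg (by omega)]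
  obtain ⟨x0, hx0⟩ := exists_mkP_real (D := D) (m := m) (Φ := ∑ j, X j * Θ j)
    (Pm.sum _ _ fun j _ => ((Pm.X j).mul (t1 j)).cast hD' (by omega)) (by simp [t2])
  obtain ⟨y0, hy0⟩ := exists_mkV L1 L2
  refine ⟨x0, persist1 hD (y0 := y0) ?_ ?_ fun p hp => ?_⟩
  · rintro rfl
    have := congrFun hy0 ⟨0, by omega⟩
    simp [L3, mkV] at this
  · rw [hx0, hy0, map_sum]
    refine Finset.sum_eq_zero fun j _ => ?_
    rcases t5 j with h | h <;> simp [h]
  have h1 := psi_Lam (ρ_mkV y0) (map_ρ_mkP x0) hp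
  rw [hx0, hy0] at h1
  have h2 : ∀ (i : ℕ), i < m + D → ∀ k : ℤ, -1 ≤ k → k ≤ 1 →
      psi (m + D) p (T k * E (2 * i + 1 - (m + D))) = 0 := fun i hi k k1 k2 => by
    have := h1 (Pi.single ⟨i + 2, by omega⟩ (T k)) (single_mem (s := B (-1) 1) (T_mem k1 k2) _)
    rw [map_sum, Finset.sum_eq_single ⟨i + 2, by omega⟩] at this
    · rw [Lam_mul, Lam_X, aeval_X, t4 _ (by simp) (by simpa using hi), Pi.single_eq_same] at this
      have e : L ⟨i + 2, by omega⟩ = 0 := by simp [L]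
      rw [e, zero_mul, add_zero] at this
      convert this using 4
      push_cast
      ring
    · intro j _ hj
      rw [Lam_mul, Lam_X, aeval_X, Pi.single_eq_of_ne hj]
      rcases t5 j with h | h <;> simp [h]
    · simp
  have h3 : ∀ n : ℤ, -((m + D : ℕ) : ℤ) ≤ n → n ≤ (m + D : ℕ) → psi (m + D) p (T n) = 0 := by
    intro n n1 n2
    obtain ⟨i, i1, i2, i3⟩ : ∃ i : ℕ, i < m + D ∧ -1 ≤ n - (2 * i + 1 - (m + D)) ∧
        n - (2 * i + 1 - (m + D)) ≤ 1 :=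
      ⟨min (m + D - 1) ((n + (m + D)) / 2).toNat, by omega, by omega, by omega⟩
    have := T_mem_span (2 * i + 1 - (m + D))
      (LinearMap.ker (psi (m + D) p ∘ₗ LinearMap.mulLeft ℂ (T (n - (2 * i + 1 - (m + D))))))
      (h2 i i1 _ i2 i3) (by
        have := h2 (m + D - 1 - i) (by omega) _ i2 i3
        rwa [show (2 * ((m + D - 1 - i : ℕ) : ℤ) + 1 - (m + D)) = -(2 * i + 1 - (m + D)) by omega]
          at this)
    rwa [LinearMap.mem_ker, LinearMap.comp_apply, LinearMap.mulLeft_apply,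
      ← LaurentPolynomial.T_add, sub_add_cancel] at this
  funext k
  have := lin_eq_zero_of_T _ h3 (E_mem' k)
  rw [psi_E] at this
  exact_mod_cast this

theorem core {N D m : ℕ} (hD : 2 ≤ D) (n1 : m + D + 11 ≤ N) (n2 : N + 1 ≤ 2 * m)
    (n3 : N + 27 ≤ 2 * (m + D)) {Φ : MvPolynomial (Fin N) R} (h : Pm D m Φ) (hr : map ρ Φ = Φ) :
    ∃ L : Fin N → R, L ≠ 0 ∧ (∀ j, ρ (L j) = L j) ∧ aeval L Φ = 0 := by
  classical
  obtain ⟨x1, rfl⟩ := exists_mkP_real h hr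
  suffices x1 ∈ UU (Fin N) D m by
    obtain ⟨y, h1, h2⟩ := this
    exact ⟨mkV y, mkV_ne_zero h1, ρ_mkV y, h2⟩
  obtain ⟨xb, hb⟩ := base (N := N) (D := D) (m := m) (by omega) (by omega) (by omega)
  obtain ⟨x0, h0, hg⟩ := exists_generic (Finset.univ.image fun i => (x1 i : ℂ)) hb
  have hγ : Continuous fun s : ℝ => x0 + s • (x1 - x0) := by fun_prop
  have := IsClosed.Icc_subset_of_forall_mem_nhdsWithin (a := 0) (b := 1)
    (s := (fun s : ℝ => x0 + s • (x1 - x0)) ⁻¹' UU (Fin N) D m)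
    (((isClosed_UU D m).preimage hγ).inter isClosed_Icc) (by simpa using h0) fun s hs => by
      refine mem_nhdsWithin_of_mem_nhds (hγ.continuousAt.preimage_mem_nhds ?_)
      by_contra hn
      obtain ⟨S, s1, s2⟩ := alg hD (by simpa using n1) (by simpa using n2) (by simpa using n3)
        hs.1 hn
      have := hg (insert (s : ℂ) S) fun i => by
        have e : (x0 i : ℂ) = (((x0 + s • (x1 - x0)) i : ℝ) - s * x1 i) / (1 - s) := by
          have : (1 - s : ℂ) ≠ 0 := by exact_mod_cast (sub_pos.2 hs.2.2).ne'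
          simp only [Pi.add_apply, Pi.smul_apply, Pi.sub_apply, smul_eq_mul]
          push_cast
          field_simp
          ring
        have hs' : (s : ℂ) ∈ cl (((Finset.univ.image fun i => (x1 i : ℂ) : Finset ℂ) : Set ℂ) ∪
          (insert (s : ℂ) S : Finset ℂ)) := subset_cl _ (by simp)
        rw [e]
        refine div_mem (sub_mem (cl_mono ?_ (s2 i)) (mul_mem hs' (subset_cl _ (by simp))))
          (sub_mem (one_mem _) hs')
        intro z hz
        simp [hz]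
      have := Finset.card_insert_le (s : ℂ) S
      omega
  simpa using this (Set.right_mem_Icc.2 zero_le_one)

end Pool.Agent.Lib.MP_73c785_ag.H74
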