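import Pool.Agent.Lib.MP_73c785_ag.H74C

set_option autoImplicit false

open MvPolynomial Filter Topology

noncomputable section

namespace Pool.Agent.Lib.MP_73c785_ag.H74

variable {A : Type} [CommRing A] (𝓕 : Filt A)

/-- a system whose only common zero is the origin -/
def Aniso {ι σ : Type} (G : ι → MvPolynomial σ A) : Prop :=
  ∀ x : σ → A, (∀ i, aeval x (G i) = 0) → x = 0

/-- existence of an anisotropic system of `r` forms in `n` variables of degree `d` and size `c` -/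
def An (r n d c : ℕ) : Prop :=
  ∃ G : Fin r → MvPolynomial (Fin n) A,
    (∀ i, (G i).IsHomogeneous d ∧ G i ∈ (𝓕.poly (Fin n)).F c) ∧ Aniso G

variable {𝓕}

theorem aeval_aeval {σ τ : Type} (x : τ → A) (g : σ → MvPolynomial τ A) (φ : MvPolynomial σ A) :
    aeval x (aeval g φ) = aeval (fun i => aeval x (g i)) φ := aeval_bind₁ x g φ

theorem rename_mem {σ τ : Type} {d c : ℕ} {Φ : MvPolynomial σ A} (h1 : Φ.IsHomogeneous d)
    (h2 : Φ ∈ (𝓕.poly σ).F c) (e : σ → τ) : rename e Φ ∈ (𝓕.poly τ).F c := by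
  have := 𝓕.bind_mem h1 h2 (X ∘ e) fun j => 𝓕.X_mem (e j)
  rwa [← rename_eq_aeval] at this

theorem An.intro {ι σ : Type} [Fintype ι] [Fintype σ] {r n d c : ℕ} (hr : Fintype.card ι = r)
    (hn : Fintype.card σ = n) (G : ι → MvPolynomial σ A)
    (h1 : ∀ i, (G i).IsHomogeneous d ∧ G i ∈ (𝓕.poly σ).F c) (h2 : Aniso G) : An 𝓕 r n d c := by
  let e := Fintype.equivFinOfCardEq hr
  let e' := Fintype.equivFinOfCardEq hn
  refine ⟨fun i => rename e' (G (e.symm i)), fun i => ⟨(h1 _).1.rename_isHomogeneous,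
    rename_mem (h1 _).1 (h1 _).2 _⟩, fun x hx => ?_⟩
  have := h2 (x ∘ e') fun i => by
    have := hx (e i)
    rwa [aeval_rename, e.symm_apply_apply] at this
  funext j
  simpa using congrFun this (e'.symm j)

theorem An.mono {r n d c c' : ℕ} (h : An 𝓕 r n d c) (hc : c ≤ c') : An 𝓕 r n d c' := by
  obtain ⟨G, h1, h2⟩ := h
  exact ⟨G, fun i => ⟨(h1 i).1, (𝓕.poly _).mono hc (h1 i).2⟩, h2⟩

theorem An.comp {r n n' d d' c c' : ℕ} (h : An 𝓕 r n d c) (h' : An 𝓕 n n' d' c') :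
    An 𝓕 r n' (d' * d) (c + d * c') := by
  obtain ⟨G, h1, h2⟩ := h
  obtain ⟨G', h1', h2'⟩ := h'
  refine ⟨fun i => aeval G' (G i), fun i => ⟨(h1 i).1.aeval _ fun j => (h1' j).1,
    𝓕.bind_mem (h1 i).1 (h1 i).2 _ fun j => (h1' j).2⟩, fun x hx => h2' x fun j => ?_⟩
  exact congrFun (h2 (fun j => aeval x (G' j)) fun i => by rw [← aeval_aeval]; exact hx i) j

theorem An.block {r n d c : ℕ} (h : An 𝓕 r n d c) (k : ℕ) : An 𝓕 (k * r) (k * n) d c := by
  obtain ⟨G, h1, h2⟩ := h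
  refine An.intro (ι := Fin k × Fin r) (σ := Fin k × Fin n) (by simp) (by simp)
    (fun p => rename (Prod.mk p.1) (G p.2)) (fun p => ⟨(h1 _).1.rename_isHomogeneous,
    rename_mem (h1 _).1 (h1 _).2 _⟩) fun x hx => ?_
  funext ⟨b, j⟩
  exact congrFun (h2 (x ∘ Prod.mk b) fun i => by rw [← aeval_rename]; exact hx (b, i)) j

theorem An.pow {r n d c : ℕ} (h : An 𝓕 r n d c) (hd : 1 ≤ d) (K : ℕ) :
    An 𝓕 (r ^ K) (n ^ K) (d ^ K) (K * c * d ^ K) := by
  induction K with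
  | zero =>
    have : An 𝓕 1 1 1 0 := ⟨fun i => X i, fun i => ⟨isHomogeneous_X _ _, 𝓕.X_mem i⟩,
      fun x hx => funext fun i => by simpa using hx i⟩
    simpa using this
  | succ K ih =>
    have h1 := ih.block r
    have h2 := h.block (n ^ K)
    rw [mul_comm (n ^ K) r] at h2
    have h3 := h1.comp h2
    rw [← pow_succ', ← pow_succ, ← pow_succ'] at h3
    refine h3.mono ?_
    have : d ^ K ≤ d ^ (K + 1) := Nat.pow_le_pow_right hd (Nat.le_succ K)
    calc K * c * d ^ K + d ^ K * c = (K + 1) * c * d ^ K := by ring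
      _ ≤ _ := Nat.mul_le_mul_left _ this

theorem exists_pow (q c : ℕ) : ∃ K, 1 ≤ K ∧ (K * c + 60) * q ^ K ≤ (q + 1) ^ K := by
  have hq : (0 : ℝ) < q + 1 := by positivity
  have := tendsto_self_mul_const_pow_of_lt_one (r := (q : ℝ) / (q + 1)) (by positivity)
    ((div_lt_one hq).2 (by linarith))
  obtain ⟨K, h1, h2⟩ := ((this.eventually (gt_mem_nhds (show (0 : ℝ) < 1 / (c + 60) by
    positivity))).and (eventually_ge_atTop 1)).exists
  refine ⟨K, h2, ?_⟩
  rw [div_pow, ← mul_div_assoc, div_lt_div_iff₀ (by positivity) (by positivity)] at h1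
  have h3 : (1 : ℝ) ≤ K := by exact_mod_cast h2
  have h4 : (0 : ℝ) ≤ (q : ℝ) ^ K := by positivity
  have : ((K : ℝ) * c + 60) * (q : ℝ) ^ K ≤ ((q : ℝ) + 1) ^ K := by nlinarith
  exact_mod_cast this

variable [Nontrivial A]

theorem lang1 (hν : ∀ e, 1 ≤ e → An 𝓕 1 e e e)
    (hc : ∀ N D m, 2 ≤ D → m + D + 11 ≤ N → N + 1 ≤ 2 * m → N + 27 ≤ 2 * (m + D) →
      ¬ An 𝓕 1 N D m) {r n d c : ℕ} (hd : 1 ≤ d) (h : r * d < n) : ¬ An 𝓕 r n d c := by
  intro hA
  rcases Nat.eq_zero_or_pos r with rfl | hr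
  · obtain ⟨G, -, h2⟩ := hA
    exact one_ne_zero (congrFun (h2 1 fun i => i.elim0) ⟨0, by omega⟩)
  obtain ⟨K, hK, h1⟩ := exists_pow (2 * r * d) c
  have h2 := (hν ((2 * r) ^ K) (Nat.one_le_pow _ _ (by omega))).comp ((hA.block 2).pow hd K)
  have h3 : (2 * r * d + 1) ^ K ≤ (2 * n) ^ K := Nat.pow_le_pow_left (by nlinarith) _
  have h4 : 2 ≤ (2 * r * d) ^ K :=
    (show 2 ≤ 2 * r * d by nlinarith).trans (Nat.le_self_pow (by omega) _)
  have h5 : (2 * r) ^ K ≤ (2 * r * d) ^ K := Nat.pow_le_pow_left (by nlinarith) _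
  have h6 : (2 * r) ^ K * (K * c * d ^ K) = K * c * (2 * r * d) ^ K := by rw [mul_pow _ d]; ring
  rw [h6, mul_comm (d ^ K), ← mul_pow] at h2
  rw [add_mul] at h1
  generalize (2 * r * d) ^ K = D at *
  generalize (2 * n) ^ K = N at *
  generalize K * c * D = E at *
  exact hc N D (N - D - 11) h4 (by omega) (by omega) (by omega) (h2.mono (by omega))

omit [Nontrivial A] in
theorem aeval_weighted {σ τ : Type} {a : σ → ℕ} {d : ℕ} {φ : MvPolynomial σ A}
    (hφ : φ.IsWeightedHomogeneous a d) (g : σ → MvPolynomial τ A)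
    (hg : ∀ j, (g j).IsHomogeneous (a j)) : (aeval g φ).IsHomogeneous d := by
  rw [aeval_def, eval₂_eq]
  refine IsHomogeneous.sum _ _ _ fun α hα => ?_
  have := (IsHomogeneous.prod α.support (fun j => g j ^ α j) (fun j => a j * α j)
    fun j _ => (hg j).pow _).C_mul (coeff α φ)
  rw [← hφ (mem_support_iff.1 hα), Finsupp.weight_apply, Finsupp.sum]
  simpa only [smul_eq_mul, mul_comm (a _), algebraMap_eq] using this

omit [Nontrivial A] in
theorem exists_bound (hex : ∀ a : A, ∃ m, a ∈ 𝓕.F m) {ι σ : Type} [Fintype ι]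
    (G : ι → MvPolynomial σ A) : ∃ c, ∀ i, G i ∈ (𝓕.poly σ).F c := by
  choose f hf using hex
  refine ⟨Finset.univ.sup fun i => (G i).support.sup fun α => f (coeff α (G i)), fun i α => ?_⟩
  by_cases h : α ∈ (G i).support
  · exact 𝓕.mono ((Finset.le_sup (f := fun α => f (coeff α (G i))) h).trans
      (Finset.le_sup (f := fun i => (G i).support.sup fun α => f (coeff α (G i)))
        (Finset.mem_univ i))) (hf _)
  · rw [notMem_support_iff.1 h]; exact zero_mem _

theorem lang (hν : ∀ e, 1 ≤ e → An 𝓕 1 e e e)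
    (hc : ∀ N D m, 2 ≤ D → m + D + 11 ≤ N → N + 1 ≤ 2 * m → N + 27 ≤ 2 * (m + D) →
      ¬ An 𝓕 1 N D m) (hex : ∀ a : A, ∃ m, a ∈ 𝓕.F m) {ι σ : Type} [Fintype ι] [Fintype σ]
    (a : σ → ℕ) (d : ι → ℕ) (ha : ∀ j, 0 < a j) (hd : ∀ i, 0 < d i)
    (f : ι → MvPolynomial σ A) (hf : ∀ i, (f i).IsWeightedHomogeneous a (d i))
    (h : ∑ i, d i < ∑ j, a j) : ¬ Aniso f := by
  classical
  intro hA
  have hν' : ∀ e, ∃ ν : MvPolynomial (Fin e) A, 1 ≤ e → ν.IsHomogeneous e ∧
      ∀ x : Fin e → A, aeval x ν = 0 → x = 0 := fun e => by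
    by_cases he : 1 ≤ e
    · obtain ⟨G, h1, h2⟩ := hν e he
      exact ⟨G 0, fun _ => ⟨(h1 0).1, fun x hx => h2 x fun i => by
        rwa [Subsingleton.elim i 0]⟩⟩
    · exact ⟨0, fun h => absurd h he⟩
  choose ν hν' using hν'
  let g : ι → MvPolynomial (Σ j, Fin (a j)) A := fun i =>
    aeval (fun j => rename (Sigma.mk j) (ν (a j))) (f i)
  have g1 : ∀ i, (g i).IsHomogeneous (d i) := fun i =>
    aeval_weighted (hf i) _ fun j => (hν' _ (ha j)).1.rename_isHomogeneous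
  have g2 : Aniso g := fun x hx => by
    have := hA (fun j => aeval x (rename (Sigma.mk j) (ν (a j)))) fun i => by
      rw [← aeval_aeval]; exact hx i
    funext ⟨j, k⟩
    have h1 : aeval x (rename (Sigma.mk j) (ν (a j))) = 0 := congrFun this j
    rw [aeval_rename] at h1
    exact congrFun ((hν' _ (ha j)).2 _ h1) k
  have hD : 0 < ∏ i, d i := Finset.prod_pos fun i _ => hd i
  have he : ∀ i, ∃ e, ∏ i, d i = d i * e := fun i => Finset.dvd_prod_of_mem _ (Finset.mem_univ i)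
  generalize ∏ i, d i = D at hD he
  choose e he using he
  have he1 : ∀ i, 1 ≤ e i := fun i => Nat.pos_of_ne_zero fun h0 => by
    have := he i
    rw [h0] at this
    omega
  let b : ∀ i, Fin (d i) × Fin (e i) ≃ Fin D := fun i =>
    finProdFinEquiv.trans (finCongr (he i).symm)
  let G : (Σ i, Fin (d i)) → MvPolynomial (Fin D × Σ j, Fin (a j)) A := fun p =>
    aeval (fun t => rename (Prod.mk (b p.1 (p.2, t))) (g p.1)) (ν (e p.1))
  obtain ⟨c, hG⟩ := exists_bound hex G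
  refine lang1 hν hc (r := ∑ i, d i) (n := D * ∑ j, a j) (c := c) hD
    (by rw [mul_comm]; exact Nat.mul_lt_mul_of_pos_left h hD)
    (An.intro (by simp) (by simp) G (fun p => ⟨?_, hG p⟩) fun x hx => ?_)
  · exact (congrArg (G p).IsHomogeneous (he p.1)).mpr
      ((hν' _ (he1 _)).1.aeval _ fun t => (g1 _).rename_isHomogeneous)
  · funext ⟨k, j⟩
    refine congrFun (g2 (x ∘ Prod.mk k) fun i => ?_) j
    have := (hν' _ (he1 i)).2 _ (by
      have := hx ⟨i, ((b i).symm k).1⟩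
      rwa [aeval_aeval] at this)
    have := congrFun this ((b i).symm k).2
    rwa [aeval_rename, Prod.mk.eta, Equiv.apply_symm_apply] at this

end Pool.Agent.Lib.MP_73c785_ag.H74
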