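import Pool.Agent.Lib.MP_73c785_ag.H74G
import Pool.Agent.Lib.MP_73c785_ag.H74H

set_option autoImplicit false

open MvPolynomial
open LaurentPolynomial (T)
open scoped ComplexConjugate

noncomputable section

namespace Pool.Agent.Lib.MP_73c785_ag.H74

/-- top degree -/
def Top (f : R) (b : ℤ) : Prop := cf b f ≠ 0 ∧ ∀ n, b < n → cf n f = 0

theorem exists_top {f : R} (h : f ≠ 0) : ∃ b, Top f b := by
  obtain ⟨a, b, hab⟩ := finite_supp f
  obtain ⟨c, hc, hc'⟩ := Int.exists_greatest_of_bdd (P := fun n => cf n f ≠ 0)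
    ⟨b, fun n hn => by by_contra e; exact hn (hab n (by omega))⟩
    (by by_contra! e; exact h (ext_cf fun n => by rw [e n, map_zero]))
  exact ⟨c, hc, fun n hn => by by_contra e; have := hc' n e; omega⟩

theorem Top.mem {f : R} {b : ℤ} (h : Top f b) : ∃ a ≤ b, f ∈ B a b := by
  obtain ⟨a, c, hac⟩ := finite_supp f
  exact ⟨min a b, min_le_right _ _, fun n hn => hn.elim (fun h1 => hac n (by omega)) (h.2 n)⟩

theorem Top.mul {f g : R} {a b : ℤ} (hf : Top f a) (hg : Top g b) : Top (f * g) (a + b) := by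
  obtain ⟨a', -, h1⟩ := hf.mem
  obtain ⟨b', h3, h2⟩ := hg.mem
  refine ⟨?_, fun n hn => B_mul h1 h2 n (Or.inr hn)⟩
  rw [B_repr h2, Finset.mul_sum, map_sum, Finset.sum_eq_single b]
  · rw [mul_smul_comm, map_smul, cf_mul_T, add_sub_cancel_right]
    exact mul_ne_zero hg.1 hf.1
  · intro k hk hkb
    rw [mul_smul_comm, map_smul, cf_mul_T, hf.2 _ (by have := (Finset.mem_Icc.1 hk).2; omega),
      smul_zero]
  · intro h
    exact absurd (Finset.mem_Icc.2 ⟨h3, le_rfl⟩) h

theorem Top.pow {f : R} {a : ℤ} (hf : Top f a) (n : ℕ) : Top (f ^ n) (n * a) := by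
  induction n with
  | zero => exact ⟨by simp [cf_one], fun n hn => by rw [pow_zero, cf_one, if_neg (by omega)]⟩
  | succ n ih => rw [pow_succ, Nat.cast_succ, add_mul, one_mul]; exact ih.mul hf

theorem normic_R {π : R} (hπ : Top π 1) {e : ℕ} (he : 1 ≤ e) (L : Fin e → R)
    (h : ∑ j : Fin e, π ^ (j : ℕ) * L j ^ e = 0) : L = 0 := by
  classical
  by_contra hL
  have : ∀ j, ∃ b, L j ≠ 0 → Top (L j) b := fun j => by
    by_cases h : L j = 0
    · exact ⟨0, fun h' => absurd h h'⟩
    · exact (exists_top h).imp fun b hb _ => hb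
  choose b hb using this
  obtain ⟨j1, hj1⟩ := Function.ne_iff.1 hL
  obtain ⟨j0, h0, hmax⟩ := (Finset.univ.filter fun j => L j ≠ 0).exists_max_image
    (fun j => (j : ℕ) * (1 : ℤ) + e * b j) ⟨j1, by simpa using hj1⟩
  have top : ∀ j : Fin e, L j ≠ 0 → Top (π ^ (j : ℕ) * L j ^ e) ((j : ℕ) * (1 : ℤ) + e * b j) :=
    fun j hj => (hπ.pow _).mul ((hb j hj).pow _)
  have := congrArg (cf ((j0 : ℕ) * (1 : ℤ) + e * b j0)) h
  rw [map_sum, Finset.sum_eq_single j0, map_zero] at this
  · exact (top j0 (Finset.mem_filter.1 h0).2).1 this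
  · intro j _ hj
    by_cases hLj : L j = 0
    · rw [hLj, zero_pow (by omega), mul_zero, map_zero]
    · refine (top j hLj).2 _ (lt_of_le_of_ne (hmax j (by simpa using hLj)) fun e' => hj ?_)
      have e2 := congrArg (· % (e : ℤ)) e'
      simp only [mul_one, Int.add_mul_emod_self_left] at e2
      rw [Int.emod_eq_of_lt (by omega) (by omega), Int.emod_eq_of_lt (by omega) (by omega)] at e2
      exact Fin.ext (by omega)
  · simp

/-- the coordinates of the conic -/
def xx : R := (1 / 2 : ℂ) • (T 1 - T (-1))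

/-- the coordinates of the conic -/
def yy : R := (Complex.I / 2) • (T 1 + T (-1))

theorem ρ_xx : ρ xx = xx := by
  simp only [xx, ρ_smul, map_sub, ρ_T, sg_neg, sg_one, neg_neg, map_div₀, map_one, map_ofNat]
  module

theorem ρ_yy : ρ yy = yy := by
  simp only [yy, ρ_smul, map_add, ρ_T, sg_neg, sg_one, neg_neg, map_div₀, Complex.conj_I, map_ofNat]
  module

theorem T_eq : (T 1 : R) = xx - Complex.I • yy := by
  rw [xx, yy, smul_smul, ← mul_div_assoc, Complex.I_mul_I]
  module

theorem xy_sq : xx ^ 2 + yy ^ 2 + 1 = 0 := by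
  have hu : (T 1 : R) * T (-1) = 1 := by rw [← LaurentPolynomial.T_add]; rfl
  have e : (Complex.I / 2) ^ 2 = -(1 / 2) ^ 2 := by rw [div_pow, Complex.I_sq]; ring
  have e1 : ((T 1 : R) + T (-1)) ^ 2 = (T 1 - T (-1)) ^ 2 + (4 : ℂ) • 1 := by
    have : ((4 : ℂ) • 1 : R) = 1 + 1 + 1 + 1 := by module
    rw [this]
    linear_combination 4 * hu
  rw [xx, yy, smul_pow, smul_pow, e, e1]
  module

/-- the ring map from real polynomials -/
def θ0 : MvPolynomial (Fin 2) ℝ →+* R :=
  eval₂Hom ((LaurentPolynomial.C : ℂ →+* R).comp Complex.ofRealHom) ![xx, yy]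

theorem θ0_C (r : ℝ) : θ0 (C r) = (r : ℂ) • 1 := by
  rw [θ0, eval₂Hom_C, LaurentPolynomial.smul_eq_C_mul, mul_one]; rfl

theorem θ0_X0 : θ0 (X 0) = xx := by simp [θ0]
theorem θ0_X1 : θ0 (X 1) = yy := by simp [θ0]

abbrev qq : MvPolynomial (Fin 2) ℝ := X 0 ^ 2 + X 1 ^ 2 + 1

abbrev A0 : Type := MvPolynomial (Fin 2) ℝ ⧸ Ideal.span {qq}

/-- the embedding of the coordinate ring -/
def θ : A0 →+* R := Ideal.Quotient.lift _ θ0 fun a ha => by
  obtain ⟨c, rfl⟩ := Ideal.mem_span_singleton'.1 ha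
  rw [map_mul, map_add, map_add, map_pow, map_pow, θ0_X0, θ0_X1, map_one, xy_sq, mul_zero]

theorem θ_mk (p : MvPolynomial (Fin 2) ℝ) : θ (Ideal.Quotient.mk _ p) = θ0 p := rfl

theorem ρ_θ (a : A0) : ρ (θ a) = θ a := by
  obtain ⟨p, rfl⟩ := Ideal.Quotient.mk_surjective a
  rw [θ_mk]
  induction p using MvPolynomial.induction_on with
  | C r => rw [θ0_C, ρ_smul, map_one, Complex.conj_ofReal]
  | add p q hp hq => rw [map_add, map_add, hp, hq]
  | mul_X p i hp =>
    rw [map_mul, map_mul, hp]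
    fin_cases i
    · simp only [Fin.zero_eta, θ0_X0, ρ_xx]
    · simp only [Fin.mk_one, θ0_X1, ρ_yy]

theorem div_q (p : MvPolynomial (Fin 2) ℝ) : ∃ (a b : Polynomial ℝ) (c : MvPolynomial (Fin 2) ℝ),
    p = Polynomial.aeval (X 0) a + X 1 * Polynomial.aeval (X 0) b + c * qq := by
  induction p using MvPolynomial.induction_on with
  | C r => exact ⟨Polynomial.C r, 0, 0, by simp⟩
  | add p q hp hq =>
    obtain ⟨a, b, c, rfl⟩ := hp
    obtain ⟨a', b', c', rfl⟩ := hq
    exact ⟨a + a', b + b', c + c', by simp only [map_add]; ring⟩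
  | mul_X p i hp =>
    obtain ⟨a, b, c, rfl⟩ := hp
    fin_cases i
    · exact ⟨a * Polynomial.X, b * Polynomial.X, c * X 0, by
        simp only [map_mul, Polynomial.aeval_X, Fin.zero_eta]; ring⟩
    · exact ⟨-(Polynomial.X ^ 2 + 1) * b, a, c * X 1 + Polynomial.aeval (X 0) b, by
        simp only [map_mul, map_neg, map_add, map_pow, map_one, Polynomial.aeval_X, Fin.mk_one]
        ring⟩

theorem θ_injective : Function.Injective θ := by
  rw [injective_iff_map_eq_zero]
  intro a ha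
  obtain ⟨p, rfl⟩ := Ideal.Quotient.mk_surjective a
  obtain ⟨a, b, c, rfl⟩ := div_q p
  have hq : Ideal.Quotient.mk (Ideal.span {qq}) (c * qq) = 0 :=
    Ideal.Quotient.eq_zero_iff_mem.2 (Ideal.mul_mem_left _ _ (Ideal.mem_span_singleton_self _))
  rw [map_add, hq, add_zero] at ha ⊢
  have key : ∀ s : ℝ, a.eval s = 0 ∧ b.eval s = 0 := fun s => by
    have h1 : 0 < √(s ^ 2 + 1) := Real.sqrt_pos.2 (by positivity)
    have h2 : √(s ^ 2 + 1) ^ 2 = s ^ 2 + 1 := Real.sq_sqrt (by positivity)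
    set w := √(s ^ 2 + 1)
    have h3 : ((s + w : ℝ) : ℂ) * ((w - s : ℝ) : ℂ) = 1 := by
      rw [← Complex.ofReal_mul, ← Complex.ofReal_one]; congr 1; linear_combination h2
    let ev : R →+* ℂ := LaurentPolynomial.eval₂ (RingHom.id ℂ) ⟨_, _, h3, (mul_comm _ _).trans h3⟩
    have e0 : ∀ (c : ℂ) (f : R), ev (c • f) = c * ev f := fun c f => by
      rw [LaurentPolynomial.smul_eq_C_mul, map_mul, LaurentPolynomial.eval₂_C]; rfl
    have e1 : ev (T 1) = (s + w : ℝ) := by rw [LaurentPolynomial.eval₂_T]; simp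
    have e2 : ev (T (-1)) = (w - s : ℝ) := by rw [LaurentPolynomial.eval₂_T, zpow_neg_one]; rfl
    have e3 : ev xx = s := by rw [xx, e0, map_sub, e1, e2]; push_cast; ring
    have e4 : ev yy = Complex.I * w := by rw [yy, e0, map_add, e1, e2]; push_cast; ring
    have e5 : ∀ g : Polynomial ℝ, ev (θ0 (Polynomial.aeval (X 0) g)) = (g.eval s : ℝ) := fun g => by
      induction g using Polynomial.induction_on' with
      | add p q hp hq => simp only [map_add, hp, hq, Polynomial.eval_add, Complex.ofReal_add]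
      | monomial n r =>
        rw [Polynomial.aeval_monomial, algebraMap_eq, map_mul, map_pow, θ0_C, θ0_X0, map_mul,
          map_pow, e0, e3]
        simp
    have := congrArg ev ha
    rw [θ_mk, map_add, map_mul, map_add, map_mul, θ0_X1, e4, e5, e5, map_zero] at this
    have h4 := congrArg Complex.re this
    have h5 := congrArg Complex.im this
    simp at h4 h5
    exact ⟨h4, h5.resolve_left h1.ne'⟩
  rw [Polynomial.funext (p := a) (q := 0) fun s => by simpa using (key s).1,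
    Polynomial.funext (p := b) (q := 0) fun s => by simpa using (key s).2]
  simp

theorem θ_surj {f : R} (hf : ρ f = f) : ∃ a, θ a = f := by
  have hs : ∀ (r : ℝ), ∀ g ∈ θ.range, (r : ℂ) • g ∈ θ.range := fun r g hg => by
    have : (r : ℂ) • g = θ (Ideal.Quotient.mk _ (C r)) * g := by
      rw [θ_mk, θ0_C, smul_mul_assoc, one_mul]
    rw [this]
    exact mul_mem ⟨_, rfl⟩ hg
  have hx : xx ∈ θ.range := ⟨Ideal.Quotient.mk _ (X 0), θ0_X0⟩
  have hy : yy ∈ θ.range := ⟨Ideal.Quotient.mk _ (X 1), θ0_X1⟩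
  have hT : ∀ k : ℕ, ∃ u ∈ θ.range, ∃ v ∈ θ.range, (T k : R) = u + Complex.I • v := fun k => by
    induction k with
    | zero => exact ⟨1, one_mem _, 0, zero_mem _, by simp⟩
    | succ k ih =>
      obtain ⟨u, hu, v, hv, e⟩ := ih
      refine ⟨u * xx + v * yy, add_mem (mul_mem hu hx) (mul_mem hv hy), v * xx - u * yy,
        sub_mem (mul_mem hv hx) (mul_mem hu hy), ?_⟩
      rw [Nat.cast_succ, LaurentPolynomial.T_add, e, T_eq]
      simp only [add_mul, mul_sub, smul_mul_assoc, mul_smul_comm, smul_add, smul_smul,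
        Complex.I_mul_I]
      module
  have hE : ∀ k : ℤ, E k ∈ θ.range := fun k => by
    unfold E
    split_ifs with h0 h1
    · exact one_mem _
    · obtain ⟨_, ⟨u, rfl⟩, _, ⟨v, rfl⟩, e⟩ := hT k.toNat
      rw [Int.toNat_of_nonneg h1.le] at e
      refine ⟨u + u, ?_⟩
      rw [e, map_add ρ, ρ_smul, ρ_θ, ρ_θ, map_add, Complex.conj_I]
      module
    · obtain ⟨_, ⟨u, rfl⟩, _, ⟨v, rfl⟩, e⟩ := hT (-k).toNat
      rw [Int.toNat_of_nonneg (by omega)] at e
      refine ⟨-(v + v), ?_⟩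
      rw [e, ρ_smul, map_add ρ, ρ_smul, ρ_θ, ρ_θ, map_neg, map_add, Complex.conj_I]
      simp only [smul_add, smul_smul, neg_mul_neg, Complex.I_mul_I]
      module
  obtain ⟨a, b, hab⟩ := finite_supp f
  have hm : f ∈ B (-(max (-a) b)) (max (-a) b) := fun n hn => hab n (by omega)
  rw [E_repr hm]
  exact sum_mem (S := θ.range) fun k _ => by rw [← co_real hf]; exact hs _ _ (hE k)

/-- the degree filtration on the coordinate ring -/
def FA : Filt A0 where
  F m := (FB.F m).comap θ.toAddMonoidHom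
  mul := fun ha hb => by
    rw [AddSubgroup.mem_comap] at *
    exact (map_mul θ _ _).symm ▸ FB.mul ha hb
  mono := fun h ha => FB.mono h ha
  one := by
    rw [AddSubgroup.mem_comap]
    exact (map_one θ).symm ▸ FB.one

theorem mem_FA {m : ℕ} {a : A0} : a ∈ FA.F m ↔ θ a ∈ B (-m) m := Iff.rfl

instance : Nontrivial A0 := θ.domain_nontrivial

theorem θ_aeval {σ : Type} (x : σ → A0) (G : MvPolynomial σ A0) :
    θ (aeval x G) = aeval (fun j => θ (x j)) (map θ G) := by
  induction G using MvPolynomial.induction_on with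
  | C a => simp
  | add f g hf hg => simp only [map_add, hf, hg]
  | mul_X f i hf => simp only [map_mul, aeval_X, map_X, hf]

theorem lang_A0 {ι σ : Type} [Fintype ι] [Fintype σ]
    (a : σ → ℕ) (d : ι → ℕ) (ha : ∀ j, 0 < a j) (hd : ∀ i, 0 < d i)
    (f : ι → MvPolynomial σ A0) (hf : ∀ i, (f i).IsWeightedHomogeneous a (d i))
    (h : ∑ i, d i < ∑ j, a j) : ¬ Aniso f := by
  refine lang (𝓕 := FA) (fun e he => ?_) (fun N D m n0 n1 n2 n3 => ?_) (fun a => ?_)
    a d ha hd f hf h
  · have hx : Ideal.Quotient.mk _ (X 0) ∈ FA.F 1 := by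
      rw [mem_FA, θ_mk, θ0_X0]
      exact Submodule.smul_mem _ _ (sub_mem (T_mem (by simp) (by simp)) (T_mem (by simp) (by simp)))
    refine ⟨fun _ => ∑ j : Fin e, C (Ideal.Quotient.mk _ (X 0) ^ (j : ℕ)) * X j ^ e,
      fun _ => ⟨IsHomogeneous.sum _ _ _ fun j _ => isHomogeneous_C_mul_X_pow _ _ _,
        sum_mem fun j _ => (FA.poly _).mono (by omega) ((FA.poly _).mul (FA.C_mem (FA.pow hx j))
          ((FA.poly _).pow (FA.X_mem j) e))⟩, fun x hx => ?_⟩
    have h1 := congrArg θ (hx 0)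
    simp only [map_sum, map_mul, map_pow, aeval_C, aeval_X, Algebra.algebraMap_self,
      RingHom.id_apply, θ_mk, θ0_X0, map_zero] at h1
    have := normic_R ⟨by simp [xx, cf_T], fun n hn => by
      rw [xx, map_smul, map_sub, cf_T, cf_T, if_neg (by omega), if_neg (by omega)]; simp⟩
      he (fun j => θ (x j)) h1
    exact _root_.funext fun j => θ_injective (by rw [congrFun this j]; simp)
  · rintro ⟨G, h1, h2⟩
    obtain ⟨L, l1, l2, l3⟩ := core n0 n1 n2 n3 (Φ := map θ (G 0))
      ⟨(h1 0).1.map _, fun α => by rw [coeff_map]; exact (h1 0).2 α⟩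
      (by rw [map_map, show ρ.comp θ = θ from RingHom.ext ρ_θ])
    choose x hx using fun j => θ_surj (l2 j)
    have := h2 x fun i => θ_injective (by
      rw [Subsingleton.elim i 0, θ_aeval, map_zero, ← l3]; simp only [hx])
    exact l1 (_root_.funext fun j => by rw [← hx, this]; simp)
  · obtain ⟨b, c, h⟩ := finite_supp (θ a)
    exact ⟨(max (-b) c).toNat, fun n hn => h n (by omega)⟩

theorem main (F : Type*) [Field F] [Algebra A0 F] [IsFractionRing A0 F]
    {ι σ : Type} [Fintype ι] [Fintype σ]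
    (a : σ → ℕ) (d : ι → ℕ) (ha : ∀ j, 0 < a j) (hd : ∀ i, 0 < d i)
    (f : ι → MvPolynomial σ F) (hf : ∀ i, (f i).IsWeightedHomogeneous a (d i))
    (h : ∑ i, d i < ∑ j, a j) : ∃ x : σ → F, x ≠ 0 ∧ ∀ i, eval x (f i) = 0 := by
  have hinj := IsFractionRing.injective A0 F
  have key : ∀ i, ∃ (g : MvPolynomial σ A0) (b : F), b ≠ 0 ∧
      map (algebraMap A0 F) g = C b * f i := fun i => by
    obtain ⟨b, hb⟩ := IsLocalization.exist_integer_multiples (nonZeroDivisors A0) (f i).support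
      fun α => coeff α (f i)
    have : C (algebraMap A0 F b) * f i ∈ Set.range (map (algebraMap A0 F)) := by
      rw [mem_range_map_iff_coeffs_subset]
      intro c hc
      obtain ⟨α, hα, rfl⟩ := mem_coeffs_iff.1 hc
      rw [coeff_C_mul, ← Algebra.smul_def]
      refine hb α (mem_support_iff.2 fun e => mem_support_iff.1 hα ?_)
      rw [coeff_C_mul, e, mul_zero]
    obtain ⟨g, hg⟩ := this
    exact ⟨g, _, IsFractionRing.to_map_ne_zero_of_mem_nonZeroDivisors b.2, hg⟩
  choose g b hb hg using key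
  have := lang_A0 a d ha hd g (fun i α hα => hf i fun e => hα (hinj (by
    rw [← coeff_map, hg, coeff_C_mul, e, mul_zero, map_zero]))) h
  simp only [Aniso, not_forall] at this
  obtain ⟨x, h1, h2⟩ := this
  refine ⟨algebraMap A0 F ∘ x, fun e => h2 (_root_.funext fun j => hinj (by
    simpa using congrFun e j)), fun i => ?_⟩
  have e1 := eval₂_comp (algebraMap A0 F) x (g i)
  rw [← eval_map, hg, map_mul, eval_C, show eval x (g i) = 0 from h1 i, map_zero] at e1
  exact (mul_eq_zero.1 e1.symm).resolve_left (hb i)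

end Pool.Agent.Lib.MP_73c785_ag.H74
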