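import Pool.Agent.Lib.MP_73c785_ag.H74I

set_option autoImplicit false

open MvPolynomial

noncomputable section

namespace Pool.Agent.Lib.MP_73c785_ag.H74

universe u v

/-- the `C_1` property for weighted systems -/
def WC1 (F : Type u) [CommRing F] : Prop :=
  ∀ (ι σ : Type) [Fintype ι] [Fintype σ] (a : σ → ℕ) (d : ι → ℕ), (∀ j, 0 < a j) → (∀ i, 0 < d i) →
    ∀ f : ι → MvPolynomial σ F, (∀ i, (f i).IsWeightedHomogeneous a (d i)) →
      ∑ i, d i < ∑ j, a j → ∃ x : σ → F, x ≠ 0 ∧ ∀ i, eval x (f i) = 0

theorem aeval_weighted' {A : Type u} [CommRing A] {σ τ : Type} {a : σ → ℕ} {w : τ → ℕ} {d : ℕ}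
    {φ : MvPolynomial σ A} (hφ : φ.IsWeightedHomogeneous a d) (g : σ → MvPolynomial τ A)
    (hg : ∀ j, (g j).IsWeightedHomogeneous w (a j)) : (aeval g φ).IsWeightedHomogeneous w d := by
  rw [aeval_def, eval₂_eq]
  refine IsWeightedHomogeneous.sum _ _ _ fun α hα => ?_
  have := (IsWeightedHomogeneous.prod α.support (fun j => g j ^ α j) (fun j => α j • a j)
    fun j _ => (hg j).pow _).C_mul (coeff α φ)
  rw [← hφ (mem_support_iff.1 hα), Finsupp.weight_apply, Finsupp.sum]
  exact this

theorem WC1.finite {F : Type u} {K : Type v} [Field F] [Field K] [Algebra F K]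
    [FiniteDimensional F K] (h : WC1 F) : WC1 K := by
  classical
  intro ι σ _ _ a d ha hd f hf hlt
  let b := Module.finBasis F K
  let G : ι → MvPolynomial (σ × Fin (Module.finrank F K)) K := fun i =>
    aeval (fun j => ∑ k, C (b k) * X (j, k)) (f i)
  have hG : ∀ i, (G i).IsWeightedHomogeneous (fun p => a p.1) (d i) := fun i =>
    aeval_weighted' (hf i) _ fun j => IsWeightedHomogeneous.sum _ _ _ fun k _ =>
      (isWeightedHomogeneous_X K (fun p : σ × Fin (Module.finrank F K) => a p.1) (j, k)).C_mul _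
  let g : ι × Fin (Module.finrank F K) → MvPolynomial (σ × Fin (Module.finrank F K)) F := fun p =>
    ∑ α ∈ (G p.1).support, monomial α (b.repr (coeff α (G p.1)) p.2)
  obtain ⟨x, hx, hx'⟩ := h _ _ (fun p : σ × Fin (Module.finrank F K) => a p.1)
    (fun p : ι × Fin (Module.finrank F K) => d p.1) (fun p => ha _) (fun p => hd _) g
    (fun p => IsWeightedHomogeneous.sum _ _ _ fun α hα =>
      isWeightedHomogeneous_monomial _ _ _ (hG p.1 (mem_support_iff.1 hα)))
    (by
      simp only [Fintype.sum_prod_type, Finset.sum_const, Finset.card_univ, Fintype.card_fin,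
        smul_eq_mul, ← Finset.mul_sum]
      exact Nat.mul_lt_mul_of_pos_left hlt Module.finrank_pos)
  refine ⟨fun j => ∑ k, x (j, k) • b k, fun e => hx (_root_.funext fun p => ?_), fun i => ?_⟩
  · exact Fintype.linearIndependent_iff.1 b.linearIndependent _ (congrFun e p.1) p.2
  · have e1 : eval (fun j => ∑ k, x (j, k) • b k) (f i) =
        aeval (fun p => algebraMap F K (x p)) (G i) := by
      rw [show aeval (fun p => algebraMap F K (x p)) (G i) = _ from aeval_bind₁ _ _ _]
      simp [Algebra.smul_def, mul_comm]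
    have e2 : G i = ∑ l, C (b l) * map (algebraMap F K) (g (i, l)) := by
      conv_lhs => rw [(G i).as_sum]
      simp only [g, map_sum, map_monomial, Finset.mul_sum, C_mul_monomial]
      rw [Finset.sum_comm]
      refine Finset.sum_congr rfl fun α _ => ?_
      rw [← map_sum]
      congr 1
      conv_lhs => rw [← b.sum_repr (coeff α (G i))]
      simp only [Algebra.smul_def, mul_comm]
    rw [e1, e2, map_sum]
    refine Finset.sum_eq_zero fun l _ => ?_
    have e3 := eval₂_comp (algebraMap F K) x (g (i, l))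
    rw [hx', map_zero, ← eval_map] at e3
    rw [map_mul]
    exact mul_eq_zero_of_right _ e3.symm

theorem WC1.algebraic {F : Type u} {K : Type v} [Field F] [Field K] [Algebra F K]
    [Algebra.IsAlgebraic F K] (h : WC1 F) : WC1 K := by
  classical
  intro ι σ _ _ a d ha hd f hf hlt
  let S : Finset K := Finset.univ.biUnion fun i => (f i).coeffs
  have := IntermediateField.finiteDimensional_adjoin (K := F) (S := (S : Set K))
    fun x _ => (Algebra.IsAlgebraic.isAlgebraic x).isIntegral
  have key : ∀ i, ∃ g, map (algebraMap (IntermediateField.adjoin F (S : Set K)) K) g = f i :=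
    fun i => mem_range_map_iff_coeffs_subset.2 fun c hc =>
      ⟨⟨c, IntermediateField.subset_adjoin _ _
        (Finset.mem_biUnion.2 ⟨i, Finset.mem_univ _, hc⟩)⟩, rfl⟩
  choose g hg using key
  obtain ⟨x, hx, hx'⟩ := (h.finite (K := IntermediateField.adjoin F (S : Set K))) _ _ a d ha hd g
    (fun i α hα => hf i (by
      rw [← hg, coeff_map]; exact (map_ne_zero _).2 hα)) hlt
  refine ⟨algebraMap _ K ∘ x, fun e => hx (_root_.funext fun j => ?_), fun i => ?_⟩
  · exact Subtype.ext (congrFun e j)
  · rw [← hg, eval_map, ← eval₂_comp, hx', map_zero]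

theorem wc1_of_conic (K : Type u) [Field K] [Algebra ℝ K] (x y : K) (hx : Transcendental ℝ x)
    (hxy : x ^ 2 + y ^ 2 + 1 = 0)
    (hK : Algebra.IsAlgebraic (IntermediateField.adjoin ℝ ({x, y} : Set K)) K) : WC1 K := by
  have : IsDomain A0 := θ_injective.isDomain _
  let φ0 : MvPolynomial (Fin 2) ℝ →ₐ[ℝ] K := aeval ![x, y]
  let φ : A0 →+* K := Ideal.Quotient.lift _ φ0 fun a ha => by
    obtain ⟨c, rfl⟩ := Ideal.mem_span_singleton'.1 ha
    simp [φ0, hxy]
  have hφ0 : ∀ p, φ (Ideal.Quotient.mk _ p) = φ0 p := fun _ => rfl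
  have hφ : Function.Injective φ := by
    rw [injective_iff_map_eq_zero]
    intro a ha
    obtain ⟨p, rfl⟩ := Ideal.Quotient.mk_surjective a
    obtain ⟨a, b, c, rfl⟩ := div_q p
    have hq : Ideal.Quotient.mk (Ideal.span {qq}) (c * qq) = 0 :=
      Ideal.Quotient.eq_zero_iff_mem.2 (Ideal.mul_mem_left _ _ (Ideal.mem_span_singleton_self _))
    rw [map_add, hq, add_zero] at ha ⊢
    rw [hφ0, map_add, map_mul, ← Polynomial.aeval_algHom_apply, ← Polynomial.aeval_algHom_apply]
      at ha
    simp only [φ0, aeval_X, Matrix.cons_val_zero, Matrix.cons_val_one] at ha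
    have h1 : a ^ 2 + (Polynomial.X ^ 2 + 1) * b ^ 2 = 0 := by
      by_contra hne
      refine hx ⟨_, hne, ?_⟩
      simp only [map_add, map_mul, map_pow, Polynomial.aeval_X, map_one]
      linear_combination (Polynomial.aeval x a - y * Polynomial.aeval x b) * ha +
        Polynomial.aeval x b ^ 2 * hxy
    have key : ∀ s : ℝ, a.eval s = 0 ∧ b.eval s = 0 := fun s => by
      have := congrArg (Polynomial.eval s) h1
      simp only [Polynomial.eval_add, Polynomial.eval_mul, Polynomial.eval_pow, Polynomial.eval_X,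
        Polynomial.eval_one, Polynomial.eval_zero] at this
      constructor <;>
        nlinarith [sq_nonneg (a.eval s), sq_nonneg (b.eval s), sq_nonneg (s * b.eval s)]
    rw [Polynomial.funext (p := a) (q := 0) fun s => by simpa using (key s).1,
      Polynomial.funext (p := b) (q := 0) fun s => by simpa using (key s).2]
    simp
  let ψ : FractionRing A0 →+* K := IsFractionRing.lift hφ
  have hψ : ∀ p, ψ (algebraMap A0 _ (Ideal.Quotient.mk _ p)) = φ0 p := fun p =>
    IsFractionRing.lift_algebraMap hφ _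
  let : Algebra (FractionRing A0) K := ψ.toAlgebra
  have hle : (IntermediateField.adjoin ℝ ({x, y} : Set K)).toSubfield ≤ ψ.fieldRange := by
    rw [IntermediateField.adjoin_toSubfield, Subfield.closure_le]
    rintro z (⟨r, rfl⟩ | rfl | rfl)
    · exact ⟨_, (hψ (C r)).trans (by simp [φ0])⟩
    · exact ⟨_, (hψ (X 0)).trans (by simp [φ0])⟩
    · exact ⟨_, (hψ (X 1)).trans (by simp [φ0])⟩
  have : Algebra.IsAlgebraic (FractionRing A0) K := ⟨fun z => by
    have h1 : IsAlgebraic ψ.fieldRange z :=
      (hK.isAlgebraic z).ringHom_of_comp_eq (Subfield.inclusion hle) (RingHom.id K)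
        (Subfield.inclusion hle).injective (RingHom.ext fun _ => rfl)
    exact IsAlgebraic.of_ringHom_of_comp_eq ψ.rangeRestrictField (RingHom.id K) h1
      ψ.rangeRestrictField_bijective.2 Function.injective_id (RingHom.ext fun _ => rfl)⟩
  exact WC1.algebraic (F := FractionRing A0) fun ι σ _ _ a d ha hd f hf h =>
    main _ a d ha hd f hf h

end Pool.Agent.Lib.MP_73c785_ag.H74
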