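import Pool.Agent.Lib.MP_73c785_ag.H74J

set_option autoImplicit false

open MvPolynomial

noncomputable section

namespace Pool.Agent.Lib.MP_73c785_ag.H74

universe u

/-- in transcendence degree one, a point of the conic with transcendental abscissa suffices -/
theorem wc1_of_trdeg (K : Type u) [Field K] [Algebra ℝ K] (hK : Algebra.trdeg ℝ K = 1)
    (x y : K) (hx : Transcendental ℝ x) (hxy : x ^ 2 + y ^ 2 + 1 = 0) : WC1 K := by
  refine wc1_of_conic K x y hx hxy ?_
  have h1 : AlgebraicIndependent ℝ ![x] := algebraicIndependent_iff_transcendental.2 hx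
  have h2 : IsTranscendenceBasis ℝ ![x] :=
    h1.isTranscendenceBasis_of_lift_trdeg_le_of_finite (by simp [hK])
  have h3 := h2.isAlgebraic_field
  have hle : IntermediateField.adjoin ℝ (Set.range ![x]) ≤
      IntermediateField.adjoin ℝ ({x, y} : Set K) :=
    IntermediateField.adjoin.mono _ _ _ (by simp)
  refine ⟨fun z => ?_⟩
  exact (h3.isAlgebraic z).tower_top_of_subalgebra_le
    (A := (IntermediateField.adjoin ℝ (Set.range ![x])).toSubalgebra)
    (B := (IntermediateField.adjoin ℝ ({x, y} : Set K)).toSubalgebra) hle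

/-- the case where `-1` is a square -/
theorem wc1_of_sqrt (K : Type u) [Field K] [Algebra ℝ K] (hK : Algebra.trdeg ℝ K = 1)
    (i : K) (hi : i ^ 2 = -1) : WC1 K := by
  have : CharZero K := (algebraMap ℝ K).charZero_iff (algebraMap ℝ K).injective |>.1 inferInstance
  have htr : Algebra.Transcendental ℝ K := by
    rw [← trdeg_ne_zero_iff, hK]
    exact one_ne_zero
  obtain ⟨t, ht⟩ := htr.transcendental
  have ht0 : t ≠ 0 := by
    rintro rfl
    exact ht isAlgebraic_zero
  have hi0 : i ≠ 0 := by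
    rintro rfl
    simp at hi
  refine wc1_of_trdeg K hK ((t - t⁻¹) / 2) ((t + t⁻¹) / (2 * i)) ?_ ?_
  · intro ha
    apply ht
    have hb : IsAlgebraic ℝ ((t - (t - t⁻¹) / 2) ^ 2) := by
      have : (t - (t - t⁻¹) / 2) ^ 2 = ((t - t⁻¹) / 2) ^ 2 + 1 := by
        field_simp
        ring
      rw [this]
      exact (ha.pow 2).add isAlgebraic_one
    have hc := hb.of_pow (by norm_num)
    simpa using hc.add ha
  · have h4 : ((t + t⁻¹) / (2 * i)) ^ 2 = -((t + t⁻¹) / 2) ^ 2 := by
      rw [div_pow, mul_pow, hi, div_pow]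
      ring
    rw [h4]
    field_simp
    ring

theorem iso3 {L : Type u} [Field L] (h : WC1 L) (a b : L) :
    ∃ x y z : L, (x ≠ 0 ∨ y ≠ 0 ∨ z ≠ 0) ∧ x ^ 2 + a * y ^ 2 = b * z ^ 2 := by
  have hX : ∀ j : Fin 3, (X j ^ 2 : MvPolynomial (Fin 3) L).IsWeightedHomogeneous
      (fun _ => 1) 2 := fun j =>
    (isWeightedHomogeneous_X L (fun _ : Fin 3 => 1) j).pow 2
  obtain ⟨v, hv, he⟩ := h (Fin 1) (Fin 3) (fun _ => 1) (fun _ => 2) (fun _ => one_pos)
    (fun _ => two_pos) (fun _ => X 0 ^ 2 + C a * X 1 ^ 2 + C (-b) * X 2 ^ 2)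
    (fun _ => ((hX 0).add ((hX 1).C_mul a)).add ((hX 2).C_mul (-b))) (by simp)
  refine ⟨v 0, v 1, v 2, ?_, ?_⟩
  · by_contra hc
    push Not at hc
    apply hv
    funext j
    fin_cases j
    · exact hc.1
    · exact hc.2.1
    · exact hc.2.2
  · have := he 0
    simp only [map_add, map_mul, map_pow, eval_X, eval_C] at this
    linear_combination this

/-- Pfister's lemma: a binary form `x^2 + a y^2` represents every sum of two squares -/
theorem rep_two_sq {K : Type u} [Field K] [CharZero K]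
    [Fact (∀ r : K, r ^ 2 ≠ -1 + 0 * r)] (h : WC1 (QuadraticAlgebra K (-1) 0))
    (a b1 b2 : K) :
    ∃ x y z : K, (x ≠ 0 ∨ y ≠ 0 ∨ z ≠ 0) ∧ x ^ 2 + a * y ^ 2 = (b1 ^ 2 + b2 ^ 2) * z ^ 2 := by
  by_cases hb2 : b2 = 0
  · exact ⟨b1, 0, 1, by simp, by simp [hb2]⟩
  obtain ⟨X, Y, Z, hne, he⟩ := iso3 h ⟨a, 0⟩ ⟨b1, b2⟩
  by_cases hZ : Z = 0
  · have hY : Y ≠ 0 := by
      rintro rfl
      subst hZ
      simp at he hne
      exact hne he
    have h1 : (X / Y) ^ 2 = -⟨a, 0⟩ := by
      rw [div_pow, div_eq_iff (pow_ne_zero 2 hY)]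
      subst hZ
      linear_combination he
    generalize X / Y = W at h1
    have hre := congrArg QuadraticAlgebra.re h1
    have him := congrArg QuadraticAlgebra.im h1
    simp [sq] at hre him
    by_cases hq : W.im = 0
    · exact ⟨W.re, 1, 0, by simp, by rw [hq] at hre; linear_combination hre⟩
    · have hp : W.re = 0 := by
        have : 2 * W.re * W.im = 0 := by linear_combination him
        simpa [hq] using this
      refine ⟨b1, b2 / W.im, 1, by simp, ?_⟩
      rw [hp] at hre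
      have : a = W.im ^ 2 := by linear_combination hre
      rw [this]
      field_simp
  · have h1 : (X / Z) ^ 2 + ⟨a, 0⟩ * (Y / Z) ^ 2 = ⟨b1, b2⟩ := by
      field_simp
      linear_combination he
    generalize X / Z = P at h1
    generalize Y / Z = Q at h1
    have hre := congrArg QuadraticAlgebra.re h1
    have him := congrArg QuadraticAlgebra.im h1
    simp [sq] at hre him
    obtain ⟨p1, q1⟩ := P
    obtain ⟨p2, q2⟩ := Q
    simp only at hre him
    by_cases hv : q1 ^ 2 + a * q2 ^ 2 = 0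
    · refine ⟨q1, q2, 0, ?_, by linear_combination hv⟩
      by_contra hc
      push Not at hc
      apply hb2
      rw [hc.1, hc.2.1] at him
      linear_combination -him
    · refine ⟨(b2 * p1 - b1 * q1) * q1 - a * (b2 * p2 - b1 * q2) * q2,
        (b2 * p1 - b1 * q1) * q2 + (b2 * p2 - b1 * q2) * q1, q1 ^ 2 + a * q2 ^ 2,
        Or.inr (Or.inr hv), ?_⟩
      have : (b2 * p1 - b1 * q1) ^ 2 + a * (b2 * p2 - b1 * q2) ^ 2 =
          (b1 ^ 2 + b2 ^ 2) * (q1 ^ 2 + a * q2 ^ 2) := by
        linear_combination b2 ^ 2 * hre - b1 * b2 * him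
      linear_combination (q1 ^ 2 + a * q2 ^ 2) * this

theorem three_sq {K : Type u} [Field K] [CharZero K]
    [hF : Fact (∀ r : K, r ^ 2 ≠ -1 + 0 * r)] (h : WC1 (QuadraticAlgebra K (-1) 0))
    (z b1 b2 : K) : ∃ u v : K, z * z + (b1 ^ 2 + b2 ^ 2) = u ^ 2 + v ^ 2 := by
  by_cases hb : b1 ^ 2 + b2 ^ 2 = 0
  · exact ⟨z, 0, by rw [hb]; ring⟩
  obtain ⟨x, y, w, hne, he⟩ := rep_two_sq h (-(z * z + (b1 ^ 2 + b2 ^ 2))) b1 b2
  generalize b1 ^ 2 + b2 ^ 2 = b at *
  by_cases hw : w = 0
  · have hy : y ≠ 0 := by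
      rintro rfl
      subst hw
      simp at he hne
      exact hne he
    refine ⟨x / y, 0, ?_⟩
    subst hw
    field_simp
    linear_combination -he
  · have hv : z * y + x ≠ 0 := by
      intro h0
      apply hF.out ((z * x + (z * z + b) * y) / (b * w))
      field_simp
      linear_combination (-b) * he + (z * z + b) * (z * y + x) * h0
    refine ⟨(z * x + (z * z + b) * y) / (z * y + x), b * w / (z * y + x), ?_⟩
    field_simp
    linear_combination b * he

/-- Lang's conjecture in transcendence degree one over `ℝ` (using Witt's theorem) -/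
theorem wc1_of_nonreal (K : Type u) [Field K] [Algebra ℝ K] (hK : Algebra.trdeg ℝ K = 1)
    (hneg : IsSumSq (-1 : K)) : WC1 K := by
  have : CharZero K := (algebraMap ℝ K).charZero_iff (algebraMap ℝ K).injective |>.1 inferInstance
  by_cases hi : ∃ i : K, i ^ 2 = -1
  · obtain ⟨i, hi⟩ := hi
    exact wc1_of_sqrt K hK i hi
  have hF : Fact (∀ r : K, r ^ 2 ≠ -1 + 0 * r) := ⟨fun r hr => hi ⟨r, by simpa using hr⟩⟩
  have hL : Algebra.trdeg ℝ (QuadraticAlgebra K (-1) 0) = 1 := by
    rw [← trdeg_add_eq ℝ K, hK, trdeg_eq_zero, add_zero]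
  have hW : WC1 (QuadraticAlgebra K (-1) 0) :=
    wc1_of_sqrt _ hL ⟨0, 1⟩ (by ext <;> simp [sq, QuadraticAlgebra.re_one, QuadraticAlgebra.im_one])
  have h2 : ∀ s : K, IsSumSq s → ∃ u v : K, s = u ^ 2 + v ^ 2 := by
    intro s hs
    induction hs with
    | zero => exact ⟨0, 0, by simp⟩
    | sq_add a _ ih =>
      obtain ⟨u, v, rfl⟩ := ih
      exact three_sq hW a u v
  obtain ⟨x, y, hxy⟩ := h2 _ hneg
  refine wc1_of_trdeg K hK x y ?_ (by linear_combination -hxy)
  intro hx
  have hy : IsAlgebraic ℝ y := by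
    refine IsAlgebraic.of_pow (n := 2) (by norm_num) ?_
    have : y ^ 2 = -(x ^ 2 + 1) := by linear_combination -hxy
    rw [this]
    exact ((hx.pow 2).add isAlgebraic_one).neg
  let F := algebraicClosure ℝ K
  have hxF : x ∈ F := mem_algebraicClosure_iff.2 hx
  have hyF : y ∈ F := mem_algebraicClosure_iff.2 hy
  have hF2 : (⟨x, hxF⟩ : F) ^ 2 + (⟨y, hyF⟩ : F) ^ 2 = -1 := Subtype.ext (by simpa using hxy.symm)
  rcases Real.nonempty_algEquiv_or F with ⟨⟨e⟩⟩ | ⟨⟨e⟩⟩
  · have := congrArg e hF2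
    simp only [map_add, map_pow, map_neg, map_one] at this
    nlinarith [sq_nonneg (e ⟨x, hxF⟩), sq_nonneg (e ⟨y, hyF⟩)]
  · refine hi ⟨(e.symm Complex.I : F), ?_⟩
    have : (e.symm Complex.I) ^ 2 = -1 := by
      rw [← map_pow, Complex.I_sq, map_neg, map_one]
    simpa using congrArg Subtype.val this

end Pool.Agent.Lib.MP_73c785_ag.H74
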