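import Mathlib
import Pool.Agent.Lib.helper9.CircleBU
import Pool.Agent.Lib.MP_73c785_ag.Alg

set_option autoImplicit false

open MvPolynomial

namespace Pool.Agent.Lib.MP_73c785_ag

variable {N a : ℕ}

/-- weights `(a, 1, ..., 1)` -/
def wt (N a : ℕ) : Option (Fin N) → ℕ := fun i => i.elim a (fun _ => 1)

noncomputable def sf (z : Fin N ⊕ Fin a → ℂ) : ℝ := 1 - ∑ i, ((z i).re ^ 2 + (z i).im ^ 2)

noncomputable def om (z : Fin N ⊕ Fin a → ℂ) (k : Fin a) : ℂ := z (Sum.inr k) ^ (k.val + 1)

noncomputable def xf (z : Fin N ⊕ Fin a → ℂ) (t : ℂ) : Option (Fin N) → ℂ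
  | none => (sf z : ℂ) + ∑ k : Fin a,
      (om z k * t ^ (k.val + 1) + (starRingEnd ℂ) (om z k) * (-t⁻¹) ^ (k.val + 1))
  | some j => z (Sum.inl j) * t + (starRingEnd ℂ) (z (Sum.inl j)) * (-t⁻¹)

noncomputable def pf (z : Fin N ⊕ Fin a → ℂ) : Option (Fin N) → Polynomial ℂ
  | none => Polynomial.monomial a (sf z : ℂ) + ∑ k : Fin a,
      (Polynomial.monomial (a + (k.val + 1)) (om z k) +
        Polynomial.monomial (a - (k.val + 1)) ((starRingEnd ℂ) (om z k) * (-1) ^ (k.val + 1)))
  | some j => Polynomial.monomial 2 (z (Sum.inl j)) +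
      Polynomial.monomial 0 (-(starRingEnd ℂ) (z (Sum.inl j)))

noncomputable def Lf (z : Fin N ⊕ Fin a → ℂ) : Option (Fin N) → MvPolynomial (Fin 3) ℝ
  | none => C (sf z) * X 0 ^ a + ∑ k : Fin a, X 0 ^ (a - (k.val + 1)) * reP (om z k) (k.val + 1)
  | some j => reP (z (Sum.inl j)) 1

theorem sf_eq (z : Fin N ⊕ Fin a → ℂ) : sf z = 1 - ∑ i, ‖z i‖ ^ 2 := by
  simp only [sf, Complex.sq_norm, Complex.normSq_apply]
  simp only [sq]

theorem sf_smul {c : ℂ} (hc : ‖c‖ = 1) (z : Fin N ⊕ Fin a → ℂ) : sf (c • z) = sf z := by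
  simp only [sf_eq, Pi.smul_apply, smul_eq_mul, norm_mul, hc, one_mul]

theorem contDiff_sf : ContDiff ℝ 1 (sf : (Fin N ⊕ Fin a → ℂ) → ℝ) := by
  refine contDiff_const.sub (ContDiff.sum fun i _ => ?_)
  have a1 : ContDiff ℝ 1 (fun z : Fin N ⊕ Fin a → ℂ => (z i).re) :=
    Complex.reCLM.contDiff.comp (contDiff_apply ℝ ℂ i)
  have a2 : ContDiff ℝ 1 (fun z : Fin N ⊕ Fin a → ℂ => (z i).im) :=
    Complex.imCLM.contDiff.comp (contDiff_apply ℝ ℂ i)
  exact (a1.pow 2).add (a2.pow 2)

theorem eval_pf (z : Fin N ⊕ Fin a → ℂ) {t : ℂ} (ht : t ≠ 0) (i : Option (Fin N)) :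
    (pf z i).eval t = t ^ wt N a i * xf z t i := by
  cases i with
  | none =>
    simp only [pf, xf, wt, Option.elim, Polynomial.eval_add, Polynomial.eval_finsetSum,
      Polynomial.eval_monomial, mul_add, Finset.mul_sum]
    congr 1
    · ring
    · refine Finset.sum_congr rfl fun k _ => ?_
      rw [pow_sub₀ _ ht (by omega), neg_pow (t⁻¹), inv_pow]
      ring
  | some j =>
    simp only [pf, xf, wt, Option.elim, Polynomial.eval_add, Polynomial.eval_monomial]
    field_simp

theorem natDegree_pf (z : Fin N ⊕ Fin a → ℂ) (i : Option (Fin N)) :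
    (pf z i).natDegree ≤ 2 * wt N a i := by
  cases i with
  | none =>
    simp only [pf, wt, Option.elim]
    refine Polynomial.natDegree_add_le_of_degree_le
      ((Polynomial.natDegree_monomial_le _).trans (by omega))
      (Polynomial.natDegree_sum_le_of_forall_le _ _ fun k _ => ?_)
    exact Polynomial.natDegree_add_le_of_degree_le
      ((Polynomial.natDegree_monomial_le _).trans (by omega))
      ((Polynomial.natDegree_monomial_le _).trans (by omega))
  | some j =>
    simp only [pf, wt, Option.elim]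
    exact Polynomial.natDegree_add_le_of_degree_le
      ((Polynomial.natDegree_monomial_le _).trans (by omega))
      ((Polynomial.natDegree_monomial_le _).trans (by omega))

theorem contDiff_coeff_monomial {E : Type*} [NormedAddCommGroup E] [NormedSpace ℝ E]
    {f : E → ℂ} (hf : ContDiff ℝ 1 f) (m n : ℕ) :
    ContDiff ℝ 1 fun z => (Polynomial.monomial m (f z)).coeff n := by
  simp only [Polynomial.coeff_monomial]
  split_ifs
  · exact hf
  · exact contDiff_const

theorem contDiff_pf (i : Option (Fin N)) (n : ℕ) :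
    ContDiff ℝ 1 fun z : Fin N ⊕ Fin a → ℂ => (pf z i).coeff n := by
  have hc : ∀ {f : (Fin N ⊕ Fin a → ℂ) → ℂ}, ContDiff ℝ 1 f →
      ContDiff ℝ 1 fun z => (starRingEnd ℂ) (f z) := fun hf =>
    Complex.conjCLE.contDiff.comp hf
  have ho : ∀ k : Fin a, ContDiff ℝ 1 fun z : Fin N ⊕ Fin a → ℂ => om z k := fun k =>
    (contDiff_apply ℝ ℂ _).pow _
  cases i with
  | none =>
    simp only [pf, Polynomial.coeff_add, Polynomial.finsetSum_coeff]
    refine (contDiff_coeff_monomial (Complex.ofRealCLM.contDiff.comp contDiff_sf) _ _).add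
      (ContDiff.sum fun k _ => (contDiff_coeff_monomial (ho k) _ _).add
        (contDiff_coeff_monomial ((hc (ho k)).mul contDiff_const) _ _))
  | some j =>
    simp only [pf, Polynomial.coeff_add]
    exact (contDiff_coeff_monomial (contDiff_apply ℝ ℂ _) _ _).add
      (contDiff_coeff_monomial (hc (contDiff_apply ℝ ℂ _)).neg _ _)

theorem xf_smul {c : ℂ} (hc : ‖c‖ = 1) (z : Fin N ⊕ Fin a → ℂ) (t : ℂ) :
    xf (c • z) t = xf z (c * t) := by
  have h1 : (starRingEnd ℂ) c = c⁻¹ := (Complex.inv_eq_conj hc).symm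
  funext i
  cases i with
  | none =>
    simp only [xf, sf_smul hc, om, Pi.smul_apply, smul_eq_mul, mul_pow, map_mul, map_pow, h1,
      mul_inv]
    congr 1
    refine Finset.sum_congr rfl fun k _ => ?_
    rw [neg_pow (t⁻¹), neg_pow (c⁻¹ * t⁻¹), mul_pow]
    ring
  | some j =>
    simp only [xf, Pi.smul_apply, smul_eq_mul, map_mul, h1, mul_inv]
    ring

theorem conj_xf (z : Fin N ⊕ Fin a → ℂ) (t : ℂ) (i : Option (Fin N)) :
    (starRingEnd ℂ) (xf z (-((starRingEnd ℂ) t)⁻¹) i) = xf z t i := by
  cases i with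
  | none =>
    simp only [xf, map_add, map_sum, map_mul, map_pow, map_neg, map_inv₀, Complex.conj_conj,
      Complex.conj_ofReal, inv_neg, inv_inv, neg_neg]
    congr 1
    exact Finset.sum_congr rfl fun k _ => add_comm _ _
  | some j =>
    simp only [xf, map_add, map_mul, map_neg, map_inv₀, Complex.conj_conj, inv_neg, inv_inv,
      neg_neg]
    exact add_comm _ _

theorem Lf_hom (z : Fin N ⊕ Fin a → ℂ) (i : Option (Fin N)) :
    (Lf z i).IsHomogeneous (wt N a i) := by
  cases i with
  | none =>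
    simp only [Lf, wt, Option.elim]
    refine ((isHomogeneous_X_pow _ _).C_mul _).add (IsHomogeneous.sum _ _ _ fun k _ => ?_)
    have := (isHomogeneous_X_pow (R := ℝ) (0 : Fin 3) (a - (k.val + 1))).mul
      (reP_hom (om z k) (k.val + 1))
    rwa [Nat.sub_add_cancel (by omega)] at this
  | some j => exact reP_hom _ _

theorem aeval_Lf (z : Fin N ⊕ Fin a → ℂ) (p : Fin 3 → ℂ) {t : ℂ}
    (h1 : p 1 + Complex.I * p 2 = t * p 0) (h2 : p 1 - Complex.I * p 2 = -t⁻¹ * p 0)
    (i : Option (Fin N)) : aeval p (Lf z i) = p 0 ^ wt N a i * xf z t i := by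
  cases i with
  | none =>
    simp only [Lf, xf, wt, Option.elim, map_add, map_mul, map_pow, map_sum, aeval_C, aeval_X,
      reP_aeval, h1, h2, Complex.coe_algebraMap, mul_add, Finset.mul_sum]
    congr 1
    · ring
    · refine Finset.sum_congr rfl fun k _ => ?_
      have : p 0 ^ a = p 0 ^ (a - (k.val + 1)) * p 0 ^ (k.val + 1) := by
        rw [← pow_add, Nat.sub_add_cancel (by omega)]
      rw [this, mul_pow, mul_pow]
      ring
  | some j =>
    simp only [Lf, xf, wt, Option.elim, reP_aeval, h1, h2]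
    ring

/-- On the boundary sphere the curve has a purely imaginary point on the unit circle. -/
theorem exists_imag (z : Fin N ⊕ Fin a → ℂ) (hs : sf z = 0) :
    ∃ t : ℂ, t ≠ 0 ∧ ∀ i, (xf z t i).re = 0 := by
  set H : ℝ → ℂ := fun φ => ∑ k : Fin a,
    (om z k * Complex.exp (((k.val + 1 : ℕ) : ℂ) * Complex.I * φ) /
        (((k.val + 1 : ℕ) : ℂ) * Complex.I) +
      (starRingEnd ℂ) (om z k) * (-1) ^ (k.val + 1) *
        Complex.exp (-(((k.val + 1 : ℕ) : ℂ) * Complex.I) * φ) /
          (-(((k.val + 1 : ℕ) : ℂ) * Complex.I))) with hH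
  have hexp : ∀ (c : ℂ) (φ : ℝ), HasDerivAt (fun φ : ℝ => Complex.exp (c * φ))
      (Complex.exp (c * φ) * c) φ := by
    intro c φ
    have := ((hasDerivAt_id (φ : ℂ)).const_mul c).cexp.comp_ofReal
    simpa using this
  have hd : ∀ φ : ℝ, HasDerivAt H (xf z (Complex.exp (Complex.I * φ)) none) φ := by
    intro φ
    have : xf z (Complex.exp (Complex.I * φ)) none = ∑ k : Fin a,
      (om z k * (Complex.exp (((k.val + 1 : ℕ) : ℂ) * Complex.I * φ) *
          (((k.val + 1 : ℕ) : ℂ) * Complex.I)) / (((k.val + 1 : ℕ) : ℂ) * Complex.I) +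
        (starRingEnd ℂ) (om z k) * (-1) ^ (k.val + 1) *
          (Complex.exp (-(((k.val + 1 : ℕ) : ℂ) * Complex.I) * φ) *
            (-(((k.val + 1 : ℕ) : ℂ) * Complex.I))) /
            (-(((k.val + 1 : ℕ) : ℂ) * Complex.I))) := by
      simp only [xf, hs, Complex.ofReal_zero, zero_add]
      refine Finset.sum_congr rfl fun k _ => ?_
      have hk : ((k.val + 1 : ℕ) : ℂ) * Complex.I ≠ 0 :=
        mul_ne_zero (Nat.cast_ne_zero.2 (Nat.succ_ne_zero _)) Complex.I_ne_zero
      rw [neg_pow, ← Complex.exp_neg, ← Complex.exp_nat_mul, ← Complex.exp_nat_mul,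
        ← mul_assoc (om z k), mul_div_cancel_right₀ _ hk,
        ← mul_assoc (_ * _) (Complex.exp _), mul_div_cancel_right₀ _ (neg_ne_zero.2 hk),
        mul_assoc ((k.val + 1 : ℕ) : ℂ), neg_mul, mul_assoc ((k.val + 1 : ℕ) : ℂ), mul_neg,
        mul_assoc]
    rw [this]
    exact HasDerivAt.fun_sum fun k _ =>
      (((hexp _ φ).const_mul _).div_const _).add (((hexp _ φ).const_mul _).div_const _)
  have hd' : ∀ φ : ℝ, HasDerivAt (fun φ => (H φ).re)
      (xf z (Complex.exp (Complex.I * φ)) none).re φ := fun φ =>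
    Complex.reCLM.hasFDerivAt.comp_hasDerivAt φ (hd φ)
  have hper : H 0 = H (2 * Real.pi) := by
    simp only [hH]
    refine Finset.sum_congr rfl fun k _ => ?_
    have e1 : Complex.exp (((k.val + 1 : ℕ) : ℂ) * Complex.I * ((2 * Real.pi : ℝ) : ℂ)) = 1 := by
      rw [← Complex.exp_nat_mul_two_pi_mul_I (k.val + 1)]
      congr 1; push_cast; ring
    have e2 : Complex.exp (-(((k.val + 1 : ℕ) : ℂ) * Complex.I) * ((2 * Real.pi : ℝ) : ℂ)) = 1 := by
      rw [neg_mul, Complex.exp_neg, e1, inv_one]
    rw [e1, e2]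
    simp
  obtain ⟨φ, -, hφ⟩ := exists_hasDerivAt_eq_zero (f := fun φ => (H φ).re) Real.two_pi_pos
    (fun φ _ => (hd' φ).continuousAt.continuousWithinAt) (by simp only [hper])
    (fun φ _ => hd' φ)
  refine ⟨Complex.exp (Complex.I * φ), Complex.exp_ne_zero _, fun i => ?_⟩
  cases i with
  | none => exact hφ
  | some j =>
    have h1 : (Complex.exp (Complex.I * φ))⁻¹ = (starRingEnd ℂ) (Complex.exp (Complex.I * φ)) :=
      Complex.inv_eq_conj (by rw [mul_comm]; exact Complex.norm_exp_ofReal_mul_I φ)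
    simp only [xf, h1, mul_neg, ← map_mul, Complex.add_re, Complex.neg_re, Complex.conj_re]
    ring

theorem exists_sol {d : ℕ} (ha : Odd a) (hd : d % 4 = 2) (hN : d < N + a)
    {F : MvPolynomial (Option (Fin N)) ℝ} (hF : F.IsWeightedHomogeneous (wt N a) d)
    (hpsd : ∀ y, 0 ≤ eval y F) (hpos : 0 < eval (fun i => i.elim 1 fun _ => 0) F) :
    ∃ z : Fin N ⊕ Fin a → ℂ, ∀ t : ℂ, t ≠ 0 → aeval (xf z t) F = 0 := by
  classical
  set P : (Fin N ⊕ Fin a → ℂ) → Polynomial ℂ := fun z => aeval (pf z) F with hP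
  have hev : ∀ z (t : ℂ), t ≠ 0 → (P z).eval t = t ^ d * aeval (xf z t) F := by
    intro z t ht
    simp only [hP]
    rw [eval_aeval, ← aeval_smul_weighted hF]
    congr 2
    funext i
    exact eval_pf z ht i
  have hdeg : ∀ z, (P z).natDegree ≤ 2 * d := fun z => natDegree_aeval_le hF _ (natDegree_pf z)
  have hcd : ∀ n, ContDiff ℝ 1 fun z => (P z).coeff n := contDiff_coeff_aeval pf contDiff_pf F
  have heq : ∀ c : ℂ, ‖c‖ = 1 → ∀ z k, (P (c • z)).coeff (d + k) = c ^ k * (P z).coeff (d + k) := by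
    intro c hc z k
    have hc0 : c ≠ 0 := by rintro rfl; simp at hc
    have : Polynomial.C (c ^ d) * P (c • z) = (P z).comp (Polynomial.C c * Polynomial.X) := by
      apply poly_ext_ne_zero
      intro t ht
      rw [Polynomial.eval_mul, Polynomial.eval_C, Polynomial.eval_comp, Polynomial.eval_mul,
        Polynomial.eval_C, Polynomial.eval_X, hev _ t ht, hev _ _ (mul_ne_zero hc0 ht),
        xf_smul hc]
      ring
    have h2 := congrArg (fun q => q.coeff (d + k)) this
    simp only [Polynomial.coeff_C_mul, Polynomial.comp_C_mul_X_coeff] at h2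
    apply mul_left_cancel₀ (pow_ne_zero d hc0)
    rw [h2]; ring
  have hdev : Even d := by rw [Nat.even_iff]; omega
  have hsym : ∀ z j, j ≤ 2 * d →
      (P z).coeff (2 * d - j) = (-1) ^ j * (starRingEnd ℂ) ((P z).coeff j) := by
    intro z j hj
    refine coeff_symm (hdeg z) (fun t ht => ?_) j hj
    have ht' : -((starRingEnd ℂ) t)⁻¹ ≠ 0 := by simpa using ht
    rw [hev z t ht, hev z _ ht', map_mul, conj_aeval]
    simp only [conj_xf, map_pow, map_neg, map_inv₀, Complex.conj_conj]
    rw [hdev.neg_pow, two_mul, pow_add, inv_pow]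
    field_simp
  set e : Fin N ⊕ Fin a ≃ Fin (N + a) := finSumFinEquiv with he
  set θ : (Fin N ⊕ Fin a → ℂ) → ℝ :=
    fun z => expNegInvGlue (sf z) * expNegInvGlue ((P z).coeff d).re with hθ
  have hre : ContDiff ℝ 1 fun z => ((P z).coeff d).re := Complex.reCLM.contDiff.comp (hcd d)
  have hsupp : tsupport θ ⊆ {z | 0 ≤ sf z} ∩ {z | 0 ≤ ((P z).coeff d).re} := by
    apply closure_minimal
    · intro z hz
      simp only [hθ, Function.mem_support, ne_eq, mul_eq_zero, expNegInvGlue.zero_iff_nonpos,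
        not_or, not_le] at hz
      exact ⟨hz.1.le, hz.2.le⟩
    · exact (isClosed_le continuous_const contDiff_sf.continuous).inter
        (isClosed_le continuous_const hre.continuous)
  obtain ⟨z, hz, hθz, hgz⟩ := Pool.Agent.Lib.helper9.circle_borsuk_ulam
    (fun i => (e i).val + 1) (fun i => Nat.succ_pos _)
    (fun z i => (P z).coeff (d + ((e i).val + 1))) (contDiff_pi.2 fun i => hcd _)
    (fun c hc z i => heq c hc z _) (e.symm ⟨d, hN⟩)
    (fun z => Polynomial.coeff_eq_zero_of_natDegree_lt (lt_of_le_of_lt (hdeg z) (by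
      simp only [Equiv.apply_symm_apply]; omega)))
    θ ((expNegInvGlue.contDiff.comp contDiff_sf).mul (expNegInvGlue.contDiff.comp hre))
    (by
      refine (isCompact_closedBall (0 : Fin N ⊕ Fin a → ℂ) 1).of_isClosed_subset
        (isClosed_tsupport _) fun z hz => ?_
      have h1 : 0 ≤ sf z := (hsupp hz).1
      rw [mem_closedBall_zero_iff, pi_norm_le_iff_of_nonneg zero_le_one]
      intro i
      rw [sf_eq] at h1
      have h2 : ‖z i‖ ^ 2 ≤ ∑ i, ‖z i‖ ^ 2 :=
        Finset.single_le_sum (f := fun i => ‖z i‖ ^ 2) (fun _ _ => sq_nonneg _)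
          (Finset.mem_univ i)
      nlinarith [norm_nonneg (z i)])
    (fun c hc z => by
      have := heq c hc z 0
      simp only [add_zero, pow_zero, one_mul] at this
      simp only [hθ, sf_smul hc, this])
    (by
      have h1 : sf (0 : Fin N ⊕ Fin a → ℂ) = 1 := by simp [sf]
      have h2 : P 0 = Polynomial.monomial d ((eval (fun i => i.elim 1 fun _ => 0) F : ℝ) : ℂ) := by
        apply poly_ext_ne_zero
        intro t ht
        rw [hev _ t ht, Polynomial.eval_monomial, ← aeval_ofReal, mul_comm]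
        congr 3
        funext i
        cases i with
        | none => simp [xf, h1, om]
        | some j => simp [xf]
      simp only [hθ, h1, h2, Polynomial.coeff_monomial_same, Complex.ofReal_re]
      exact mul_ne_zero (expNegInvGlue.pos_of_pos one_pos).ne' (expNegInvGlue.pos_of_pos hpos).ne')
  have hup : ∀ n, d < n → (P z).coeff n = 0 := by
    intro n hn
    by_cases h : 2 * d < n
    · exact Polynomial.coeff_eq_zero_of_natDegree_lt (lt_of_le_of_lt (hdeg z) h)
    · have := congrFun hgz (e.symm ⟨n - d - 1, by omega⟩)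
      simp only [Equiv.apply_symm_apply, Pi.zero_apply] at this
      rwa [show d + (n - d - 1 + 1) = n by omega] at this
  have hPz : P z = Polynomial.monomial d (((P z).coeff d).re : ℂ) := by
    ext n
    rw [Polynomial.coeff_monomial]
    split_ifs with h
    · subst h
      have := hsym z d (by omega)
      rw [show 2 * d - d = d by omega, hdev.neg_one_pow, one_mul] at this
      exact (Complex.conj_eq_iff_re.1 this.symm).symm
    · rcases lt_or_gt_of_ne h with h | h
      · exact hup n h
      · have := hsym z (2 * d - n) (by omega)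
        rw [show 2 * d - (2 * d - n) = n by omega, hup (2 * d - n) (by omega)] at this
        simpa using this
  have hval : ∀ t : ℂ, t ≠ 0 → aeval (xf z t) F = (((P z).coeff d).re : ℂ) := by
    intro t ht
    apply mul_left_cancel₀ (pow_ne_zero d ht)
    rw [← hev z t ht]
    conv_lhs => rw [hPz]
    rw [Polynomial.eval_monomial, mul_comm]
  have hc0 : ((P z).coeff d).re = 0 := by
    have h1 : 0 ≤ sf z := (hsupp hz).1
    have h2 : 0 ≤ ((P z).coeff d).re := (hsupp hz).2
    simp only [hθ, mul_eq_zero, expNegInvGlue.zero_iff_nonpos] at hθz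
    rcases hθz with h | h
    · obtain ⟨t, ht, hti⟩ := exists_imag z (le_antisymm h h1)
      obtain ⟨b, hb⟩ := ha
      set y : Option (Fin N) → ℝ := fun i => i.elim ((-1) ^ b * (xf z t none).im)
        fun j => (xf z t (some j)).im with hy
      have hxy : xf z t = fun i => Complex.I ^ wt N a i * (y i : ℂ) := by
        funext i
        cases i with
        | none =>
          simp only [wt, hy, Option.elim, hb, pow_succ, pow_mul, Complex.I_sq]
          push_cast
          have : ((-1 : ℂ) ^ b) * (-1) ^ b = 1 := by rw [← mul_pow]; simp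
          conv_lhs => rw [← Complex.re_add_im (xf z t none), hti]
          simp only [Complex.ofReal_zero, zero_add]
          linear_combination (-((xf z t none).im : ℂ) * Complex.I) * this
        | some j =>
          simp only [wt, hy, Option.elim, pow_one]
          conv_lhs => rw [← Complex.re_add_im (xf z t (some j)), hti]
          simp [mul_comm]
      have h3 := hval t ht
      rw [hxy, aeval_smul_weighted hF, aeval_ofReal] at h3
      have h4 : Complex.I ^ d = -1 := by
        rw [← Nat.div_add_mod d 4, hd, pow_add, pow_mul, Complex.I_pow_four, one_pow, one_mul,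
          Complex.I_sq]
      rw [h4] at h3
      have h5 : -eval y F = ((P z).coeff d).re := by
        have := congrArg Complex.re h3
        simpa using this
      linarith [hpsd y]
    · exact le_antisymm h h2
  exact ⟨z, fun t ht => by rw [hval t ht, hc0]; simp⟩

theorem sign_const {σ : Type*} [Fintype σ] {F : MvPolynomial σ ℝ}
    (heven : ∀ y, eval (-y) F = eval y F) (hreal : ∀ y, eval y F = 0 → y = 0)
    {u : σ → ℝ} (hu : 0 < eval u F) (hu0 : u ≠ 0) (y : σ → ℝ) :
    0 ≤ eval y F := by
  by_contra hneg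
  push Not at hneg
  have main : ∀ y : σ → ℝ, eval y F < 0 → ∃ t : ℝ, 0 < t ∧ t < 1 ∧ (1 - t) • u + t • y = 0 := by
    intro y hy
    have hc : Continuous fun t : ℝ => eval ((1 - t) • u + t • y) F :=
      (MvPolynomial.continuous_eval F).comp (by fun_prop)
    have := intermediate_value_Ioo' (zero_le_one' ℝ) hc.continuousOn
    obtain ⟨t, ht, h⟩ := this (a := 0) (by simpa using ⟨hy, hu⟩)
    exact ⟨t, ht.1, ht.2, hreal _ h⟩
  obtain ⟨s, hs0, hs1, hs⟩ := main y hneg
  obtain ⟨t, ht0, ht1, ht⟩ := main (-y) (by rwa [heven])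
  apply hu0
  have : (t * (1 - s) + s * (1 - t)) • u = 0 := by
    have e : (t * (1 - s) + s * (1 - t)) • u =
        t • ((1 - s) • u + s • y) + s • ((1 - t) • u + t • (-y)) := by module
    rw [e, hs, ht]; simp
  exact (smul_eq_zero.1 this).resolve_left (by nlinarith)

theorem xf_ne (z : Fin N ⊕ Fin a → ℂ) (h : ∀ t : ℂ, t ≠ 0 → ∀ i, xf z t i = 0) : False := by
  have hp : ∀ i, pf z i = 0 := fun i => poly_ext_ne_zero fun t ht => by
    rw [eval_pf z ht, h t ht, mul_zero, Polynomial.eval_zero]
  have h1 : ∀ j, z (Sum.inl j) = 0 := fun j => by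
    have := congrArg (fun q => q.coeff 2) (hp (some j))
    simpa [pf, Polynomial.coeff_monomial] using this
  have h2 : ∀ k : Fin a, z (Sum.inr k) = 0 := fun k => by
    have := congrArg (fun q => q.coeff (a + (k.val + 1))) (hp none)
    simp only [pf, Polynomial.coeff_add, Polynomial.finsetSum_coeff, Polynomial.coeff_monomial,
      Polynomial.coeff_zero] at this
    rw [if_neg (by omega), zero_add, Finset.sum_eq_single k] at this
    · rw [if_pos rfl, if_neg (by omega), add_zero] at this
      exact pow_eq_zero_iff (Nat.succ_ne_zero _) |>.1 this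
    · intro k' _ hk'
      have : k'.val ≠ k.val := fun h => hk' (Fin.ext h)
      rw [if_neg (by omega), if_neg (by omega), add_zero]
    · intro h; exact absurd (Finset.mem_univ _) h
  have hz : z = 0 := by
    funext i
    cases i with
    | inl j => exact h1 j
    | inr k => exact h2 k
  have := h 1 one_ne_zero none
  rw [hz] at this
  simp [xf, sf, om] at this

theorem no_common_zero {d : ℕ} (ha : Odd a)
    {F : MvPolynomial (Option (Fin N)) ℝ} (hF : F.IsWeightedHomogeneous (wt N a) d)
    (hreal : ∀ y, eval y F = 0 → y = 0) {z : Fin N ⊕ Fin a → ℂ}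
    (hz : ∀ t : ℂ, t ≠ 0 → aeval (xf z t) F = 0) :
    (∃ j, z (Sum.inl j) ≠ 0) ∧ ∀ t : ℂ, t ≠ 0 → ∃ j, xf z t (some j) ≠ 0 := by
  have hex : ∃ j, z (Sum.inl j) ≠ 0 := by
    by_contra hcon
    push Not at hcon
    apply xf_ne z
    intro t ht
    have hs : ∀ j, xf z t (some j) = 0 := fun j => by simp [xf, hcon j]
    obtain ⟨c, hc⟩ := IsAlgClosed.exists_pow_nat_eq (xf z t none) ha.pos
    have : xf z t = fun i => c ^ wt N a i * ((i.elim 1 fun _ => 0 : ℝ) : ℂ) := by
      funext i
      cases i with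
      | none => simp [wt, hc]
      | some j => simp [hs]
    have h3 := hz t ht
    rw [this, aeval_smul_weighted hF, aeval_ofReal] at h3
    rcases mul_eq_zero.1 h3 with h | h
    · have hc0 : c = 0 := eq_zero_of_pow_eq_zero h
      intro i
      cases i with
      | none => rw [← hc, hc0, zero_pow ha.pos.ne']
      | some j => exact hs j
    · have := congrFun (hreal _ (by exact_mod_cast h)) none
      simp at this
  refine ⟨hex, fun t₁ ht₁ => ?_⟩
  by_contra hcon
  push Not at hcon
  obtain ⟨j₀, hj₀⟩ := hex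
  have hrel : ∀ j, (starRingEnd ℂ) (z (Sum.inl j)) = z (Sum.inl j) * t₁ ^ 2 := fun j => by
    have := hcon j
    simp only [xf] at this
    field_simp at this
    linear_combination -this
  have hn : ‖t₁‖ = 1 := by
    have := congrArg norm (hrel j₀)
    rw [Complex.norm_conj, norm_mul, norm_pow] at this
    have h2 : ‖t₁‖ ^ 2 = 1 := by
      apply mul_left_cancel₀ (norm_ne_zero_iff.2 hj₀)
      rw [← this, mul_one]
    exact (pow_eq_one_iff_of_nonneg (norm_nonneg _) two_ne_zero).1 h2
  have hc₁ : (starRingEnd ℂ) t₁ = t₁⁻¹ := (Complex.inv_eq_conj hn).symm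
  have hv : ∀ j, (((z (Sum.inl j) * t₁).re : ℝ) : ℂ) = z (Sum.inl j) * t₁ := fun j => by
    apply Complex.conj_eq_iff_re.1
    rw [map_mul, hrel, hc₁]
    field_simp
  set n : ℂ → ℂ := fun t => t / t₁ - t₁ / t with hndef
  have hx : ∀ t : ℂ, t ≠ 0 → ∀ j, xf z t (some j) = n t * (z (Sum.inl j) * t₁) := by
    intro t ht j
    simp only [xf, hrel, hndef]
    field_simp
    ring
  set S : Set ℂ := ({0, t₁, -t₁} : Set ℂ)ᶜ with hS
  have hSc : IsPreconnected S :=
    (Set.Countable.isConnected_compl_of_one_lt_rank (by simp)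
      (Set.toFinite _).countable).isPreconnected
  have hS0 : ∀ t ∈ S, t ≠ 0 := fun t ht h => ht (by simp [h])
  have hSn : ∀ t ∈ S, n t ≠ 0 := by
    intro t ht h
    have h0 := hS0 t ht
    simp only [hndef] at h
    field_simp at h
    have : (t - t₁) * (t + t₁) = 0 := by linear_combination h
    rcases mul_eq_zero.1 this with h | h
    · exact ht (by simp [sub_eq_zero.1 h])
    · exact ht (by simp [eq_neg_of_add_eq_zero_left h])
  set φ : ℂ → ℂ := fun t => xf z t none / n t ^ a with hφ
  have hφc : ContinuousOn (fun t => (φ t).im) S := by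
    apply Complex.continuous_im.comp_continuousOn
    apply ContinuousOn.div
    · simp only [xf]
      refine continuousOn_const.add (continuousOn_finsetSum _ fun k _ => ?_)
      exact (continuousOn_const.mul (continuousOn_id.pow _)).add
        (continuousOn_const.mul ((continuousOn_id.inv₀ hS0).neg.pow _))
    · exact ((continuousOn_id.div_const _).sub (continuousOn_const.div continuousOn_id hS0)).pow _
    · exact fun t ht => pow_ne_zero _ (hSn t ht)
  have hm : ∀ c : ℂ, c ^ 2 = -1 → c * t₁ ∈ S := by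
    intro c hc h
    simp only [Set.mem_insert_iff, Set.mem_singleton_iff] at h
    rcases h with h | h | h
    · rcases mul_eq_zero.1 h with h | h
      · rw [h] at hc; norm_num at hc
      · exact ht₁ h
    · have : c = 1 := mul_right_cancel₀ ht₁ (by rw [h, one_mul])
      rw [this] at hc; norm_num at hc
    · have : c = -1 := mul_right_cancel₀ ht₁ (by rw [h, neg_one_mul])
      rw [this] at hc; norm_num at hc
  have hconj : (starRingEnd ℂ) (φ (-Complex.I * t₁)) = φ (Complex.I * t₁) := by
    have e1 : -Complex.I * t₁ = -((starRingEnd ℂ) (Complex.I * t₁))⁻¹ := by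
      rw [map_mul, hc₁, Complex.conj_I, mul_inv, inv_inv, inv_neg, Complex.inv_I]; ring
    simp only [hφ, map_div₀, map_pow]
    congr 1
    · rw [e1, conj_xf]
    · congr 1
      simp only [hndef, map_sub, map_div₀, map_mul, map_neg, Complex.conj_I, hc₁]
      field_simp
  obtain ⟨t, ht, hti⟩ := hSc.intermediate_value₂ (hm Complex.I Complex.I_sq)
    (hm (-Complex.I) (by rw [neg_sq, Complex.I_sq]))
    (f := fun t => (φ t).im * (φ (-Complex.I * t₁)).im) (g := fun _ => 0)
    (hφc.mul continuousOn_const) continuousOn_const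
    (by rw [← hconj, Complex.conj_im]; nlinarith [mul_self_nonneg (φ (-Complex.I * t₁)).im])
    (mul_self_nonneg _)
  obtain ⟨t, ht, hti⟩ : ∃ t ∈ S, (φ t).im = 0 := by
    rcases mul_eq_zero.1 hti with h | h
    · exact ⟨t, ht, h⟩
    · exact ⟨_, hm (-Complex.I) (by rw [neg_sq, Complex.I_sq]), h⟩
  set y : Option (Fin N) → ℝ := fun i => i.elim (φ t).re fun j => (z (Sum.inl j) * t₁).re with hy
  have hxy : xf z t = fun i => n t ^ wt N a i * (y i : ℂ) := by
    funext i
    cases i with
    | none =>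
      have : (((φ t).re : ℝ) : ℂ) = φ t := Complex.ext (by simp) (by simp [hti])
      simp only [wt, hy, Option.elim, this]
      simp only [hφ]
      rw [mul_div_cancel₀ _ (pow_ne_zero _ (hSn t ht))]
    | some j => simp only [wt, hy, Option.elim, pow_one, hv, hx t (hS0 t ht)]
  have h3 := hz t (hS0 t ht)
  rw [hxy, aeval_smul_weighted hF, aeval_ofReal] at h3
  have h4 := (mul_eq_zero.1 h3).resolve_left (pow_ne_zero _ (hSn t ht))
  have h5 := congrFun (hreal _ (by exact_mod_cast h4)) (some j₀)
  have h6 := hv j₀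
  simp only [hy, Option.elim, Pi.zero_apply] at h5
  rw [h5] at h6
  exact mul_ne_zero hj₀ ht₁ (by simpa using h6.symm)

theorem odd_of_real {d : ℕ} (ha : 0 < a) (hd : d % 4 = 2) (hN : d < N + a)
    {F : MvPolynomial (Option (Fin N)) ℝ} (hF : F.IsWeightedHomogeneous (wt N a) d)
    (hreal : ∀ y, eval y F = 0 → y = 0) : Odd a := by
  by_contra hodd
  obtain ⟨b, hb⟩ := Nat.not_odd_iff_even.1 hodd
  set u : ℝ → Option (Fin N) → ℝ := fun s i => i.elim s fun _ => 0 with hu
  have hu0 : eval (u 1) F ≠ 0 := fun h => by simpa [hu] using congrFun (hreal _ h) none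
  rcases Nat.eq_zero_or_pos N with rfl | hNpos
  · have : F = 0 := hF.eq_zero_of_no_monomials fun m hm => by
      rw [Finsupp.weight_apply, Finsupp.sum_fintype _ _ (by simp)] at hm
      simp only [Fintype.sum_option, Finset.univ_eq_empty, Finset.sum_empty, add_zero, wt,
        Option.elim, smul_eq_mul] at hm
      rcases Nat.eq_zero_or_pos (m none) with h | h
      · rw [h] at hm; omega
      · nlinarith
    exact hu0 (by simp [this])
  have h4 : Complex.I ^ d = -1 := by
    rw [← Nat.div_add_mod d 4, hd, pow_add, pow_mul, Complex.I_pow_four, one_pow, one_mul,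
      Complex.I_sq]
  have h1 : eval (u ((-1) ^ b)) F = -eval (u 1) F := by
    have := aeval_smul_weighted hF Complex.I (fun i => (u 1 i : ℂ))
    rw [h4, aeval_ofReal] at this
    have e : (fun i => Complex.I ^ wt N a i * (u 1 i : ℂ)) = fun i => (u ((-1) ^ b) i : ℂ) := by
      funext i
      cases i with
      | none => simp [wt, hu, hb, ← two_mul, pow_mul]
      | some j => simp [hu]
    rw [e, aeval_ofReal] at this
    exact_mod_cast (by simpa using this : ((eval (u ((-1) ^ b)) F : ℝ) : ℂ) = -(eval (u 1) F : ℝ))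
  rcases Nat.even_or_odd b with hb' | hb'
  · rw [hb'.neg_one_pow] at h1
    exact hu0 (by linarith)
  · rw [hb'.neg_one_pow] at h1
    set γ : ℝ → Option (Fin N) → ℝ := fun s i => i.elim s fun _ => 1 - s ^ 2 with hγ
    have hc : Continuous fun s => eval (γ s) F * eval (u 1) F := by
      refine ((MvPolynomial.continuous_eval F).comp (continuous_pi fun i => ?_)).mul
        continuous_const
      cases i with
      | none => exact continuous_id
      | some j => simp only [hγ, Option.elim]; fun_prop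
    have e1 : γ 1 = u 1 := by funext i; cases i <;> simp [hγ, hu]
    have e2 : γ (-1) = u (-1) := by funext i; cases i <;> simp [hγ, hu]
    have hmem : (0 : ℝ) ∈ Set.Icc (eval (γ (-1)) F * eval (u 1) F)
        (eval (γ 1) F * eval (u 1) F) := by
      simp only [e1, e2, h1, Set.mem_Icc]
      constructor <;> nlinarith [mul_self_nonneg (eval (u 1) F)]
    obtain ⟨s, -, hs⟩ :=
      intermediate_value_Icc (show (-1 : ℝ) ≤ 1 by norm_num) hc.continuousOn hmem
    have h2 := hreal _ ((mul_eq_zero.1 hs).resolve_right hu0)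
    have h3 := congrFun h2 none
    have h5 := congrFun h2 (some ⟨0, hNpos⟩)
    simp only [hγ, Option.elim, Pi.zero_apply] at h3 h5
    rw [h3] at h5
    norm_num at h5

theorem main {d : ℕ} (ha' : 0 < a) (hd : d % 4 = 2) (hN : d < N + a)
    {F : MvPolynomial (Option (Fin N)) ℝ} (hF : F.IsWeightedHomogeneous (wt N a) d)
    (hreal : ∀ y, eval y F = 0 → y = 0) :
    ∃ L : Option (Fin N) → MvPolynomial (Fin 3) ℝ, (∀ i, (L i).IsHomogeneous (wt N a i)) ∧
      (∀ p : Fin 3 → ℂ, p ≠ 0 → p 0 ^ 2 + p 1 ^ 2 + p 2 ^ 2 = 0 →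
        ∃ j, aeval p (L (some j)) ≠ 0) ∧
      (X 0 ^ 2 + X 1 ^ 2 + X 2 ^ 2 : MvPolynomial (Fin 3) ℝ) ∣ bind₁ L F := by
  have ha : Odd a := odd_of_real ha' hd hN hF hreal
  have hdev : Even d := by rw [Nat.even_iff]; omega
  have heven : ∀ y, eval (-y) F = eval y F := by
    intro y
    have := aeval_smul_weighted hF (-1 : ℝ) y
    rw [hdev.neg_one_pow, one_mul] at this
    rw [← coe_aeval_eq_eval]
    refine Eq.trans ?_ this
    show aeval _ F = _
    congr 2
    funext i
    cases i with
    | none => simp [wt, ha.neg_one_pow]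
    | some j => simp [wt]
  set u : Option (Fin N) → ℝ := fun i => i.elim 1 fun _ => 0 with hu
  have hu0 : u ≠ 0 := fun h => by simpa [hu] using congrFun h none
  obtain ⟨z, hz⟩ : ∃ z : Fin N ⊕ Fin a → ℂ, ∀ t : ℂ, t ≠ 0 → aeval (xf z t) F = 0 := by
    rcases lt_or_gt_of_ne (fun h => hu0 (hreal u h)) with h | h
    · have h' : 0 < eval u (-F) := by simpa using h
      obtain ⟨z, hz⟩ := exists_sol ha hd hN hF.neg
        (sign_const (by simpa using heven) (by simpa using hreal) h' hu0) h'
      exact ⟨z, by simpa using hz⟩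
    · exact exists_sol ha hd hN hF (sign_const heven hreal h hu0) h
  have hpt : ∀ p : Fin 3 → ℂ, p 0 ≠ 0 → p 0 ^ 2 + p 1 ^ 2 + p 2 ^ 2 = 0 →
      ∃ t : ℂ, t ≠ 0 ∧ ∀ i, aeval p (Lf z i) = p 0 ^ wt N a i * xf z t i := by
    intro p hp hq
    have hprod : (p 1 + Complex.I * p 2) * (p 1 - Complex.I * p 2) = -p 0 ^ 2 := by
      linear_combination hq - p 2 ^ 2 * Complex.I_sq
    have h1 : p 1 + Complex.I * p 2 ≠ 0 := by
      intro h
      rw [h, zero_mul] at hprod
      exact pow_ne_zero 2 hp (neg_eq_zero.1 hprod.symm)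
    refine ⟨(p 1 + Complex.I * p 2) / p 0, div_ne_zero h1 hp, aeval_Lf z p ?_ ?_⟩
    · field_simp
    · field_simp
      linear_combination hprod
  obtain ⟨⟨j₀, hj₀⟩, hbp⟩ := no_common_zero ha hF hreal hz
  refine ⟨Lf z, Lf_hom z, fun p hp hq => ?_, conic_dvd fun p hp hq => ?_⟩
  · by_cases hp0 : p 0 = 0
    · refine ⟨j₀, ?_⟩
      have hprod : (p 1 + Complex.I * p 2) * (p 1 - Complex.I * p 2) = 0 := by
        rw [hp0] at hq
        linear_combination hq - p 2 ^ 2 * Complex.I_sq
      have hnot : ¬ (p 1 + Complex.I * p 2 = 0 ∧ p 1 - Complex.I * p 2 = 0) := by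
        rintro ⟨h1, h2⟩
        apply hp
        have e1 : p 1 = 0 := by linear_combination (h1 + h2) / 2
        have e2 : p 2 = 0 := by
          rw [e1, zero_add] at h1
          exact (mul_eq_zero.1 h1).resolve_left Complex.I_ne_zero
        funext i
        fin_cases i
        · exact hp0
        · exact e1
        · exact e2
      simp only [Lf, reP_aeval, pow_one]
      rcases mul_eq_zero.1 hprod with h | h
      · rw [h, mul_zero, zero_add]
        exact mul_ne_zero (by simpa using hj₀) fun h' => hnot ⟨h, h'⟩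
      · rw [h, mul_zero, add_zero]
        exact mul_ne_zero hj₀ fun h' => hnot ⟨h', h⟩
    · obtain ⟨t, ht, h⟩ := hpt p hp0 hq
      obtain ⟨j, hj⟩ := hbp t ht
      exact ⟨j, by rw [h]; exact mul_ne_zero (pow_ne_zero _ hp0) hj⟩
  · obtain ⟨t, ht, h⟩ := hpt p hp hq
    rw [aeval_bind₁, funext h, aeval_smul_weighted hF, hz t ht, mul_zero]

end Pool.Agent.Lib.MP_73c785_ag
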